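import Pool.Agent.MP_ad2fa1_an.H64.Spec

/-! The algebra of absolutely convergent Fourier series with real coefficients. -/

set_option autoImplicit false

noncomputable section

namespace Pool.Agent.MP_ad2fa1_an.H64

open Real Set Filter Topology MeasureTheory BoundedContinuousFunction Function

namespace AlgA

/-- Summable real sequences indexed by the integers. -/
def A : Type := lp (fun _ : ℤ => ℝ) 1

instance : NormedAddCommGroup A := inferInstanceAs (NormedAddCommGroup (lp (fun _ : ℤ => ℝ) 1))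
instance : NormedSpace ℝ A := inferInstanceAs (NormedSpace ℝ (lp (fun _ : ℤ => ℝ) 1))
instance : CompleteSpace A := inferInstanceAs (CompleteSpace (lp (fun _ : ℤ => ℝ) 1))

/-- The coefficients. -/
def co (n : ℤ) : A →L[ℝ] ℝ := lp.evalCLM ℝ (fun _ : ℤ => ℝ) 1 n

theorem hs (a : A) : HasSum (fun n => |co n a|) ‖a‖ := by
  have := lp.hasSum_norm (E := fun _ : ℤ => ℝ) (p := 1) (by simp) a
  simp only [ENNReal.toReal_one, rpow_one, norm_eq_abs] at this
  exact this

theorem ext' {a b : A} (h : ∀ n, co n a = co n b) : a = b := lp.ext (funext h)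

/-- A summable sequence as an element. -/
def mk (f : ℤ → ℝ) (h : Summable fun n => |f n|) : A :=
  (⟨f, memℓp_gen (by simpa using h)⟩ : lp (fun _ : ℤ => ℝ) 1)

@[simp] theorem co_mk (f : ℤ → ℝ) (h : Summable fun n => |f n|) (n : ℤ) :
    co n (mk f h) = f n := rfl

theorem norm_le {a : A} {g : ℤ → ℝ} {s : ℝ} (hg : HasSum g s) (h : ∀ n, |co n a| ≤ g n) :
    ‖a‖ ≤ s := hasSum_le h (hs a) hg

/-- Reindexing of pairs. -/
def sh : ℤ × ℤ ≃ ℤ × ℤ where
  toFun p := (p.2, p.1 - p.2)
  invFun p := (p.1 + p.2, p.1)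
  left_inv p := by simp
  right_inv p := by simp

theorem conv {R : Type} [NormedRing R] [CompleteSpace R] {f g : ℤ → R} {s t : R}
    (hf : Summable fun n => ‖f n‖) (hg : Summable fun n => ‖g n‖) (hf' : HasSum f s)
    (hg' : HasSum g t) : (∀ n, Summable fun m => f m * g (n - m)) ∧
      HasSum (fun n => ∑' m, f m * g (n - m)) (s * t) := by
  have h := sh.hasSum_iff.2 (hf'.mul hg' (summable_mul_of_summable_norm hf hg))
  have h1 : ∀ n, Summable fun m => f m * g (n - m) := fun n => h.summable.prod_factor n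
  exact ⟨h1, h.prod_fiberwise fun n => (h1 n).hasSum⟩

theorem sabs (a : A) : Summable fun n => ‖|co n a|‖ := by simpa using (hs a).summable

theorem conv_le (a b : A) (n : ℤ) :
    |∑' m, co m a * co (n - m) b| ≤ ∑' m, |co m a| * |co (n - m) b| := by
  have h := (conv (sabs a) (sabs b) (hs a) (hs b)).1 n
  have := norm_tsum_le_tsum_norm (f := fun m => co m a * co (n - m) b) (by simpa using h)
  simpa using this

/-- Convolution. -/
def mul (a b : A) : A := mk (fun n => ∑' m, co m a * co (n - m) b)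
  (.of_nonneg_of_le (fun _ => abs_nonneg _) (conv_le a b)
    (conv (sabs a) (sabs b) (hs a) (hs b)).2.summable)

theorem norm_mul' (a b : A) : ‖mul a b‖ ≤ ‖a‖ * ‖b‖ :=
  norm_le (conv (sabs a) (sabs b) (hs a) (hs b)).2 (conv_le a b)

/-- The basis. -/
def d (m : ℤ) : A := mk (fun n => if n = m then 1 else 0)
  (summable_of_ne_finset_zero (s := {m}) fun n hn => by simp [Finset.notMem_singleton.1 hn])

theorem co_d (n m : ℤ) : co n (d m) = if n = m then 1 else 0 := rfl

theorem norm_d (m : ℤ) : ‖d m‖ ≤ 1 :=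
  norm_le (hasSum_ite_eq m (1 : ℝ)) fun n => by rw [co_d]; split_ifs <;> simp

/-- The terms of the Fourier series. -/
def tm (θ : ℝ) (a : A) (n : ℤ) : ℂ := (co n a : ℂ) * Complex.exp (n * θ * Complex.I)

theorem norm_ex (n : ℤ) (θ : ℝ) : ‖Complex.exp (n * θ * Complex.I)‖ = 1 := by
  have := Complex.norm_exp_ofReal_mul_I (n * θ)
  simpa using this

theorem norm_tm (θ : ℝ) (a : A) (n : ℤ) : ‖tm θ a n‖ = |co n a| := by
  rw [tm, norm_mul, norm_ex, mul_one, Complex.norm_real, norm_eq_abs]

theorem stm (θ : ℝ) (a : A) : Summable fun n => ‖tm θ a n‖ := by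
  simpa only [norm_tm] using (hs a).summable

/-- The sum of the Fourier series. -/
def ev0 (θ : ℝ) (a : A) : ℂ := ∑' n, tm θ a n

theorem hev (θ : ℝ) (a : A) : HasSum (tm θ a) (ev0 θ a) := (stm θ a).of_norm.hasSum

theorem ev0_add (θ : ℝ) (a b : A) : ev0 θ (a + b) = ev0 θ a + ev0 θ b := by
  rw [← ((hev θ a).add (hev θ b)).tsum_eq, ev0]
  exact tsum_congr fun n => by simp [tm, add_mul]

theorem ev0_smul (θ r : ℝ) (a : A) : ev0 θ (r • a) = r * ev0 θ a := by
  rw [ev0, ev0, ← tsum_mul_left]
  exact tsum_congr fun n => by simp [tm, mul_assoc]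

theorem ev0_mul (θ : ℝ) (a b : A) : ev0 θ (mul a b) = ev0 θ a * ev0 θ b := by
  rw [← (conv (stm θ a) (stm θ b) (hev θ a) (hev θ b)).2.tsum_eq, ev0]
  refine tsum_congr fun n => ?_
  rw [tm, mul, co_mk, Complex.ofReal_tsum, ← tsum_mul_right]
  refine tsum_congr fun m => ?_
  have : Complex.exp (n * θ * Complex.I) =
      Complex.exp (m * θ * Complex.I) * Complex.exp ((n - m : ℤ) * θ * Complex.I) := by
    rw [← Complex.exp_add]; congr 1; push_cast; ring
  rw [this, tm, tm]
  push_cast
  ring

theorem ev0_one (θ : ℝ) : ev0 θ (d 0) = 1 := by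
  rw [ev0, tsum_eq_single 0 fun n hn => by simp [tm, co_d, hn]]
  simp [tm, co_d]

theorem norm_ev0 (θ : ℝ) (a : A) : ‖ev0 θ a‖ ≤ ‖a‖ := by
  refine (norm_tsum_le_tsum_norm (stm θ a)).trans ?_
  simp only [norm_tm]
  exact (hs a).tsum_eq.le

theorem int_ex (k : ℤ) : ∫ θ in Ioc (0 : ℝ) (2 * π), Complex.exp (k * θ * Complex.I) =
    if k = 0 then (2 * π : ℂ) else 0 := by
  rw [← intervalIntegral.integral_of_le (by positivity)]
  split_ifs with h
  · simp [h]
  · have hc : (k : ℂ) * Complex.I ≠ 0 := mul_ne_zero (by exact_mod_cast h) Complex.I_ne_zero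
    have := integral_exp_mul_complex (a := 0) (b := 2 * π) hc
    rw [show (fun θ : ℝ => Complex.exp (k * θ * Complex.I)) =
      fun θ : ℝ => Complex.exp (k * Complex.I * θ) from funext fun θ => by congr 1; ring, this]
    have h2 := Complex.exp_int_mul_two_pi_mul_I k
    rw [show (k : ℂ) * Complex.I * ((2 * π : ℝ) : ℂ) = k * (2 * π * Complex.I) by push_cast; ring,
      h2]
    simp

theorem ev0_zero {a : A} (h : ∀ θ, ev0 θ a = 0) : a = 0 := by
  refine ext' fun k => ?_
  have e : ∀ (n : ℤ) (θ : ℝ), tm θ a n * Complex.exp ((-k : ℤ) * θ * Complex.I) =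
      co n a * Complex.exp ((n - k : ℤ) * θ * Complex.I) := fun n θ => by
    rw [tm, mul_assoc, ← Complex.exp_add]; congr 2; push_cast; ring
  have h1 := hasSum_integral_of_summable_integral_norm (μ := volume.restrict (Ioc (0 : ℝ) (2 * π)))
    (F := fun (n : ℤ) (θ : ℝ) => (co n a : ℂ) * Complex.exp ((n - k : ℤ) * θ * Complex.I))
    (fun n => (Continuous.integrableOn_Ioc (by fun_prop)))
    (by
      simp only [norm_mul, norm_ex, mul_one, Complex.norm_real, norm_eq_abs, integral_const,
        smul_eq_mul]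
      exact (hs a).summable.mul_left _)
  have h2 : ∀ θ : ℝ, ∑' n : ℤ, (co n a : ℂ) * Complex.exp ((n - k : ℤ) * θ * Complex.I) = 0 :=
    fun θ => by
      simp only [← e]
      rw [tsum_mul_right, ← ev0, h, zero_mul]
  simp only [h2, integral_zero, integral_const_mul, int_ex] at h1
  have h3 := (hasSum_single (f := fun n : ℤ => (co n a : ℂ) * if n - k = 0 then (2 * π : ℂ) else 0)
    k fun n hn => by simp [sub_eq_zero, hn]).unique h1
  simpa [pi_ne_zero] using h3

theorem ev0_inj {a b : A} (h : ∀ θ, ev0 θ a = ev0 θ b) : a = b := by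
  refine sub_eq_zero.1 (ev0_zero fun θ => ?_)
  have := ev0_add θ (a - b) b
  rw [sub_add_cancel, h] at this
  linear_combination -this

theorem ev0_0 (θ : ℝ) : ev0 θ 0 = 0 := by simp [ev0, tm]

instance : CommRing A :=
  { (inferInstance : AddCommGroup A) with
    mul := mul
    one := d 0
    mul_assoc := fun a b c => ev0_inj fun θ => by
      change ev0 θ (mul (mul a b) c) = ev0 θ (mul a (mul b c))
      simp only [ev0_mul, mul_assoc]
    mul_comm := fun a b => ev0_inj fun θ => by
      change ev0 θ (mul a b) = ev0 θ (mul b a)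
      simp only [ev0_mul, mul_comm]
    one_mul := fun a => ev0_inj fun θ => by
      change ev0 θ (mul (d 0) a) = _
      simp only [ev0_mul, ev0_one, one_mul]
    mul_one := fun a => ev0_inj fun θ => by
      change ev0 θ (mul a (d 0)) = _
      simp only [ev0_mul, ev0_one, mul_one]
    left_distrib := fun a b c => ev0_inj fun θ => by
      change ev0 θ (mul a (b + c)) = ev0 θ (mul a b + mul a c)
      simp only [ev0_mul, ev0_add, mul_add]
    right_distrib := fun a b c => ev0_inj fun θ => by
      change ev0 θ (mul (a + b) c) = ev0 θ (mul a c + mul b c)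
      simp only [ev0_mul, ev0_add, add_mul]
    zero_mul := fun a => ev0_inj fun θ => by
      change ev0 θ (mul 0 a) = ev0 θ 0
      simp only [ev0_mul, ev0_0, zero_mul]
    mul_zero := fun a => ev0_inj fun θ => by
      change ev0 θ (mul a 0) = ev0 θ 0
      simp only [ev0_mul, ev0_0, mul_zero] }

instance : NormedCommRing A :=
  { (inferInstance : CommRing A), (inferInstance : NormedAddCommGroup A) with
    norm_mul_le := norm_mul' }

instance : Algebra ℝ A := Algebra.ofModule
  (fun r a b => ev0_inj fun θ => by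
    change ev0 θ (mul (r • a) b) = ev0 θ (r • mul a b)
    simp only [ev0_mul, ev0_smul, mul_assoc])
  fun r a b => ev0_inj fun θ => by
    change ev0 θ (mul a (r • b)) = ev0 θ (r • mul a b)
    simp only [ev0_mul, ev0_smul, mul_left_comm]

instance : NormedAlgebra ℝ A := { (inferInstance : Algebra ℝ A) with norm_smul_le := norm_smul_le }

/-- Evaluation as a homomorphism of algebras. -/
def ev (θ : ℝ) : A →ₐ[ℝ] ℂ :=
  AlgHom.ofLinearMap
    { toFun := ev0 θ, map_add' := ev0_add θ, map_smul' := fun r a => by simp [ev0_smul] }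
    (ev0_one θ) (ev0_mul θ)

theorem mu_le (m : ℤ →ᵇ ℝ) (a : A) (n : ℤ) : |m n * co n a| ≤ ‖m‖ * |co n a| := by
  rw [abs_mul]
  exact mul_le_mul_of_nonneg_right (m.norm_coe_le_norm n) (abs_nonneg _)

/-- Multipliers. -/
def mu0 (m : ℤ →ᵇ ℝ) (a : A) : A := mk (fun n => m n * co n a)
  (.of_nonneg_of_le (fun _ => abs_nonneg _) (mu_le m a) ((hs a).summable.mul_left _))

theorem norm_mu0 (m : ℤ →ᵇ ℝ) (a : A) : ‖mu0 m a‖ ≤ ‖m‖ * ‖a‖ :=
  norm_le ((hs a).mul_left _) (mu_le m a)

/-- Multipliers as a bilinear map. -/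
def mu : (ℤ →ᵇ ℝ) →L[ℝ] A →L[ℝ] A :=
  LinearMap.mkContinuous₂ (LinearMap.mk₂ ℝ mu0
    (fun m m' a => ext' fun n => by simp [mu0, add_mul])
    (fun r m a => ext' fun n => by simp [mu0, mul_assoc])
    (fun m a b => ext' fun n => by simp [mu0, mul_add])
    (fun r m a => ext' fun n => by simp [mu0, mul_left_comm])) 1
    fun m a => by simpa using norm_mu0 m a

theorem hs2 (a : A) : HasSum (fun n => (|co n a| + |co (-n) a|) / 2) ‖a‖ := by
  have h := ((hs a).add ((Equiv.neg ℤ).hasSum_iff.2 (hs a))).div_const 2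
  rw [add_self_div_two] at h
  exact h

theorem pr_le (a : A) (n : ℤ) : |if 2 ≤ |n| then (co n a + co (-n) a) / 2 else 0| ≤
    (|co n a| + |co (-n) a|) / 2 := by
  split_ifs
  · rw [abs_div, abs_two]
    exact div_le_div_of_nonneg_right (abs_add_le _ _) zero_le_two
  · rw [abs_zero]; positivity

/-- Symmetric part of the high modes. -/
def pr0 (a : A) : A := mk (fun n => if 2 ≤ |n| then (co n a + co (-n) a) / 2 else 0)
  (.of_nonneg_of_le (fun _ => abs_nonneg _) (pr_le a) (hs2 a).summable)

theorem norm_pr0 (a : A) : ‖pr0 a‖ ≤ ‖a‖ := norm_le (hs2 a) (pr_le a)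

/-- The projection as a linear map. -/
def pr : A →L[ℝ] A :=
  LinearMap.mkContinuous
    { toFun := pr0
      map_add' := fun a b => ext' fun n => by
        simp only [pr0, co_mk, map_add]; split_ifs <;> ring
      map_smul' := fun r a => ext' fun n => by
        simp only [pr0, co_mk, map_smul, smul_eq_mul, RingHom.id_apply]; split_ifs <;> ring } 1
    fun a => by simpa using norm_pr0 a

theorem ev_cont : Continuous fun p : ℝ × A => ev p.1 p.2 := by
  refine continuous_prod_of_continuous_lipschitzWith' _ 1 (fun θ => ?_) fun a => ?_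
  · refine LipschitzWith.of_dist_le_mul fun a b => ?_
    rw [dist_eq_norm, dist_eq_norm, ← map_sub, NNReal.coe_one, one_mul]
    exact norm_ev0 θ _
  · exact continuous_tsum (f := fun n θ => tm θ a n) (fun n => by unfold tm; fun_prop)
      (hs a).summable fun n θ => (norm_tm θ a n).le

end AlgA

open AlgA in
theorem alg : SAlg :=
  ⟨A, inferInstance, inferInstance, inferInstance, ⟨{
    c := co
    d := d
    mu := mu
    pr := pr
    ev := ev
    sum_le := fun a s => sum_le_hasSum s (fun _ _ => abs_nonneg _) (hs a)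
    ext := fun _ _ => ext'
    c_d := co_d
    norm_d := norm_d
    one_eq := rfl
    c_mu := fun _ _ _ => rfl
    norm_mu := fun m => ContinuousLinearMap.opNorm_le_bound _ (norm_nonneg m) (norm_mu0 m)
    c_pr := fun _ _ => rfl
    norm_pr := norm_pr0
    ev_sum := hev
    norm_ev := norm_ev0
    ev_cont := ev_cont
    ev_inj := fun _ _ => ev0_inj }⟩⟩

end Pool.Agent.MP_ad2fa1_an.H64
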