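import Pool.Agent.MP_ad2fa1_an.H64.Spec

/-!
The mode equations give the weak equation on the cylinder.
-/

set_option autoImplicit false
set_option linter.unusedVariables false

noncomputable section

namespace Pool.Agent.MP_ad2fa1_an.H64

open Real Set Filter Topology MeasureTheory Function
open scoped ContDiff
open Pool.Agent.MP_6b3e96_gt.H77 (lap Test)
open Pool.Agent.MP_6b3e96_gt.H98 (D lap_eq green int_mul test_lap)

namespace CylA

theorem fd {p q : ℝ → ℝ} {a b : ℝ} {z : ℂ} (hp : HasDerivAt p a z.re) (hq : HasDerivAt q b z.im) :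
    HasFDerivAt (fun y : ℂ => p y.re * q y.im)
      (p z.re • (b • Complex.imCLM) + q z.im • (a • Complex.reCLM)) z := by
  have h1 : HasFDerivAt (fun y : ℂ => p y.re) (a • Complex.reCLM) z :=
    hp.comp_hasFDerivAt z Complex.reCLM.hasFDerivAt
  have h2 : HasFDerivAt (fun y : ℂ => q y.im) (b • Complex.imCLM) z :=
    hq.comp_hasFDerivAt z Complex.imCLM.hasFDerivAt
  exact h1.mul h2

theorem D_one {p q p1 q1 : ℝ → ℝ} (hp : ∀ t, HasDerivAt p (p1 t) t)
    (hq : ∀ t, HasDerivAt q (q1 t) t) :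
    D 1 (fun y : ℂ => p y.re * q y.im) = fun y : ℂ => p1 y.re * q y.im := funext fun z => by
  rw [D, (fd (hp z.re) (hq z.im)).fderiv]
  simp [mul_comm]

theorem D_I {p q p1 q1 : ℝ → ℝ} (hp : ∀ t, HasDerivAt p (p1 t) t)
    (hq : ∀ t, HasDerivAt q (q1 t) t) :
    D Complex.I (fun y : ℂ => p y.re * q y.im) = fun y : ℂ => p y.re * q1 y.im :=
  funext fun z => by
    rw [D, (fd (hp z.re) (hq z.im)).fderiv]
    simp

theorem lap_sep {p q p1 q1 p2 q2 : ℝ → ℝ} (hp : ∀ t, HasDerivAt p (p1 t) t)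
    (hq : ∀ t, HasDerivAt q (q1 t) t) (hp1 : ∀ t, HasDerivAt p1 (p2 t) t)
    (hq1 : ∀ t, HasDerivAt q1 (q2 t) t) (z : ℂ) :
    lap (fun y : ℂ => p y.re * q y.im) z = p2 z.re * q z.im + p z.re * q2 z.im := by
  rw [lap_eq, D_one hp hq, D_I hp hq, D_one hp1 hq, D_I hp hq1]

theorem cd2 {p p1 p2 : ℝ → ℝ} (hp : ∀ t, HasDerivAt p (p1 t) t)
    (hp1 : ∀ t, HasDerivAt p1 (p2 t) t) (h2 : Continuous p2) : ContDiff ℝ 2 p := by
  have e1 : deriv p = p1 := funext fun t => (hp t).deriv
  have e2 : deriv p1 = p2 := funext fun t => (hp1 t).deriv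
  have h1 : ContDiff ℝ 1 p1 :=
    contDiff_one_iff_deriv.2 ⟨fun t => (hp1 t).differentiableAt, e2 ▸ h2⟩
  have : (2 : WithTop ℕ∞) = 1 + 1 := by norm_num
  rw [this, contDiff_succ_iff_deriv]
  exact ⟨fun t => (hp t).differentiableAt, by simp, e1 ▸ h1⟩

theorem dcos (k t : ℝ) : HasDerivAt (fun s => cos (k * s)) (-(k * sin (k * t))) t := by
  have := ((hasDerivAt_id t).const_mul k).cos
  simp only [id, mul_one] at this
  exact this.congr_deriv (by ring)

theorem dsin (k t : ℝ) :
    HasDerivAt (fun s => -(k * sin (k * s))) (-(k ^ 2 * cos (k * t))) t := by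
  have := ((((hasDerivAt_id t).const_mul k).sin).const_mul k).neg
  simp only [id, mul_one] at this
  exact this.congr_deriv (by ring)

variable {A : Type} [NormedCommRing A] [NormedAlgebra ℝ A]

theorem re_sum (W : Wien A) (y : ℝ) (a : A) :
    HasSum (fun n : ℤ => W.c n a * cos (2 * n * y)) (W.ev (2 * y) a).re := by
  have h := Complex.hasSum_re (W.ev_sum (2 * y) a)
  have e : (fun n : ℤ => W.c n a * cos (2 * n * y)) =
      fun n : ℤ => ((W.c n a : ℂ) * Complex.exp (n * ((2 * y : ℝ) : ℂ) * Complex.I)).re := by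
    funext n
    have : (n : ℂ) * ((2 * y : ℝ) : ℂ) = ((2 * n * y : ℝ) : ℂ) := by push_cast; ring
    rw [this, Complex.re_ofReal_mul, Complex.exp_ofReal_mul_I_re]
  rw [e]; exact h

theorem swap (W : Wien A) {g : ℝ → A} (hg : Continuous g) {χ : ℂ → ℝ} (hχ : Test univ χ) :
    HasSum (fun n : ℤ => ∫ z : ℂ, W.c n (g z.re) * cos (2 * n * z.im) * χ z)
      (∫ z : ℂ, (W.ev (2 * z.im) (g z.re)).re * χ z) := by
  have hi : ∀ n : ℤ, Integrable fun z : ℂ => W.c n (g z.re) * cos (2 * n * z.im) * χ z := fun n =>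
    int_mul isOpen_univ (u := fun z : ℂ => W.c n (g z.re) * cos (2 * n * z.im))
      (Continuous.continuousOn (by fun_prop)) hχ
  have hb : Integrable fun z : ℂ => ‖g z.re‖ * |χ z| := by
    have := (int_mul isOpen_univ (u := fun z : ℂ => ‖g z.re‖)
      (Continuous.continuousOn (by fun_prop)) hχ).norm
    simpa only [norm_mul, Real.norm_eq_abs, abs_norm] using this
  have hs : Summable fun n : ℤ => ∫ z : ℂ, ‖W.c n (g z.re) * cos (2 * n * z.im) * χ z‖ := by
    refine summable_of_sum_le (c := ∫ z : ℂ, ‖g z.re‖ * |χ z|)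
      (fun n => integral_nonneg fun z => norm_nonneg _) fun s => ?_
    rw [← integral_finsetSum s fun n _ => (hi n).norm]
    refine integral_mono (integrable_finsetSum s fun n _ => (hi n).norm) hb fun z => ?_
    calc ∑ n ∈ s, ‖W.c n (g z.re) * cos (2 * n * z.im) * χ z‖
        ≤ ∑ n ∈ s, |W.c n (g z.re)| * |χ z| := Finset.sum_le_sum fun n _ => by
          rw [Real.norm_eq_abs, abs_mul, abs_mul]
          exact mul_le_mul_of_nonneg_right
            (mul_le_of_le_one_right (abs_nonneg _) (abs_cos_le_one _)) (abs_nonneg _)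
      _ ≤ ‖g z.re‖ * |χ z| := by
          rw [← Finset.sum_mul]
          exact mul_le_mul_of_nonneg_right (W.sum_le _ s) (abs_nonneg _)
  have h := hasSum_integral_of_summable_integral_norm hi hs
  have e : (fun z : ℂ => ∑' n : ℤ, W.c n (g z.re) * cos (2 * n * z.im) * χ z) =
      fun z : ℂ => (W.ev (2 * z.im) (g z.re)).re * χ z :=
    funext fun z => ((re_sum W z.im (g z.re)).mul_right (χ z)).tsum_eq
  rwa [e] at h

end CylA

open CylA in
theorem cyl : SCyl := fun A _ _ W w f h ψ hψ => by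
  obtain ⟨hw, hf, hm⟩ := h
  have h1 := swap W hw (test_lap hψ)
  have h2 := (swap W hf hψ).neg
  have e : (fun n : ℤ => ∫ z : ℂ, W.c n (w z.re) * cos (2 * n * z.im) * lap ψ z) =
      fun n : ℤ => -∫ z : ℂ, W.c n (f z.re) * cos (2 * n * z.im) * ψ z := by
    funext n
    obtain ⟨w1, d1, d2⟩ := hm n
    have c1 : ContDiff ℝ 2 fun s => W.c n (w s) := cd2 d1 d2 (by fun_prop)
    have c2 : ContDiff ℝ 2 fun z : ℂ => W.c n (w z.re) * cos (2 * n * z.im) :=
      (c1.comp Complex.reCLM.contDiff).mul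
        (Real.contDiff_cos.comp (contDiff_const.mul Complex.imCLM.contDiff))
    rw [green univ _ ψ isOpen_univ c2.contDiffOn hψ, ← integral_neg]
    refine integral_congr_ae (.of_forall fun z => ?_)
    have := lap_sep d1 (dcos (2 * n)) d2 (dsin (2 * n)) z
    beta_reduce at this ⊢
    rw [this]; ring
  rw [e] at h1
  rw [h1.unique h2, ← integral_neg]
  simp only [neg_mul]

end Pool.Agent.MP_ad2fa1_an.H64
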