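import Pool.Agent.MP_ad2fa1_an.H64.Spec

/-!
The sign of the jump for the Liouville equation.
-/

set_option autoImplicit false

namespace Pool.Agent.MP_ad2fa1_an.H64

open Real Set Filter Topology

namespace F0A

variable {a q C δ : ℝ} {Y Z : ℝ → ℝ}

theorem dZ (h : Sol a 0 q C δ Y Z) (t : ℝ) : HasDerivAt Z (-exp (Y t)) t := by
  simpa [PP, QQ] using h.dZ' t

theorem energy (ha : 2 < a) (h : Sol a 0 q C δ Y Z) (t : ℝ) :
    Z t ^ 2 / 2 + exp (Y t) = 2 * a ^ 2 := by
  have d : ∀ s, HasDerivAt (fun s => Z s ^ 2 / 2 + exp (Y s)) 0 s := fun s =>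
    ((((dZ h s).fun_pow 2).div_const 2).fun_add (h.dY s).exp).congr_deriv (by simp; ring)
  have e : Tendsto (fun s => exp (2 * a * s)) atBot (𝓝 0) :=
    tendsto_exp_atBot.comp (tendsto_id.const_mul_atBot (by linarith))
  have h1 : Tendsto Z atBot (𝓝 (2 * a)) :=
    tendsto_iff_norm_sub_tendsto_zero.2 (squeeze_zero (fun _ => norm_nonneg _) h.zl e)
  have h2 : Tendsto (fun s => exp (Y s)) atBot (𝓝 0) :=
    squeeze_zero (fun _ => (exp_pos _).le) (fun s => exp_le_exp.2 (h.up s)) e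
  have h3 := tendsto_nhds_unique (tendsto_const_nhds.congr fun s =>
    is_const_of_deriv_eq_zero (fun s => (d s).differentiableAt) (fun s => (d s).deriv) t s)
    (((h1.pow 2).div_const 2).add h2)
  linarith

theorem wron (ha : 2 < a) (h : Sol a 0 q C δ Y Z) {L L1 φ : ℝ → ℝ} {t : ℝ}
    (h1 : HasDerivAt L (L1 t) t) (h2 : HasDerivAt L1 (4 * L t - VV 0 Y t * φ t) t)
    (h3 : φ t = L t) : HasDerivAt (fun s => exp (Y s / 2) * (L1 s - L s * Z s / 2))
      ((4 - a ^ 2) * (φ t * exp (Y t / 2))) t := by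
  refine (((h.dY t).div_const 2).exp.fun_mul
    (h2.fun_sub ((h1.fun_mul (dZ h t)).div_const 2))).congr_deriv ?_
  simp only [VV, PP, QQ, h3]
  linear_combination (-(exp (Y t / 2) * L t) / 2) * energy ha h t

theorem bound (ha : 2 < a) (h : Sol a 0 q C δ Y Z) {x y K : ℝ} (t : ℝ) (hx : |x| ≤ K)
    (hy : |y| ≤ K) : ‖exp (Y t / 2) * (y - x * Z t / 2)‖ ≤ exp (Y t / 2) * (K * (1 + a)) := by
  have h1 : |Z t| ≤ 2 * a :=
    abs_le_of_sq_le_sq' (by nlinarith [energy ha h t, exp_pos (Y t)]) (by linarith) |> abs_le.2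
  rw [Real.norm_eq_abs, abs_mul, abs_of_pos (exp_pos _)]
  refine mul_le_mul_of_nonneg_left ((abs_sub _ _).trans ?_) (exp_pos _).le
  rw [abs_div, abs_mul, abs_two]
  have := mul_le_mul hx h1 (abs_nonneg _) ((abs_nonneg _).trans hx)
  linarith

end F0A

open F0A in
theorem f0 : SF0 := by
  rintro a q C δ T j Y Z φ ha h ⟨L, L1, R, R1, K, eL, eR, dL, dL1, dR, dR1, hj, bL, -, bR⟩ hφ
  have n : ∀ t, (4 - a ^ 2) * (φ t * exp (Y t / 2)) < 0 := fun t =>
    mul_neg_of_neg_of_pos (by nlinarith) (mul_pos (hφ t) (exp_pos _))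
  have wL := fun t (ht : t ∈ Iic T) => wron ha h (dL t) (dL1 t) (eL t ht)
  have wR := fun t (ht : t ∈ Ici T) => wron ha h (dR t) (dR1 t) (eR t ht)
  have aL := strictAntiOn_of_deriv_neg (convex_Iic T)
    (fun t ht => (wL t ht).continuousAt.continuousWithinAt)
    fun t ht => (wL t (interior_subset ht)).deriv ▸ n t
  have aR := strictAntiOn_of_deriv_neg (convex_Ici T)
    (fun t ht => (wR t ht).continuousAt.continuousWithinAt)
    fun t ht => (wR t (interior_subset ht)).deriv ▸ n t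
  have tL : Tendsto (fun s => exp (Y s / 2) * (L1 s - L s * Z s / 2)) atBot (𝓝 0) := by
    have e : Tendsto (fun s => exp (2 * s)) atBot (𝓝 0) :=
      tendsto_exp_atBot.comp (tendsto_id.const_mul_atBot two_pos)
    refine squeeze_zero_norm' ?_ (by simpa using (e.const_mul K).mul_const (1 + a))
    filter_upwards [eventually_le_atBot T, eventually_le_atBot 0] with t ht h0
    refine (bound ha h t (bL t ht).1 (bL t ht).2).trans (mul_le_of_le_one_left
      (mul_nonneg ((abs_nonneg _).trans (bL t ht).1) (by linarith)) (exp_le_one_iff.2 ?_))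
    nlinarith [h.up t]
  have tR : Tendsto (fun s => exp (Y s / 2) * (R1 s - R s * Z s / 2)) atTop (𝓝 0) := by
    have c0 : 0 ≤ C := (pos_of_mul_pos_left ((exp_pos _).trans_le (h.dec 0)) (om_pos δ 0).le).le
    have e : Tendsto (fun s : ℝ => exp (-δ * |s|)) atTop (𝓝 0) := tendsto_exp_atBot.comp
      (tendsto_abs_atTop_atTop.const_mul_atTop_of_neg (neg_lt_zero.2 h.d0))
    have e1 : Tendsto (fun s => exp (Y s)) atTop (𝓝 0) := squeeze_zero (fun _ => (exp_pos _).le)
      (fun s => (h.dec s).trans (mul_le_mul_of_nonneg_left (om_le δ s) c0))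
      (by simpa using e.const_mul C)
    have e2 : Tendsto (fun s => exp (Y s / 2)) atTop (𝓝 0) := by
      simpa only [exp_half, sqrt_zero] using e1.sqrt
    refine squeeze_zero_norm' ?_ (by simpa using e2.mul_const (K * (1 + a)))
    filter_upwards [eventually_ge_atTop T] with t ht
    exact bound ha h t (bR t ht).1 (bR t ht).2
  have m1 : T - 1 ∈ Iic T := mem_Iic.2 (by linarith)
  have m2 : T + 1 ∈ Ici T := mem_Ici.2 (by linarith)
  have h1 := (aL m1 self_mem_Iic (by linarith)).trans_le (le_of_tendsto_of_tendsto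
    tendsto_const_nhds tL ((eventually_le_atBot (T - 1)).mono fun s hs =>
      aL.antitoneOn (hs.trans m1) m1 hs))
  have h2 := (le_of_tendsto_of_tendsto tR tendsto_const_nhds
    ((eventually_ge_atTop (T + 1)).mono fun s hs =>
      aR.antitoneOn m2 (le_trans m2 hs) hs)).trans_lt (aR self_mem_Ici m2 (by linarith))
  beta_reduce at h1 h2
  rw [← eL T le_rfl] at h1
  rw [← eR T le_rfl] at h2
  have h3 : exp (Y T / 2) * (4 * j) < 0 := by
    rw [← hj]
    linarith
  linarith [neg_of_mul_neg_right h3 (exp_pos _).le]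

end Pool.Agent.MP_ad2fa1_an.H64
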