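import Pool.Agent.MP_ad2fa1_an.H64.Spec

/-!
The critical mode near the top of the radial family: positivity and the sign of the jump.
-/

set_option autoImplicit false
set_option linter.unusedVariables false

noncomputable section

namespace Pool.Agent.MP_ad2fa1_an.H64

open Real Set Filter Topology

namespace F1A

theorem mono {f f' : ℝ → ℝ} {a b : ℝ} (hab : a ≤ b) (hd : ∀ t ∈ Icc a b, HasDerivAt f (f' t) t)
    (hp : ∀ t ∈ Ioo a b, 0 ≤ f' t) : f a ≤ f b := by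
  rcases hab.eq_or_lt with rfl | h
  · exact le_rfl
  obtain ⟨c, hc, e⟩ := exists_hasDerivAt_eq_slope f f' h
    (fun t ht => (hd t ht).continuousAt.continuousWithinAt)
    (fun t ht => hd t (Ioo_subset_Icc_self ht))
  have := hp c hc
  rw [e, le_div_iff₀ (sub_pos.2 h)] at this
  linarith

theorem smono {f f' : ℝ → ℝ} {a b : ℝ} (h : a < b) (hd : ∀ t ∈ Icc a b, HasDerivAt f (f' t) t)
    (hp : ∀ t ∈ Ioo a b, 0 < f' t) : f a < f b := by
  obtain ⟨c, hc, e⟩ := exists_hasDerivAt_eq_slope f f' h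
    (fun t ht => (hd t ht).continuousAt.continuousWithinAt)
    (fun t ht => hd t (Ioo_subset_Icc_self ht))
  have := hp c hc
  rw [e, lt_div_iff₀ (sub_pos.2 h)] at this
  linarith

theorem anti {f f' : ℝ → ℝ} {a b : ℝ} (hab : a ≤ b) (hd : ∀ t ∈ Icc a b, HasDerivAt f (f' t) t)
    (hp : ∀ t ∈ Ioo a b, f' t ≤ 0) : f b ≤ f a := by
  have := mono (f := fun t => -f t) (f' := fun t => -f' t) hab (fun t ht => (hd t ht).neg)
    (fun t ht => neg_nonneg.2 (hp t ht))
  linarith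

theorem first {L : ℝ → ℝ} {T : ℝ} (hc : Continuous L) (hb : ∀ᶠ t in atBot, 0 < L t)
    (h : ∃ t ≤ T, L t ≤ 0) : ∃ s ≤ T, L s = 0 ∧ ∀ t < s, 0 < L t := by
  obtain ⟨b, hb⟩ := eventually_atBot.1 hb
  have hcl : IsClosed {t | t ≤ T ∧ L t ≤ 0} :=
    (isClosed_le continuous_id continuous_const).inter (isClosed_le hc continuous_const)
  have hbd : BddBelow {t | t ≤ T ∧ L t ≤ 0} :=
    ⟨b, fun t ht => le_of_not_ge fun h' => absurd (hb t h') (not_lt.2 ht.2)⟩
  have hm := hcl.csInf_mem h hbd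
  have hp : ∀ t < sInf {t | t ≤ T ∧ L t ≤ 0}, 0 < L t := fun t ht =>
    lt_of_not_ge fun h' => notMem_of_lt_csInf ht hbd ⟨ht.le.trans hm.1, h'⟩
  refine ⟨_, hm.1, le_antisymm hm.2 ?_, hp⟩
  exact ge_of_tendsto (hc.continuousAt.tendsto.mono_left (nhdsWithin_le_nhds (s := Iio _)))
    (eventually_nhdsWithin_of_forall fun t ht => (hp t ht).le)

theorem der_le {L : ℝ → ℝ} {s d : ℝ} (hd : HasDerivAt L d s) (h0 : L s = 0)
    (hp : ∀ t < s, 0 < L t) : d ≤ 0 := by
  refine le_of_tendsto (hasDerivAt_iff_tendsto_slope_left_right.1 hd).1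
    (eventually_nhdsWithin_of_forall fun t ht => ?_)
  rw [slope_def_field, h0, sub_zero]
  exact div_nonpos_of_nonneg_of_nonpos (hp t ht).le (sub_nonpos.2 (le_of_lt ht))

/-- The comparison function. -/
def ps (Z : ℝ → ℝ) (t : ℝ) : ℝ := exp (-t) * (Z t - 2)

/-- Its derivative. -/
def ps1 (l : ℝ) (Y Z : ℝ → ℝ) (t : ℝ) : ℝ := exp (-t) * (-(PP Y t - QQ l Y t) - (Z t - 2))

/-- The Wronskian. -/
def Wr (l : ℝ) (Y Z L L1 : ℝ → ℝ) (t : ℝ) : ℝ := L1 t * ps Z t - L t * ps1 l Y Z t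

variable {a l q C δ : ℝ} {Y Z : ℝ → ℝ}

theorem d_exp (t : ℝ) : HasDerivAt (fun t : ℝ => exp (-t)) (-exp (-t)) t := by
  simpa using (hasDerivAt_neg t).exp

theorem d_ps (h : Sol a l q C δ Y Z) (t : ℝ) : HasDerivAt (ps Z) (ps1 l Y Z t) t :=
  ((d_exp t).mul ((h.dZ' t).sub_const 2)).congr_deriv (by unfold ps1; ring)

theorem d_ps1 (h : Sol a l q C δ Y Z) (t : ℝ) :
    HasDerivAt (ps1 l Y Z) ((1 - VV l Y t) * ps Z t) t := by
  have h1 : HasDerivAt (PP Y) (PP Y t * Z t) t := (h.dY t).exp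
  have h2 : HasDerivAt (QQ l Y) (QQ l Y t * (2 * Z t - 2)) t :=
    ((((h.dY t).const_mul 2).sub ((hasDerivAt_id t).const_mul 2)).exp.const_mul l).congr_deriv
      (by unfold QQ; simp only [Pi.sub_apply, id]; ring)
  exact ((d_exp t).mul ((h1.sub h2).neg.sub ((h.dZ' t).sub_const 2))).congr_deriv
    (by unfold ps VV; simp only [Pi.sub_apply, Pi.neg_apply]; ring)

theorem d_Wr (h : Sol a l q C δ Y Z) {L L1 : ℝ → ℝ} {t : ℝ} (h1 : HasDerivAt L (L1 t) t)
    (h2 : HasDerivAt L1 ((4 - VV l Y t) * L t) t) :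
    HasDerivAt (Wr l Y Z L L1) (3 * L t * ps Z t) t :=
  ((h2.mul (d_ps h t)).sub (h1.mul (d_ps1 h t))).congr_deriv (by ring)

theorem z_anti (h : Sol a l q C δ Y Z) {s t : ℝ} (hst : s < t) : Z t < Z s := by
  have := smono (f := fun t => -Z t) (f' := fun t => PP Y t - QQ l Y t) hst
    (fun t _ => (h.dZ' t).neg.congr_deriv (neg_neg _)) (fun t _ => sub_pos.2 (h.bounds t).2.1)
  linarith

theorem wr_le (h : Sol a l q C δ Y Z) {L L1 : ℝ → ℝ} {t k A B : ℝ} (h1 : |L t| ≤ k)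
    (h2 : |L1 t| ≤ k) (hA : PP Y t ≤ A) (hB : |Z t - 2| ≤ B) :
    |Wr l Y Z L L1 t| ≤ k * exp (-t) * (A + 2 * B) := by
  have hb := h.bounds t
  have he := exp_pos (-t)
  have p1 : |ps Z t| ≤ exp (-t) * B := by
    unfold ps
    rw [abs_mul, abs_of_pos he]
    exact mul_le_mul_of_nonneg_left hB he.le
  have p2 : |ps1 l Y Z t| ≤ exp (-t) * (A + B) := by
    unfold ps1
    rw [abs_mul, abs_of_pos he]
    refine mul_le_mul_of_nonneg_left (abs_le.2 ⟨?_, ?_⟩) he.le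
    · linarith [(abs_le.1 hB).2, hb.1]
    · linarith [(abs_le.1 hB).1, hb.1, hb.2.1]
  have hk : 0 ≤ k := (abs_nonneg _).trans h1
  unfold Wr
  refine (abs_sub _ _).trans ?_
  rw [abs_mul, abs_mul]
  have := mul_le_mul h2 p1 (abs_nonneg _) hk
  have := mul_le_mul h1 p2 (abs_nonneg _) hk
  linarith

theorem wr_bot (ha : 2 ≤ a) (h : Sol a l q C δ Y Z) {L L1 : ℝ → ℝ} {T K : ℝ}
    (hK : ∀ t ≤ T, |L t| ≤ K * exp (2 * t) ∧ |L1 t| ≤ K * exp (2 * t)) :
    Tendsto (Wr l Y Z L L1) atBot (𝓝 0) := by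
  have h0 : Tendsto (fun t => K * (1 + 2 * (2 * a)) * exp t) atBot (𝓝 0) := by
    simpa using tendsto_exp_atBot.const_mul (K * (1 + 2 * (2 * a)))
  refine squeeze_zero_norm' ?_ h0
  filter_upwards [eventually_le_atBot T, eventually_le_atBot 0] with t hT ht
  have h1 : exp (2 * a * t) ≤ 1 := exp_le_one_iff.2 (by nlinarith)
  have h2 : PP Y t ≤ 1 := (exp_le_exp.2 (h.up t)).trans h1
  have h3 : |Z t - 2| ≤ 2 * a := by
    have := abs_le.1 (h.zl t)
    exact abs_le.2 ⟨by linarith [this.1], by linarith [this.2]⟩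
  refine (wr_le h (hK t hT).1 (hK t hT).2 h2 h3).trans_eq ?_
  have : exp (2 * t) * exp (-t) = exp t := by rw [← exp_add]; congr 1; ring
  rw [mul_assoc K, this]
  ring

theorem wr_top (h : Sol a l q C δ Y Z) {R R1 : ℝ → ℝ} {T K : ℝ} (hZ : Z T ≤ 2)
    (hK : ∀ t ≥ T, |R t| ≤ K ∧ |R1 t| ≤ K) : Tendsto (Wr l Y Z R R1) atTop (𝓝 0) := by
  have hC : ∀ t, PP Y t ≤ |C| := fun t => (h.bounds t).2.2.1.trans
    ((mul_le_mul_of_nonneg_right (le_abs_self C) (om_pos δ t).le).trans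
      (mul_le_of_le_one_right (abs_nonneg C) (om_le_one h.d0.le t)))
  have h0 : Tendsto (fun t => K * (|C| + 2 * (2 - Z T - |C| * T)) * exp (-t) +
      K * (2 * |C|) * (t ^ 1 * exp (-t))) atTop (𝓝 0) := by
    simpa using (tendsto_exp_neg_atTop_nhds_zero.const_mul
      (K * (|C| + 2 * (2 - Z T - |C| * T)))).add
      ((tendsto_pow_mul_exp_neg_atTop_nhds_zero 1).const_mul (K * (2 * |C|)))
  refine squeeze_zero_norm' ?_ h0
  filter_upwards [eventually_gt_atTop T] with t hT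
  have h1 := z_anti h hT
  have h2 := mono (f := fun t => Z t + |C| * t) (f' := fun t => -(PP Y t - QQ l Y t) + |C| * 1)
    hT.le (fun t _ => (h.dZ' t).add ((hasDerivAt_id t).const_mul _))
    (fun t _ => by linarith [hC t, (h.bounds t).1])
  have h3 : |Z t - 2| ≤ 2 - Z T - |C| * T + |C| * t := by
    rw [abs_of_nonpos (by linarith)]
    linarith
  refine (wr_le h (hK t hT.le).1 (hK t hT.le).2 (hC t) h3).trans_eq ?_
  ring

theorem key (h : Sol a l q C δ Y Z) {L L1 : ℝ → ℝ} {s τ1 tm τ2 : ℝ} (h1 : τ1 < tm) (h2 : tm < τ2)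
    (hz : Z tm = 2) (hV : ∀ t ∈ Icc τ1 τ2, VV l Y t ≤ 0)
    (i1 : PP Y tm - QQ l Y tm < 3 * ((Y tm - 2 * tm) - (Y τ1 - 2 * τ1)))
    (i2 : exp (τ2 - tm) * (PP Y tm - QQ l Y tm) < 3 * ((Y tm - 2 * tm) - (Y τ2 - 2 * τ2)))
    (dL : ∀ t, HasDerivAt L (L1 t) t) (dL1 : ∀ t ≤ s, HasDerivAt L1 ((4 - VV l Y t) * L t) t)
    (hW : Tendsto (Wr l Y Z L L1) atBot (𝓝 0)) (hp : ∀ t < s, 0 < L t) :
    (s ≤ tm → 0 < Wr l Y Z L L1 s) ∧ (tm < s → s ≤ τ2 → 0 < L s) ∧
      (τ2 ≤ s → Wr l Y Z L L1 s < 0) := by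
  have dW : ∀ t ≤ s, HasDerivAt (Wr l Y Z L L1) (3 * L t * ps Z t) t := fun t ht =>
    d_Wr h (dL t) (dL1 t ht)
  have zp : ∀ t < tm, 0 < Z t - 2 := fun t ht => by linarith [z_anti h ht]
  have zn : ∀ t, tm < t → Z t - 2 < 0 := fun t ht => by linarith [z_anti h ht]
  have dU : ∀ t, HasDerivAt (fun t => Y t - 2 * t) (Z t - 2 * 1) t := fun t =>
    (h.dY t).sub ((hasDerivAt_id t).const_mul 2)
  have A : ∀ u ≤ s, u ≤ tm → 0 < Wr l Y Z L L1 u := by
    intro u hu hu'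
    have sm : ∀ x y, x < y → y ≤ u → Wr l Y Z L L1 x < Wr l Y Z L L1 y := fun x y hxy hy =>
      smono hxy (fun t ht => dW t (ht.2.trans (hy.trans hu))) fun t ht =>
        mul_pos (mul_pos three_pos (hp t (ht.2.trans_le (hy.trans hu))))
          (mul_pos (exp_pos _) (zp t (ht.2.trans_le (hy.trans hu'))))
    refine lt_of_le_of_lt (le_of_tendsto hW ?_) (sm (u - 1) u (by linarith) le_rfl)
    filter_upwards [eventually_lt_atBot (u - 1)] with t ht
    exact (sm t (u - 1) ht (by linarith)).le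
  have Wm : Wr l Y Z L L1 tm = L tm * exp (-tm) * (PP Y tm - QQ l Y tm) := by
    unfold Wr ps ps1
    rw [hz]
    ring
  have B : tm < s → 0 ≤ L1 tm := by
    intro hs
    by_contra hneg
    have hneg := not_le.1 hneg
    have b1 : ∀ t ∈ Icc τ1 tm, L1 t ≤ L1 tm := fun t ht =>
      mono ht.2 (fun x hx => dL1 x (hx.2.trans hs.le)) fun x hx =>
        mul_nonneg (by linarith [hV x ⟨ht.1.trans hx.1.le, (hx.2.trans h2).le⟩])
          (hp x (hx.2.trans hs)).le
    have b2 : ∀ t ∈ Icc τ1 tm, L tm ≤ L t := fun t ht =>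
      anti ht.2 (fun x _ => dL x) fun x hx =>
        (b1 x ⟨ht.1.trans hx.1.le, hx.2.le⟩).trans hneg.le
    have b3 := mono (f := fun t => Wr l Y Z L L1 t - 3 * (L tm * exp (-tm)) * (Y t - 2 * t))
      (f' := fun t => 3 * L t * ps Z t - 3 * (L tm * exp (-tm)) * (Z t - 2 * 1)) h1.le
      (fun x hx => (dW x (hx.2.trans hs.le)).sub ((dU x).const_mul _)) fun x hx => by
        have e1 : L tm * exp (-tm) ≤ L x * exp (-x) :=
          mul_le_mul (b2 x (Ioo_subset_Icc_self hx)) (exp_le_exp.2 (by linarith [hx.2]))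
            (exp_pos _).le (hp x (hx.2.trans hs)).le
        have := mul_nonneg (sub_nonneg.2 e1) (zp x hx.2).le
        unfold ps
        linarith
    have b4 := A τ1 (h1.trans hs).le h1.le
    have b5 := mul_lt_mul_of_pos_left i1 (mul_pos (hp tm hs) (exp_pos (-tm)))
    rw [Wm] at b3
    linarith
  have D : tm < s → ∀ t ∈ Icc tm s, t ≤ τ2 → L tm ≤ L t := by
    intro hs t ht ht2
    refine mono ht.1 (fun x _ => dL x) fun x hx => (B hs).trans ?_
    exact mono hx.1.le (fun y hy => dL1 y ((hy.2.trans hx.2.le).trans ht.2)) fun y hy =>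
      mul_nonneg (by linarith [hV y ⟨(h1.trans hy.1).le, (hy.2.trans hx.2).le.trans ht2⟩])
        (hp y ((hy.2.trans hx.2).trans_le ht.2)).le
  refine ⟨A s le_rfl, fun hs hs2 => (hp tm hs).trans_le (D hs s ⟨hs.le, le_rfl⟩ hs2), fun hs2 => ?_⟩
  have hs : tm < s := h2.trans_le hs2
  have c1 := anti (f := fun t => Wr l Y Z L L1 t - 3 * (L tm * exp (-τ2)) * (Y t - 2 * t))
    (f' := fun t => 3 * L t * ps Z t - 3 * (L tm * exp (-τ2)) * (Z t - 2 * 1)) h2.le
    (fun x hx => (dW x (hx.2.trans hs2)).sub ((dU x).const_mul _)) fun x hx => by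
      have e1 : L tm * exp (-τ2) ≤ L x * exp (-x) :=
        mul_le_mul (D hs x ⟨hx.1.le, hx.2.le.trans hs2⟩ hx.2.le)
          (exp_le_exp.2 (by linarith [hx.2])) (exp_pos _).le (hp x (hx.2.trans_le hs2)).le
      have := mul_nonneg (sub_nonneg.2 e1) (neg_nonneg.2 (zn x hx.1).le)
      unfold ps
      linarith
  have c2 := mul_lt_mul_of_pos_left i2 (mul_pos (hp tm hs) (exp_pos (-τ2)))
  have c3 : exp (-τ2) * exp (τ2 - tm) = exp (-tm) := by rw [← exp_add]; congr 1; ring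
  rw [← mul_assoc, mul_assoc (L tm), c3] at c2
  have c4 := anti hs2 (fun x hx => dW x hx.2) fun x hx =>
    mul_nonpos_of_nonneg_of_nonpos (mul_pos three_pos (hp x hx.2)).le
      (mul_nonpos_of_nonneg_of_nonpos (exp_pos _).le (zn x (h2.trans hx.1)).le)
  rw [Wm] at c1
  linarith

end F1A

open F1A in
theorem f1 : SHalf → SF1 := by
  intro half a l q C δ T j τ2 Y Z φ ha h ⟨τ1, tm, h1, h2, hz, hV, i1, i2⟩ hT hV1
    ⟨L, L1, R, R1, K, eL, eR, dL, dL1, dR, dR1, hj, hKL, hb, hKR⟩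
  have dL1' : ∀ t ≤ T, HasDerivAt L1 ((4 - VV l Y t) * L t) t := fun t ht =>
    (dL1 t).congr_deriv (by rw [eL t ht]; ring)
  have dR1' : ∀ t ≥ T, HasDerivAt R1 ((4 - VV l Y t) * R t) t := fun t ht =>
    (dR1 t).congr_deriv (by rw [eR t ht]; ring)
  have hW := wr_bot ha h hKL
  have zn : ∀ t, tm < t → ps Z t < 0 := fun t ht =>
    mul_neg_of_pos_of_neg (exp_pos _) (by linarith [z_anti h ht])
  have hL : ∀ t ≤ T, 0 < L t := by
    by_contra hn
    simp only [not_forall, not_lt, exists_prop] at hn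
    obtain ⟨s, hs, h0, hp⟩ :=
      first (continuous_iff_continuousAt.2 fun t => (dL t).continuousAt) hb hn
    have hd := der_le (dL s) h0 hp
    obtain ⟨k1, k2, k3⟩ := key h h1 h2 hz hV i1 i2 dL (fun t ht => dL1' t (ht.trans hs)) hW hp
    have e : Wr l Y Z L L1 s = L1 s * ps Z s := by
      unfold Wr
      rw [h0, zero_mul, sub_zero]
    rw [e] at k1 k3
    rcases le_or_gt s tm with c | c
    · have : 0 ≤ ps Z s := by
        refine mul_nonneg (exp_pos _).le ?_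
        rcases c.eq_or_lt with rfl | c'
        · linarith
        · linarith [z_anti h c']
      exact absurd (k1 c) (not_lt.2 (mul_nonpos_of_nonpos_of_nonneg hd this))
    rcases le_total s τ2 with c' | c'
    · exact absurd h0 (k2 c c').ne'
    · exact absurd (k3 c') (not_lt.2 (mul_nonneg_of_nonpos_of_nonpos hd (zn s c).le))
  have hWT := (key h h1 h2 hz hV i1 i2 dL dL1' hW fun t ht => hL t ht.le).2.2 hT
  have eT : R T = L T := (eR T le_rfl).symm.trans (eL T le_rfl)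
  have hR := half R R1 (fun t => 4 - VV l Y t) T K (fun t _ => dR t) dR1'
    (fun t ht => by linarith [hV1 t ht]) (fun t ht => (abs_le.1 (hKR t ht).1).1)
    (by rw [eT]; exact (hL T le_rfl).le)
  have hm : tm < T := h2.trans_le hT
  have hWR : 0 ≤ Wr l Y Z R R1 T := by
    refine le_of_tendsto (wr_top h (by linarith [z_anti h hm]) hKR) ?_
    filter_upwards [eventually_ge_atTop T] with t ht
    exact anti ht (fun x hx => d_Wr h (dR x) (dR1' x hx.1)) fun x hx =>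
      mul_nonpos_of_nonneg_of_nonpos (mul_nonneg three_pos.le (hR x hx.1.le))
        (zn x (hm.trans hx.1)).le
  refine ⟨fun t => ?_, ?_⟩
  · rcases le_total t T with c | c
    · rw [eL t c]
      exact (hL t c).le
    · rw [eR t c]
      exact hR t c
  · have e : Wr l Y Z L L1 T - Wr l Y Z R R1 T = 4 * j * ps Z T := by
      unfold Wr
      rw [eT, ← hj]
      ring
    have := zn T hm
    nlinarith

end Pool.Agent.MP_ad2fa1_an.H64
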