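import Pool.Agent.MP_ad2fa1_an.H64.Spec

/-!
From the cylinder back to the plane.
-/

set_option autoImplicit false
set_option linter.unusedVariables false

noncomputable section

namespace Pool.Agent.MP_ad2fa1_an.H64

open Real Set Filter Topology MeasureTheory Function
open scoped ContDiff
open Pool.Agent.MP_6b3e96_gt.H77 (lap Test d1 d2)
open Pool.Agent.MP_ad2fa1_an.H33 (IsSol Hyp zeta)

namespace FinA

theorem fd_shift {v : ℂ → ℝ} (hv : Differentiable ℝ v) (s : ℂ) (a b : ℝ) (z w : ℂ) :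
    fderiv ℝ (fun z => v (z + s) + a * z.re + b) z w = fderiv ℝ v (z + s) w + a * w.re := by
  have h1 : HasFDerivAt (fun z => v (z + s)) (fderiv ℝ v (z + s)) z :=
    (hasFDerivAt_comp_add_right s).2 (hv (z + s)).hasFDerivAt
  have h2 : HasFDerivAt (fun z : ℂ => a * z.re) (a • Complex.reCLM) z :=
    Complex.reCLM.hasFDerivAt.const_mul a
  rw [((h1.fun_add h2).add_const b).fderiv]
  simp

theorem dd_shift {v : ℂ → ℝ} (hv : ContDiff ℝ ∞ v) (s : ℂ) (a b : ℝ) (z w : ℂ) :
    fderiv ℝ (fun z => fderiv ℝ (fun z => v (z + s) + a * z.re + b) z w) z w =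
      fderiv ℝ (fun z => fderiv ℝ v z w) (z + s) w := by
  have hd : Differentiable ℝ v := hv.differentiable (by simp)
  have h2 : Differentiable ℝ fun z => fderiv ℝ v z w :=
    ((hv.fderiv_right (m := 1) (by norm_cast)).differentiable (by simp)).clm_apply
      (differentiable_const w)
  have e : (fun z => fderiv ℝ (fun z => v (z + s) + a * z.re + b) z w) =
      fun z => (fun z => fderiv ℝ v z w) (z + s) + 0 * z.re + a * w.re := by
    funext z; rw [fd_shift hd]; ring
  rw [e, fd_shift h2]; ring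

theorem lap_shift {v : ℂ → ℝ} (hv : ContDiff ℝ ∞ v) (s : ℂ) (a b : ℝ) (z : ℂ) :
    lap (fun z => v (z + s) + a * z.re + b) z = lap v (z + s) := by
  unfold lap d1 d2
  rw [dd_shift hv, dd_shift hv]

theorem per_log {U : ℂ → ℝ} (hU : ∀ z, U (z + 2 * π * Complex.I) = U z) (w : ℂ) :
    U (Complex.log (Complex.exp w)) = U w := by
  obtain ⟨n, hn⟩ := Complex.exp_eq_exp_iff_exists_int.1
    (Complex.exp_log (Complex.exp_ne_zero w))
  have hp : Periodic U (2 * π * Complex.I) := hU
  rw [hn]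
  exact hp.int_mul n w

theorem isSol_congr {N c : ℝ} {q q' : ℝ → ℝ} {u : EuclideanSpace ℝ (Fin 2) → ℝ}
    (h : IsSol N (fun _ => c) q u) (hq : ∀ x, x ≠ 0 → q (exp (u x)) = q' (exp (u x))) :
    IsSol N (fun _ => c) q' u := by
  obtain ⟨h1, h2, h3, h4⟩ := h
  have hne : ∀ᵐ x : EuclideanSpace ℝ (Fin 2), x ≠ 0 := by
    have : ({0}ᶜ : Set (EuclideanSpace ℝ (Fin 2))) ∈ ae volume :=
      compl_mem_ae_iff.mpr (measure_singleton _)
    filter_upwards [this] with x hx using hx
  refine ⟨h1, h2, fun x => ?_, fun φ hφ hc => ?_⟩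
  · obtain ⟨s, hs, hi⟩ := h3 x
    refine ⟨s, hs, hi.congr_fun_ae (ae_restrict_of_ae ?_)⟩
    filter_upwards [hne] with y hy
    rw [hq y hy]
  · rw [← h4 φ hφ hc]
    congr 1
    refine integral_congr_ae ?_
    filter_upwards [hne] with y hy
    rw [hq y hy]

end FinA

open FinA

theorem fin : SPull → STrans → SHyp → SFin := by
  intro hP hT hH N c l v hN hc hl hv
  obtain ⟨hs, hlap, hper, hlim, hneg, z1, z2, hre, hne⟩ := hv
  obtain ⟨s, hsd⟩ : ∃ s : ℝ, exp (2 * s) = c * l :=
    ⟨log (c * l) / 2, by rw [mul_div_cancel₀ _ two_ne_zero, exp_log (mul_pos hc hl)]⟩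
  obtain ⟨U, hU⟩ : ∃ U : ℂ → ℝ, U = fun z => v (z + s) + (-2) * z.re + (log l - 2 * s) := ⟨_, rfl⟩
  have hUz : ∀ z, U z = v (z + s) - 2 * (z + s : ℂ).re + log l := fun z => by
    rw [hU]; simp only [Complex.add_re, Complex.ofReal_re]; ring
  have hUs : ContDiff ℝ ∞ U := by
    rw [hU]
    exact ((hs.comp (contDiff_id.add contDiff_const)).add
      (contDiff_const.mul Complex.reCLM.contDiff)).add contDiff_const
  have hUp : ∀ z, U (z + 2 * π * Complex.I) = U z := fun z => by
    rw [hUz, hUz, add_right_comm, hper]; simp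
  have hUl : ∀ z, lap U z = -(c * exp (2 * z.re) * (exp (U z) * (1 - exp (U z)))) := fun z => by
    have e1 : lap U z = lap v (z + s) := by rw [hU]; exact lap_shift hs _ _ _ z
    have e2 : exp (U z) = exp (v (z + s)) * l * (exp (2 * z.re))⁻¹ * (c * l)⁻¹ := by
      rw [hUz, ← hsd, exp_add, exp_log hl, exp_sub, Complex.add_re, Complex.ofReal_re, mul_add,
        exp_add]
      field_simp
    have e3 : exp (2 * v (z + s) - 2 * (z + s : ℂ).re) =
        exp (v (z + s)) ^ 2 * (exp (2 * z.re))⁻¹ * (c * l)⁻¹ := by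
      rw [← hsd, exp_sub, Complex.add_re, Complex.ofReal_re, mul_add, exp_add, two_mul (v _),
        exp_add]
      field_simp
    rw [e1, hlap, e3, e2]
    have := exp_ne_zero (2 * z.re)
    field_simp
  obtain ⟨hu1, hu2⟩ := hP U hUs hUp
  have hun : ∀ z, U z < 0 := fun z => by rw [hUz]; exact hneg _
  classical
  obtain ⟨B, hB⟩ : ∃ B : ℂ → ℝ, B = update (fun z => U (Complex.log z) - 2 * N * log ‖z‖) 0
      (2 * N * s + log l) := ⟨_, rfl⟩
  have hBz : ∀ z ≠ 0, B z = U (Complex.log z) - 2 * N * log ‖z‖ := fun z hz => by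
    rw [hB, update_of_ne hz]
  have hBc : Continuous B := by
    rw [hB, continuous_iff_continuousAt]
    intro z
    by_cases hz : z = 0
    · subst hz
      rw [continuousAt_update_same, Metric.tendsto_nhdsWithin_nhds]
      intro η hη
      obtain ⟨T, hTz⟩ := hlim (η / 2) (half_pos hη)
      refine ⟨exp (T - s), exp_pos _, fun x hx hd => ?_⟩
      have hx0 : 0 < ‖x‖ := norm_pos_iff.2 hx
      rw [dist_zero_right] at hd
      have h1 : log ‖x‖ < T - s := (log_lt_iff_lt_exp hx0).2 hd
      have h2 := hTz (Complex.log x + s) (by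
        rw [Complex.add_re, Complex.ofReal_re, Complex.log_re]; linarith)
      rw [Real.dist_eq, hUz]
      rw [Complex.add_re, Complex.ofReal_re, Complex.log_re] at h2 ⊢
      refine lt_of_eq_of_lt (congrArg _ ?_) (h2.trans_lt (half_lt_self hη))
      ring
    · rw [continuousAt_update_of_ne hz]
      exact (hu1.continuousOn.continuousAt (isOpen_compl_singleton.mem_nhds hz)).sub
        (continuousAt_const.mul (continuous_norm.continuousAt.log (norm_ne_zero_iff.2 hz)))
  have hS := hT N c (fun z => U (Complex.log z)) B hN hBc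
    (fun z hz => by rw [hBz z hz]; ring) hu1 (fun z hz => by
      have hz0 : 0 < ‖z‖ := norm_pos_iff.2 hz
      rw [hu2 z hz, hUl, Complex.log_re, two_mul, exp_add, exp_log hz0]
      field_simp)
  obtain ⟨q, hq, hHq⟩ := hH c hc
  refine ⟨_, hS, fun x _ => hun _, ⟨zeta.symm (Complex.exp (z1 - s)),
    zeta.symm (Complex.exp (z2 - s)), ?_, ?_, ?_⟩, q, hq, hHq,
    isSol_congr hS fun x _ => (hq _ (exp_pos _) (exp_le_one_iff.2 (hun _).le)).symm⟩
  · exact fun h => Complex.exp_ne_zero _ ((map_eq_zero_iff _ zeta.symm.injective).1 h)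
  · rw [zeta.symm.norm_map, zeta.symm.norm_map, Complex.norm_exp, Complex.norm_exp,
      Complex.sub_re, Complex.sub_re, hre]
  · simp only [LinearIsometryEquiv.apply_symm_apply]
    rw [per_log hUp, per_log hUp, hUz, hUz, sub_add_cancel, sub_add_cancel, hre]
    exact fun h => hne (by linarith)

end Pool.Agent.MP_ad2fa1_an.H64
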