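import Pool.Agent.MP_ad2fa1_an.H64.FixB

/-!
The bifurcation step.
-/

set_option autoImplicit false

noncomputable section

namespace Pool.Agent.MP_ad2fa1_an.H64

open Real Set Filter Topology MeasureTheory BoundedContinuousFunction Function FixA

namespace FixA

theorem unit_high (un : SUnit) {A : Type} [NormedAddCommGroup A] [NormedSpace ℝ A]
    [CompleteSpace A] {V Ψ : ℝ → ℝ} {M c D θ : ℝ} (hV : Continuous V) (hM : ∀ t, |V t| ≤ M)
    (hΨ : Continuous Ψ) (hc : 0 < c) (h0 : 0 ≤ θ) (h1 : θ < 1) (hb : ∀ t, c ≤ Ψ t ∧ Ψ t ≤ D)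
    (h : ∀ t, ∫ τ, G (kap M 2) (t - τ) * ((V τ + M) * Ψ τ) ≤ θ * Ψ t)
    (S : (ℝ →ᵇ A) →L[ℝ] ℝ →ᵇ A) (y : (ℝ →ᵇ A) → ℝ → ℝ) (hy : ∀ x τ, 0 ≤ y x τ)
    (hy' : ∀ x τ, y x τ ≤ (V τ + M) * ‖x τ‖)
    (hS : ∀ x t, ‖S x t‖ ≤ ∫ τ, G (kap M 2) (t - τ) * y x τ) : IsUnit (1 - S) := by
  have hM0 : 0 ≤ M := (abs_nonneg _).trans (hM 0)
  have hk := kap_pos hM0 (n := 2) two_ne_zero
  have hp : ∀ t, 0 ≤ V t + M := fun t => by linarith [(abs_le.1 (hM t)).1]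
  refine un A S Ψ c D θ hc h0 h1 hb fun x s hs hx t => (hS x t).trans ?_
  have hi := G_mul_int (K := 2 * M * D) (f := fun τ => (V τ + M) * Ψ τ) hk (by fun_prop)
    (fun τ => by
      rw [abs_of_nonneg (mul_nonneg (hp τ) (hc.le.trans (hb τ).1))]
      exact mul_le_mul (by linarith [(abs_le.1 (hM τ)).2]) (hb τ).2 (hc.le.trans (hb τ).1)
        (by positivity)) t
  calc _ ≤ ∫ τ, s * (G (kap M 2) (t - τ) * ((V τ + M) * Ψ τ)) := by
        refine integral_mono_of_nonneg (.of_forall fun τ => mul_nonneg (G_pos hk _).le (hy x τ))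
          (hi.const_mul s) (.of_forall fun τ => ?_)
        calc _ ≤ G (kap M 2) (t - τ) * ((V τ + M) * (s * Ψ τ)) :=
              mul_le_mul_of_nonneg_left ((hy' x τ).trans
                (mul_le_mul_of_nonneg_left (hx τ) (hp τ))) (G_pos hk _).le
          _ = _ := by ring
    _ ≤ s * (θ * Ψ t) := by rw [integral_const_mul]; exact mul_le_mul_of_nonneg_left (h t) hs
    _ = _ := by ring

theorem inv_cont {X : Type} [NormedAddCommGroup X] [NormedSpace ℝ X] [CompleteSpace X]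
    {T : ℝ → X →L[ℝ] X} {I : Set ℝ} (hT : ContinuousOn T I) (hu : ∀ l ∈ I, IsUnit (1 - T l))
    (e : X) : ∃ φ : ℝ → X, ContinuousOn φ I ∧ ∀ l ∈ I, φ l = e + T l (φ l) := by
  refine ⟨fun l => Ring.inverse (1 - T l) e, ContinuousOn.clm_apply (fun l hl => ?_)
    continuousOn_const, fun l hl => ?_⟩
  · obtain ⟨u, hu⟩ := hu l hl
    exact ContinuousAt.comp_continuousWithinAt (f := fun l => 1 - T l)
      (hu ▸ NormedRing.inverse_continuousAt u) (continuousWithinAt_const.sub (hT l hl))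
  · have := congrArg (fun S : X →L[ℝ] X => S e) (Ring.mul_inverse_cancel _ (hu l hl))
    exact eq_add_of_sub_eq this

end FixA

theorem fix (r1 : SRad1) (r2 : SRad2) (r3 : SRad3) (hG : SGreen) (hV : SVolt) (hD : SDecay)
    (gl : SGl) (mp : SMp) (sup : SSup) (f0 : SF0) (f1 : SF1) (un : SUnit) (bc : SBc) (u0 : SU0)
    (u1 : SU1) (nl : SNl) (sel : SSel) (rem : SRem) (ops : SOps) : SFix := by
  intro A _ _ _ W a ha
  obtain ⟨Y, Z, cY, cZ, hR⟩ := r1 a (by linarith)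
  obtain ⟨τ0, h2⟩ := r2 a Y Z ha.le cY cZ hR
  obtain ⟨η, hη, h3⟩ := r3 a τ0 ha.le
  obtain ⟨Λ, q, C, δ, hΛ, hΛ3, hS, h4, h5⟩ := h2 η hη
  have iΛ : Λ ∈ Icc 0 Λ := ⟨hΛ.le, le_rfl⟩
  have i0 : (0 : ℝ) ∈ Icc 0 Λ := ⟨le_rfl, hΛ.le⟩
  obtain ⟨τ2, hT⟩ := h3 Λ q C δ _ _ (hS Λ iΛ) hΛ3 h4 h5
  have hδ := (hS Λ iΛ).d0
  have hδ2 := half_pos hδ
  have hC : 0 ≤ C := nonneg_of_mul_nonneg_left ((exp_pos _).le.trans ((hS Λ iΛ).dec 0)) (om_pos δ 0)
  have hVb := fun l hl t => ((hS l hl).bounds t).2.2.2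
  have hVe : ∀ l ∈ Icc 0 Λ, ∀ t, |VV l (Y l) t| ≤ C * exp (-δ * |t|) := fun l hl t =>
    (hVb l hl t).trans (mul_le_mul_of_nonneg_left (om_le δ t) hC)
  have hVC : ∀ l ∈ Icc 0 Λ, ∀ t, |VV l (Y l) t| ≤ C := fun l hl t =>
    (hVb l hl t).trans (mul_le_of_le_one_right hC (om_le_one hδ.le t))
  obtain ⟨T, hT0, hT2, hT1⟩ : ∃ T, 0 ≤ T ∧ τ2 ≤ T ∧
      ∀ l ∈ Icc 0 Λ, ∀ t, T ≤ |t| → |VV l (Y l) t| ≤ 1 := by
    have := ((tendsto_exp_neg_atTop_nhds_zero.comp (tendsto_id.const_mul_atTop hδ)).const_mul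
      C).eventually (ge_mem_nhds (by simp : C * 0 < 1))
    obtain ⟨T0, h⟩ := eventually_atTop.1 this
    exact ⟨max (max T0 τ2) 0, le_max_right _ _, le_max_of_le_left (le_max_right _ _),
      fun l hl t ht => (hVe l hl t).trans (by
        simpa using h _ ((le_max_of_le_left (le_max_left _ _)).trans ht))⟩
  obtain ⟨k0, k1, m1, kh, ek0, ek1, em1, ekh, nkh⟩ := ops A W (δ / 2) T C hδ2 hC
  have cY' : Continuous fun p : ℝ × ℝ => Y p.1 p.2 := cY
  have cP : Continuous fun p : ℝ × ℝ => PP (Y p.1) p.2 := by unfold PP; fun_prop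
  have cQ : Continuous fun p : ℝ × ℝ => QQ p.1 (Y p.1) p.2 := by unfold QQ; fun_prop
  have cV : Continuous fun p : ℝ × ℝ => VV p.1 (Y p.1) p.2 := by unfold VV; fun_prop
  have hdiv : ∀ l ∈ Icc 0 Λ, ∀ t, |VV l (Y l) t / om (δ / 2) t| ≤ C * exp (-(δ / 2) * |t|) :=
    fun l hl t => by
      rw [abs_div, abs_of_pos (om_pos _ t), div_le_iff₀ (om_pos _ t), mul_assoc, ← om_half]
      exact hVb l hl t
  have cD : Continuous fun p : ℝ × ℝ => VV p.1 (Y p.1) p.2 / om (δ / 2) p.2 :=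
    cV.div (by fun_prop) fun p => (om_pos _ _).ne'
  obtain ⟨v0, c0, ev0⟩ := bc ℝ (fun l t => VV l (Y l) t / om (δ / 2) t * rho t) _ 0 Λ
    (cD.mul (rho_cont.comp continuous_snd)) (tend_exp hδ2 C) fun l hl t => by
      rw [Real.norm_eq_abs, abs_mul, abs_of_pos (rho_pos t), ← mul_assoc]
      exact mul_le_mul_of_nonneg_right (hdiv l hl t) (rho_pos t).le
  obtain ⟨v1, c1, ev1⟩ := bc ℝ (fun l t => VV l (Y l) t / om (δ / 2) t) _ 0 Λ cD (tend_exp hδ2 C)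
    fun l hl t => (hdiv l hl t).trans (mul_le_mul_of_nonneg_left
      (le_mul_of_one_le_right (exp_pos _).le (one_le_rho t)) hC)
  obtain ⟨vb, cb, evb⟩ := bc ℝ (fun l t => VV l (Y l) t) _ 0 Λ cV (tend_exp hδ C)
    fun l hl t => (hVe l hl t).trans (mul_le_mul_of_nonneg_left
      (le_mul_of_one_le_right (exp_pos _).le (one_le_rho t)) hC)
  have q0 : ∀ l ∈ Icc 0 Λ, ∀ t x, om (δ / 2) t * (v0 l t * x) = VV l (Y l) t * (rho t * x) :=
    fun l hl t x => by rw [ev0 l hl]; field_simp [(om_pos (δ / 2) t).ne']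
  have q1 : ∀ l ∈ Icc 0 Λ, ∀ t x, om (δ / 2) t * (v1 l t * x) = VV l (Y l) t * x :=
    fun l hl t x => by rw [ev1 l hl]; field_simp [(om_pos (δ / 2) t).ne']
  let prB := W.pr.compLeftContinuousBounded ℝ
  let T0 := fun l => k0 ∘L mulB ℝ (v0 l)
  let T1 := fun l => k1 ∘L mulB ℝ (v1 l)
  let L1 := fun l => m1 ∘L mulB ℝ (v1 l)
  let Th := fun l => kh ∘L mulB A (vb l + .const ℝ C) ∘L prB
  have cT0 : ContinuousOn T0 (Icc 0 Λ) :=
    continuousOn_const.clm_comp ((mulB ℝ).continuous.comp_continuousOn c0)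
  have cT1 : ContinuousOn T1 (Icc 0 Λ) :=
    continuousOn_const.clm_comp ((mulB ℝ).continuous.comp_continuousOn c1)
  have cL1 : ContinuousOn L1 (Icc 0 Λ) :=
    continuousOn_const.clm_comp ((mulB ℝ).continuous.comp_continuousOn c1)
  have cTh : ContinuousOn Th (Icc 0 Λ) := continuousOn_const.clm_comp
    (((mulB A).continuous.comp_continuousOn (cb.add continuousOn_const)).clm_comp
      continuousOn_const)
  have uT0 : ∀ l ∈ Icc 0 Λ, IsUnit (1 - T0 l) := fun l hl => u0 _ C δ _ (hS l hl).pot fun x t => by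
    simp only [T0, ContinuousLinearMap.comp_apply, ek0, mulB_apply, smul_eq_mul, q0 l hl]
  have uT1 : ∀ l ∈ Icc 0 Λ, IsUnit (1 - T1 l) := fun l hl => u1 _ C δ T _ (hS l hl).pot
    (fun τ h => hT1 l hl τ (h.le.trans (le_abs_self τ))) fun x t => by
      simp only [T1, ContinuousLinearMap.comp_apply, ek1, mulB_apply, smul_eq_mul, q1 l hl]
  let e1 := mkB (eT T) (eT_cont T) fun t => by rw [abs_of_pos (eT_pos T t)]; exact eT_le T t
  obtain ⟨φ, cφ, eφ⟩ := inv_cont cT1 uT1 e1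
  let j := fun l => 1 - L1 l (φ l)
  have cj : ContinuousOn j (Icc 0 Λ) := continuousOn_const.sub (cL1.clm_apply cφ)
  have hgl : ∀ l ∈ Icc 0 Λ, Glued (VV l (Y l)) T (j l) (φ l) := fun l hl => by
    have hj : j l = 1 - ∫ τ, exp (-2 * (τ - T)) / 4 * (VV l (Y l) τ * φ l τ) := by
      simp only [j, L1, ContinuousLinearMap.comp_apply, em1, mulB_apply, smul_eq_mul, q1 l hl]
    refine ⟨hj, fun t => ?_⟩
    have := DFunLike.congr_fun (eφ l hl) t
    simp only [T1, ContinuousLinearMap.comp_apply, BoundedContinuousFunction.add_apply] at this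
    rw [ek1, K1_split hδ2] at this
    simp only [mulB_apply, smul_eq_mul, q1 l hl, e1, mkB_apply] at this
    rw [this, hj]; ring
  have htw := fun l hl => gl _ C δ T _ _ (hS l hl).pot (hgl l hl)
  have hsup := fun l hl => sup _ C δ T _ C _ (hS l hl).pot (hgl l hl) (hVC l hl)
  obtain ⟨top1, top2⟩ := f1 a Λ q C δ T _ τ2 _ _ _ ha.le (hS Λ iΛ) hT hT2
    (fun t h => (le_abs_self _).trans (hT1 Λ iΛ t (h.le.trans (le_abs_self t)))) (htw Λ iΛ)
  obtain ⟨l0, hl0, hj0, hU⟩ := sel Λ T φ j {l | IsUnit (1 - Th l)} hΛ cφ cj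
    (fun l hl h => (continuousWithinAt_const.sub (cTh l hl)).eventually (Units.isOpen.mem_nhds h))
    (fun l hl a b => by
      obtain ⟨p, Ψ, c, D, θ, s1, s2, s3, s4, s5, s6⟩ := hsup l hl a b
      refine ⟨unit_high un (hS l hl).pot.2.1 (hVC l hl) s1 s2 s3 s4 s5 s6 _ _
        (fun x τ => norm_nonneg _) (fun x τ => ?_) fun x t => nkh _ t, p⟩
      have : 0 ≤ VV l (Y l) τ + C := by linarith [(abs_le.1 (hVC l hl τ)).1]
      change ‖(vb l τ + C) • W.pr (x τ)‖ ≤ _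
      rw [norm_smul, evb l hl, Real.norm_of_nonneg this]
      exact mul_le_mul_of_nonneg_left (W.norm_pr _) this)
    (fun l hl => mp _ _ T _ hT0 (htw l hl) fun t h => (le_abs_self _).trans (hT1 l hl t h))
    top1 top2.le fun h => lt_of_not_ge fun h' =>
      (f0 a q C δ T _ _ _ _ ha (hS 0 i0) (htw 0 i0) (hsup 0 i0 h h').1).not_ge h'
  have hlt : l0 < Λ := lt_of_le_of_ne hl0.2 (by rintro rfl; exact lt_asymm hj0 top2)
  obtain ⟨l1, hj1, hl1⟩ : ∃ l1, j l1 < 0 ∧ l1 ∈ Ioc l0 Λ := by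
    have sub : Ioc l0 Λ ⊆ Icc 0 Λ := fun x hx => ⟨hl0.1.trans hx.1.le, hx.2⟩
    have := left_nhdsWithin_Ioc_neBot hlt
    exact ((((cj l0 hl0).mono sub).eventually (gt_mem_nhds hj0)).and self_mem_nhdsWithin).exists
  have sub : Icc l1 Λ ⊆ Icc 0 Λ := Icc_subset_Icc_left (hl0.1.trans hl1.1.le)
  obtain ⟨R, r0, C', hr0, R0, RL, Rc, eR⟩ := rem A (fun l => PP (Y l)) (fun l => QQ l (Y l)) 0 Λ C δ
    hδ cP cQ fun l hl τ => by
      obtain ⟨b1, b2, b3, -⟩ := (hS l hl).bounds τ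
      exact ⟨by rwa [abs_of_nonneg (b1.trans b2.le)], by rw [abs_of_nonneg b1]; linarith⟩
  let ir := mkB (fun t => (rho t)⁻¹) (rho_cont.inv₀ fun t => (rho_pos t).ne') fun t => by
    rw [abs_of_pos (inv_pos.2 (rho_pos t))]; exact inv_le_one_of_one_le₀ (one_le_rho t)
  let oB := mkB (om (δ / 2)) (om_cont _) fun t => by
    rw [abs_of_pos (om_pos _ t)]; exact om_le_one hδ2.le t
  let Wm : (ℝ →ᵇ ℝ) × (ℝ →ᵇ ℝ) × (ℝ →ᵇ A) →L[ℝ] ℝ →ᵇ A :=
    (ContinuousLinearMap.toSpanSingleton ℝ (1 : A)).compLeftContinuousBounded ℝ ∘L .fst ℝ _ _ +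
    mulB A ir ∘L ((ContinuousLinearMap.toSpanSingleton ℝ (W.d 1 + W.d (-1))).compLeftContinuousBounded
      ℝ ∘L .fst ℝ _ _ ∘L .snd ℝ _ _ + prB ∘L .snd ℝ _ _ ∘L .snd ℝ _ _)
  have eW : ∀ x t, rho t • Wm x t =
      (rho t * x.1 t) • (1 : A) + x.2.1 t • (W.d 1 + W.d (-1)) + W.pr (x.2.2 t) := fun x t => by
    change rho t • (x.1 t • (1 : A) + (rho t)⁻¹ • (x.2.1 t • (W.d 1 + W.d (-1)) + W.pr (x.2.2 t))) = _
    rw [smul_add, smul_inv_smul₀ (rho_pos t).ne', mul_smul, add_assoc]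
  have nW : ∀ x, ‖Wm x‖ ≤ (‖Wm‖ + 1) * ‖x‖ := fun x =>
    (Wm.le_opNorm x).trans (by gcongr; linarith)
  have hw0 : 0 < ‖Wm‖ + 1 := by positivity
  have nW' : ∀ x, ‖x‖ ≤ r0 / (‖Wm‖ + 1) → ‖Wm x‖ ≤ r0 := fun x hx =>
    (nW x).trans (by rwa [le_div_iff₀' hw0] at hx)
  obtain ⟨c, hc, hlog⟩ := neg_const (B := Λ * C) (hS Λ iΛ).q1 hδ
  let cB := fun n => (W.c n).compLeftContinuousBounded ℝ
  obtain ⟨ε, hε, l, hl, x, x1, x2, x3, x4⟩ := nl _ _ l1 Λ (r0 / (‖Wm‖ + 1))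
    (|C'| * (‖Wm‖ + 1) ^ 2) (fun l => (T0 l).prodMap ((T1 l).prodMap (Th l)))
    (fun l => L1 l ∘L .fst ℝ _ _ ∘L .snd ℝ _ _)
    ((k0 ∘L cB 0).prod ((k1 ∘L cB 1).prod (kh ∘L mulB A oB))) (m1 ∘L cB 1)
    (fun l x => R l (Wm x)) (0, e1, 0) (fun l => (0, φ l, 0)) hl1.2 (by positivity)
    (cont_prod (cT0.mono sub) (cont_prod (cT1.mono sub) (cTh.mono sub)))
    ((cL1.mono sub).clm_comp continuousOn_const)
    (fun l hl => unit_prod (uT0 l (sub hl)) (unit_prod (uT1 l (sub hl))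
      (hU ⟨hl1.1.le.trans hl.1, hl.2⟩)))
    (fun l hl => Prod.ext (by simp) (Prod.ext (eφ l (sub hl)) (by simp)))
    (fun l hl => by rw [map_zero, R0 l (sub hl)])
    (fun l hl x y hx hy => (RL l (sub hl) _ _ (nW' x hx) (nW' y hy)).trans (by
      rw [← map_sub]
      calc _ ≤ |C'| * ((‖Wm‖ + 1) * ‖x‖ + (‖Wm‖ + 1) * ‖y‖) * ((‖Wm‖ + 1) * ‖x - y‖) := by
            gcongr
            exacts [le_abs_self _, nW x, nW y, nW _]
        _ = _ := by ring))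
    (fun x hx => (Rc _ (nW' x hx)).mono sub) hj1 top2 (c / 2 / (‖Wm‖ + 1)) (by positivity)
  have hl' := sub hl
  have hl0' : 0 < l := (hl0.1.trans_lt hl1.1).trans_le hl.1
  obtain ⟨x0, x1', xh⟩ := x
  simp only [Prod.ext_iff] at x3
  obtain ⟨y0, y1, yh⟩ := x3
  refine ⟨l, q, C, δ, Y l, Z l, fun t => rho t • Wm (x0, x1', xh) t, hl0', hS l hl',
    pert_of W hG hV hD (T := T) (hS l hl').pot hC hε.ne' x0 x1'
      (mulB ℝ (v0 l) x0 + cB 0 (R l (Wm (x0, x1', xh))))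
      (mulB ℝ (v1 l) x1' + cB 1 (R l (Wm (x0, x1', xh)))) xh
      (mulB A (vb l + .const ℝ C) (prB xh) + mulB A oB (R l (Wm (x0, x1', xh))))
      (R l (Wm (x0, x1', xh))) _ (eW _) (fun t => ?_) (fun t => ?_) (fun t => ?_) (fun t => ?_)
      (fun t => ?_) (fun t => ?_) ?_ (fun t n => ?_) (fun t => ?_) fun t => ?_⟩
  · rw [eR l hl' _ (nW' _ x2), VV, smul_smul 2]
    module
  · rw [← q0 l hl', ← mul_add]; rfl
  · rw [← q1 l hl', ← mul_add]; rfl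
  · rw [← evb l hl']; rfl
  · rw [← ek0, map_add]
    simpa [T0] using DFunLike.congr_fun y0 t
  · rw [← ek1, map_add]
    simpa [T1, e1, add_assoc] using DFunLike.congr_fun y1 t
  · rw [← em1, map_add]
    exact x4
  · rw [← ekh, map_add]
    simpa [Th] using congrArg (W.c n) (DFunLike.congr_fun yh t)
  · refine le_of_eq_of_le ?_ (nkh _ t)
    rw [map_add]
    simpa [Th] using congrArg norm (DFunLike.congr_fun yh t)
  · have b1 := hlog t (l * exp (Y l t - 2 * t)) (by positivity) ((hS l hl').neg t) (by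
      have b2 := ((hS l hl').dec t).trans (mul_le_mul_of_nonneg_left (om_le' δ t) hC)
      rw [exp_sub, ← mul_div_assoc, div_le_iff₀ (exp_pos _)]
      calc _ ≤ Λ * (C * (exp (-δ * |t|) * exp (2 * t))) :=
            mul_le_mul hl.2 b2 (exp_pos _).le hΛ.le
        _ = _ := by ring)
    rw [log_mul hl0'.ne' (exp_pos _).ne', log_exp] at b1
    have b3 : ‖Wm (x0, x1', xh) t‖ ≤ c / 2 := ((Wm _).norm_coe_le_norm t).trans
      ((nW _).trans (by rwa [le_div_iff₀' hw0] at x1))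
    have b4 := rho_pos t
    rw [norm_smul, Real.norm_of_nonneg b4.le]
    nlinarith [mul_le_mul_of_nonneg_left b3 b4.le, mul_pos hc b4]

end Pool.Agent.MP_ad2fa1_an.H64
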