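import Pool.Agent.MP_ad2fa1_an.H64.Spec

/-!
Auxiliary facts for the fixed point step.
-/

set_option autoImplicit false

noncomputable section

namespace Pool.Agent.MP_ad2fa1_an.H64.FixA

open Real Set Filter Topology MeasureTheory BoundedContinuousFunction Function

/-- Multiplication by a bounded scalar function. -/
def mulB (E : Type) [NormedAddCommGroup E] [NormedSpace ℝ E] :
    (ℝ →ᵇ ℝ) →L[ℝ] (ℝ →ᵇ E) →L[ℝ] ℝ →ᵇ E :=
  LinearMap.mkContinuous₂ (LinearMap.mk₂ ℝ (fun (g : ℝ →ᵇ ℝ) (x : ℝ →ᵇ E) => g • x)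
    (fun a b x => by ext t; exact add_smul (a t) (b t) (x t))
    (fun c a x => by ext t; exact mul_smul c (a t) (x t))
    (fun a x y => by ext t; exact smul_add (a t) (x t) (y t))
    (fun c a x => by ext t; exact smul_comm (a t) c (x t)))
    1 fun g x => by simpa using norm_smul_le g x

@[simp] theorem mulB_apply {E : Type} [NormedAddCommGroup E] [NormedSpace ℝ E] (g : ℝ →ᵇ ℝ)
    (x : ℝ →ᵇ E) (t : ℝ) : mulB E g x t = g t • x t := rfl

/-- A continuous function bounded by one. -/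
def mkB (f : ℝ → ℝ) (hf : Continuous f) (h : ∀ t, |f t| ≤ 1) : ℝ →ᵇ ℝ :=
  ofNormedAddCommGroup f hf 1 h

@[simp] theorem mkB_apply (f : ℝ → ℝ) (hf : Continuous f) (h : ∀ t, |f t| ≤ 1) (t : ℝ) :
    mkB f hf h t = f t := rfl

theorem unit_prod {X Y : Type} [NormedAddCommGroup X] [NormedSpace ℝ X] [NormedAddCommGroup Y]
    [NormedSpace ℝ Y] {S : X →L[ℝ] X} {T : Y →L[ℝ] Y} (hS : IsUnit (1 - S))
    (hT : IsUnit (1 - T)) : IsUnit (1 - S.prodMap T) := by
  obtain ⟨u, hu⟩ := hS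
  obtain ⟨v, hv⟩ := hT
  have e : 1 - S.prodMap T = (u : X →L[ℝ] X).prodMap (v : Y →L[ℝ] Y) := by
    rw [hu, hv]; ext <;> simp
  have a : ∀ x, (u : X →L[ℝ] X) ((↑u⁻¹ : X →L[ℝ] X) x) = x := fun x => by
    rw [← ContinuousLinearMap.mul_apply, u.mul_inv]; rfl
  have b : ∀ x, (↑u⁻¹ : X →L[ℝ] X) ((u : X →L[ℝ] X) x) = x := fun x => by
    rw [← ContinuousLinearMap.mul_apply, u.inv_mul]; rfl
  have c : ∀ x, (v : Y →L[ℝ] Y) ((↑v⁻¹ : Y →L[ℝ] Y) x) = x := fun x => by
    rw [← ContinuousLinearMap.mul_apply, v.mul_inv]; rfl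
  have d : ∀ x, (↑v⁻¹ : Y →L[ℝ] Y) ((v : Y →L[ℝ] Y) x) = x := fun x => by
    rw [← ContinuousLinearMap.mul_apply, v.inv_mul]; rfl
  rw [e]
  exact ⟨⟨(u : X →L[ℝ] X).prodMap (v : Y →L[ℝ] Y), (↑u⁻¹ : X →L[ℝ] X).prodMap (↑v⁻¹ : Y →L[ℝ] Y),
    ContinuousLinearMap.ext fun x => Prod.ext (a x.1) (c x.2),
    ContinuousLinearMap.ext fun x => Prod.ext (b x.1) (d x.2)⟩, rfl⟩

theorem cont_prod {X Y : Type} [NormedAddCommGroup X] [NormedSpace ℝ X] [NormedAddCommGroup Y]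
    [NormedSpace ℝ Y] {S : ℝ → X →L[ℝ] X} {T : ℝ → Y →L[ℝ] Y} {I : Set ℝ} (hS : ContinuousOn S I)
    (hT : ContinuousOn T I) : ContinuousOn (fun l => (S l).prodMap (T l)) I :=
  (ContinuousLinearMap.prodMapL ℝ X X Y Y).continuous.comp_continuousOn (hS.prodMk hT)

theorem neg_const {q B δ : ℝ} (hq : q < 1) (hδ : 0 < δ) : ∃ c > 0, ∀ t s : ℝ, 0 < s → s ≤ q →
    s ≤ B * exp (-δ * |t|) → log s ≤ -(c * rho t) := by
  have hα : 0 < -log (max q (1 / 2)) :=
    neg_pos.2 (log_neg (lt_max_of_lt_right (by norm_num)) (max_lt hq (by norm_num)))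
  have hβ : 0 ≤ log (max B 1) := log_nonneg (le_max_right _ _)
  set α := -log (max q (1 / 2)) with hα'
  set β := log (max B 1) with hβ'
  have h0 : 0 < α + β := by positivity
  obtain ⟨k, hk, hk0⟩ : ∃ k, k * (α + β) = α / 2 ∧ 0 < k :=
    ⟨α / 2 / (α + β), div_mul_cancel₀ _ h0.ne', by positivity⟩
  have hk1 : k ≤ 1 := by nlinarith
  refine ⟨min (α / 2) (k * δ), by positivity, fun t s hs h1 h2 => ?_⟩
  have a1 : log s ≤ -α := by
    rw [hα', neg_neg]; exact log_le_log hs (h1.trans (le_max_left _ _))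
  have a2 : log s ≤ β - δ * |t| := by
    have : s ≤ max B 1 * exp (-δ * |t|) := h2.trans (by gcongr; exact le_max_left _ _)
    have h3 := log_le_log hs this
    rw [log_mul (by positivity) (exp_pos _).ne', log_exp] at h3
    linarith
  have a3 := mul_le_mul_of_nonneg_right (min_le_right (α / 2) (k * δ)) (abs_nonneg t)
  have a4 := min_le_left (α / 2) (k * δ)
  unfold rho
  nlinarith [mul_le_mul_of_nonneg_left a1 (sub_nonneg.2 hk1), mul_le_mul_of_nonneg_left a2 hk0.le]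

theorem tend_exp {δ : ℝ} (hδ : 0 < δ) (C : ℝ) :
    Tendsto (fun t : ℝ => C * (exp (-δ * |t|) * rho t)) (cocompact ℝ) (𝓝 0) := by
  have h1 : Tendsto (fun t : ℝ => |t|) (cocompact ℝ) atTop := tendsto_norm_cocompact_atTop (E := ℝ)
  have h2 := (tendsto_pow_mul_exp_neg_atTop_nhds_zero 0).comp (h1.const_mul_atTop hδ)
  have h3 := (tendsto_pow_mul_exp_neg_atTop_nhds_zero 1).comp (h1.const_mul_atTop hδ)
  have h4 := (h2.add (h3.const_mul δ⁻¹)).const_mul C
  simp only [mul_zero, add_zero] at h4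
  refine h4.congr fun t => ?_
  simp only [Function.comp_apply, rho, neg_mul]
  field_simp

theorem om_atBot {δ : ℝ} (hδ : 0 < δ) : Tendsto (om δ) atBot (𝓝 0) := by
  refine squeeze_zero (fun t => (om_pos δ t).le) (fun t => ?_)
    ((tend_exp hδ 1).mono_left atBot_le_cocompact)
  rw [one_mul]
  exact (om_le δ t).trans (le_mul_of_one_le_right (exp_pos _).le (one_le_rho t))

theorem K1_split {δ : ℝ} (hδ : 0 < δ) (T t : ℝ) (y : ℝ →ᵇ ℝ) :
    ∫ τ, K1 T t τ * (om δ τ * y τ) = (∫ τ, G 2 (t - τ) * (om δ τ * y τ)) -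
      eT T t * ∫ τ, exp (-2 * (τ - T)) / 4 * (om δ τ * y τ) := by
  have hc : Continuous fun τ => om δ τ * y τ := by fun_prop
  have h1 := G_mul_int (K := ‖y‖) two_pos hc (fun τ => by
    rw [abs_mul, abs_of_pos (om_pos δ τ)]
    exact (mul_le_of_le_one_left (abs_nonneg _) (om_le_one hδ.le τ)).trans
      (y.norm_coe_le_norm τ)) t
  have h2 : Integrable fun τ => exp (-2 * (τ - T)) / 4 * (om δ τ * y τ) := by
    refine ((int_exp_abs hδ).const_mul (exp (2 * T) / 4 * ‖y‖)).mono'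
      (Continuous.aestronglyMeasurable (by fun_prop)) (.of_forall fun τ => ?_)
    have e : exp (-2 * (τ - T)) * exp (2 * τ) = exp (2 * T) := by rw [← exp_add]; ring_nf
    rw [norm_mul, norm_mul, Real.norm_of_nonneg (by positivity),
      Real.norm_of_nonneg (om_pos δ τ).le, ← e]
    calc _ ≤ exp (-2 * (τ - T)) / 4 * (exp (-δ * |τ|) * exp (2 * τ) * ‖y‖) := by
          gcongr
          · exact om_le' δ τ
          · exact y.norm_coe_le_norm τ
      _ = _ := by ring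
  rw [← integral_const_mul, ← integral_sub h1 (h2.const_mul _)]
  exact integral_congr_ae (.of_forall fun τ => by unfold K1; ring)

variable {A : Type} [NormedCommRing A] [NormedAlgebra ℝ A] (W : Wien A)

/-- Symmetric coefficients. -/
def Sym (a : A) : Prop := ∀ n, W.c (-n) a = W.c n a

theorem c_le (n : ℤ) (a : A) : |W.c n a| ≤ ‖a‖ := by simpa using W.sum_le a {n}

theorem ev_neg (θ : ℝ) (a : A) :
    HasSum (fun n : ℤ => (W.c (-n) a : ℂ) * Complex.exp (n * θ * Complex.I)) (W.ev (-θ) a) := by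
  have := (Equiv.neg ℤ).hasSum_iff.2 (W.ev_sum (-θ) a)
  simpa [comp_def] using this

theorem c_comb (r s : ℝ) (b : A) (n : ℤ) :
    W.c n (r • (1 : A) + s • (W.d 1 + W.d (-1)) + W.pr b) =
      if n = 0 then r else if |n| = 1 then s else (W.c n b + W.c (-n) b) / 2 := by
  rw [W.one_eq]
  simp only [map_add, map_smul, W.c_d, W.c_pr, smul_eq_mul]
  have : n = 0 ∨ n = 1 ∨ n = -1 ∨ (2 ≤ |n| ∧ n ≠ 0 ∧ n ≠ 1 ∧ n ≠ -1 ∧ |n| ≠ 1) := by
    rcases abs_cases n with h | h <;> omega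
  rcases this with rfl | rfl | rfl | ⟨a, b, c, d, e⟩
  · simp
  · simp
  · simp
  · simp [a, b, c, d, e]

theorem sym_comb (r s : ℝ) (b : A) : Sym W (r • (1 : A) + s • (W.d 1 + W.d (-1)) + W.pr b) :=
  fun n => by simp only [c_comb, neg_eq_zero, abs_neg, neg_neg, add_comm]

theorem sym_iff (a : A) : Sym W a ↔ ∀ θ, W.ev (-θ) a = W.ev θ a := by
  refine ⟨fun h θ => (ev_neg W θ a).unique (by simpa only [h _] using W.ev_sum θ a), fun h => ?_⟩
  have key : W.c 0 a • (1 : A) + ((W.c 1 a + W.c (-1) a) / 2) • (W.d 1 + W.d (-1)) + W.pr a = a := by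
    refine W.ev_inj _ _ fun θ => (W.ev_sum θ _).unique ?_
    have h1 := ((W.ev_sum θ a).add (ev_neg W θ a)).div_const 2
    rw [h, add_self_div_two] at h1
    refine (congrArg (HasSum · _) (funext fun n => ?_)).mp h1
    rw [c_comb]
    split_ifs with h2 h3
    · subst h2; simp
    · rcases (abs_eq zero_le_one).1 h3 with rfl | rfl <;> push_cast <;> simp <;> ring
    · push_cast; ring
  rw [← key]
  exact sym_comb W _ _ _

theorem ev_exp [CompleteSpace A] (θ : ℝ) (a : A) :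
    W.ev θ (NormedSpace.exp a) = NormedSpace.exp (W.ev θ a) :=
  NormedSpace.map_exp_of_mem_ball (𝕂 := ℝ) (W.ev θ)
    (W.ev_cont.comp (continuous_const.prodMk continuous_id)) a
    ((NormedSpace.expSeries_radius_eq_top ℝ A).symm ▸ edist_lt_top _ _)

theorem sym_f [CompleteSpace A] {a : A} (h : Sym W a) (p q : ℝ) :
    Sym W (p • (NormedSpace.exp a - 1) - q • (NormedSpace.exp ((2 : ℝ) • a) - 1)) := by
  rw [sym_iff] at h ⊢
  intro θ
  simp only [map_sub, map_smul, map_one, ev_exp, h]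

end Pool.Agent.MP_ad2fa1_an.H64.FixA
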