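import Pool.Agent.MP_ad2fa1_an.H64.FixA

/-!
From the fixed point equations to the mode equations.
-/

set_option autoImplicit false

noncomputable section

namespace Pool.Agent.MP_ad2fa1_an.H64.FixA

open Real Set Filter Topology MeasureTheory BoundedContinuousFunction Function

variable {A : Type} [NormedCommRing A] [NormedAlgebra ℝ A] [CompleteSpace A] (W : Wien A)

theorem om_mul_le (δ : ℝ) (y : ℝ →ᵇ ℝ) (t : ℝ) : |om δ t * y t| ≤ ‖y‖ * om δ t := by
  rw [abs_mul, abs_of_pos (om_pos δ t), mul_comm]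
  exact mul_le_mul_of_nonneg_right (y.norm_coe_le_norm t) (om_pos δ t).le

theorem pert_of (hG : SGreen) (hV : SVolt) (hD : SDecay) {l δ T M ε C : ℝ} {Y : ℝ → ℝ}
    (hP : Pot (VV l Y) C δ) (hM : 0 ≤ M) (hε : ε ≠ 0) (x0 x1 y0 y1 : ℝ →ᵇ ℝ)
    (xh yh Rr : ℝ →ᵇ A) (w : ℝ → A)
    (hw : ∀ t, w t = (rho t * x0 t) • (1 : A) + x1 t • (W.d 1 + W.d (-1)) + W.pr (xh t))
    (hf : ∀ t, PP Y t • (NormedSpace.exp (w t) - 1) -
      QQ l Y t • (NormedSpace.exp ((2 : ℝ) • w t) - 1) = VV l Y t • w t + om (δ / 2) t • Rr t)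
    (h0 : ∀ t, om (δ / 2) t * y0 t = VV l Y t * (rho t * x0 t) + om (δ / 2) t * W.c 0 (Rr t))
    (h1 : ∀ t, om (δ / 2) t * y1 t = VV l Y t * x1 t + om (δ / 2) t * W.c 1 (Rr t))
    (hh : ∀ t, yh t = (VV l Y t + M) • W.pr (xh t) + om (δ / 2) t • Rr t)
    (e0 : ∀ t, x0 t = -((rho t)⁻¹ * ∫ τ, max (t - τ) 0 * (om (δ / 2) τ * y0 τ)))
    (e1 : ∀ t, x1 t = ε * eT T t + ∫ τ, K1 T t τ * (om (δ / 2) τ * y1 τ))
    (em : ε = ∫ τ, exp (-2 * (τ - T)) / 4 * (om (δ / 2) τ * y1 τ))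
    (eh : ∀ t n, W.c n (xh t) =
      if 2 ≤ |n| then ∫ τ, G (kap M n) (t - τ) * W.c n (yh τ) else 0)
    (en : ∀ t, ‖xh t‖ ≤ ∫ τ, G (kap M 2) (t - τ) * ‖yh τ‖)
    (hneg : ∀ t, Y t - 2 * t + log l + ‖w t‖ < 0) : Pert W l Y w := by
  obtain ⟨hδ, hVc, hVb⟩ := hP
  have hδ2 := half_pos hδ
  have hC : 0 ≤ C := nonneg_of_mul_nonneg_left ((abs_nonneg _).trans (hVb 0)) (om_pos δ 0)
  have sw : ∀ t, Sym W (w t) := fun t => by rw [hw]; exact sym_comb W _ _ _
  have cw : Continuous w := by rw [funext hw]; fun_prop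
  set f : ℝ → A := fun t => PP Y t • (NormedSpace.exp (w t) - 1) -
      QQ l Y t • (NormedSpace.exp ((2 : ℝ) • w t) - 1) with hf'
  have sf : ∀ t, Sym W (f t) := fun t => sym_f W (sw t) _ _
  replace hf : ∀ t, f t = VV l Y t • w t + om (δ / 2) t • Rr t := hf
  have cf : Continuous f := by rw [funext hf]; fun_prop
  have w0 : ∀ t, W.c 0 (w t) = rho t * x0 t := fun t => by rw [hw, c_comb]; simp
  have w1 : ∀ t, W.c 1 (w t) = x1 t := fun t => by rw [hw, c_comb]; simp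
  have wh : ∀ n, 2 ≤ |n| → ∀ t, W.c n (w t) = W.c n (W.pr (xh t)) := fun n hn t => by
    rw [hw, c_comb, W.c_pr, if_pos hn, if_neg (by rintro rfl; simp at hn), if_neg (by omega)]
  have f0 : ∀ t, W.c 0 (f t) = om (δ / 2) t * y0 t := fun t => by
    rw [hf, h0, map_add, map_smul, map_smul, w0]; rfl
  have f1 : ∀ t, W.c 1 (f t) = om (δ / 2) t * y1 t := fun t => by
    rw [hf, h1, map_add, map_smul, map_smul, w1]; rfl
  have fh : ∀ n, 2 ≤ |n| → ∀ t, W.c n (yh t) = W.c n (f t) + M * W.c n (w t) := fun n hn t => by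
    simp only [hf, hh, map_add, map_smul, wh n hn, smul_eq_mul]; ring
  have g0 : ∀ t, W.c 0 (w t) = -∫ τ, max (t - τ) 0 * (om (δ / 2) τ * y0 τ) := fun t => by
    rw [w0, e0, mul_neg, mul_inv_cancel_left₀ (rho_pos t).ne']
  have g1 : ∀ t, x1 t = ∫ τ, G 2 (t - τ) * (om (δ / 2) τ * y1 τ) := fun t => by
    rw [e1, K1_split hδ2, ← em]; ring
  have gh : ∀ n, 2 ≤ |n| → ∀ t, W.c n (w t) = ∫ τ, G (kap M n) (t - τ) * W.c n (yh τ) := by
    intro n hn t
    have hn' : 2 ≤ |-n| := by rwa [abs_neg]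
    have hk : kap M (-n) = kap M n := by simp [kap]
    rw [wh n hn, W.c_pr, if_pos hn, eh, eh, if_pos hn, if_pos hn', hk]
    simp only [fh n hn, fh _ hn', sf _ n, sw _ n, add_self_div_two]
  have b1 : ∀ t, |om (δ / 2) t * y1 t| ≤ ‖y1‖ := fun t =>
    (om_mul_le _ y1 t).trans (mul_le_of_le_one_right (norm_nonneg _) (om_le_one hδ2.le t))
  obtain ⟨u0, a0, a0', t0⟩ := hV (δ / 2) ‖y0‖ (fun τ => om (δ / 2) τ * y0 τ) hδ2 (by fun_prop)
    (om_mul_le _ y0)
  obtain ⟨u1, a1, a1', -⟩ := hG 2 ‖y1‖ (fun τ => om (δ / 2) τ * y1 τ) two_pos (by fun_prop) b1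
  simp only [← g1] at a1 a1'
  refine ⟨⟨cw, cf, fun n => ?_⟩, fun n t => sw t n, ?_, hneg, ?_⟩
  · have : n = 0 ∨ n = 1 ∨ n = -1 ∨ 2 ≤ |n| := by rcases abs_cases n with h | h <;> omega
    rcases this with rfl | rfl | rfl | hn
    · refine ⟨fun t => -u0 t, fun t => ?_, fun t => ?_⟩
      · simp only [g0]; exact (a0 t).neg
      · rw [f0]; exact (a0' t).neg.congr_deriv (by simp)
    · refine ⟨u1, fun t => ?_, fun t => ?_⟩
      · simp only [w1]; exact a1 t
      · rw [f1, w1]; exact (a1' t).congr_deriv (by norm_num)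
    · refine ⟨u1, fun t => ?_, fun t => ?_⟩
      · simp only [sw _ 1, w1]; exact a1 t
      · rw [sf _ 1, sw _ 1, f1, w1]; exact (a1' t).congr_deriv (by norm_num)
    · obtain ⟨u, a, a', -⟩ := hG (kap M n) ‖yh‖ (fun τ => W.c n (yh τ))
        (kap_pos hM (by rintro rfl; simp at hn)) (by fun_prop)
        fun τ => (c_le W n _).trans (yh.norm_coe_le_norm τ)
      simp only [← gh n hn] at a a'
      exact ⟨u, a, fun t => (a' t).congr_deriv (by rw [kap_sq hM, fh n hn]; ring)⟩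
  · have tom := om_atBot hδ2
    have t1 : Tendsto (fun t => |x1 t|) atBot (𝓝 0) := by
      refine hD 2 0 (‖x1‖ + ‖y1‖) _ (fun τ => |om (δ / 2) τ * y1 τ|) two_pos le_rfl (by norm_num)
        (by fun_prop) (by fun_prop)
        (fun t => ⟨abs_nonneg _, le_add_of_le_of_nonneg (x1.norm_coe_le_norm t) (norm_nonneg _)⟩)
        (fun t => ⟨abs_nonneg _, le_add_of_nonneg_of_le (norm_nonneg _) (b1 t)⟩)
        (squeeze_zero (fun t => abs_nonneg _) (om_mul_le _ y1) (by simpa using tom.const_mul ‖y1‖))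
        fun t => ?_
      rw [g1]
      refine abs_integral_le_integral_abs.trans (le_of_eq (integral_congr_ae (.of_forall fun τ => ?_)))
      simp only [abs_mul (G 2 _), abs_of_pos (G_pos two_pos _), zero_mul, add_zero]
    have hk := kap_pos hM (n := 2) two_ne_zero
    have hb : 0 ≤ C * ‖xh‖ + ‖Rr‖ := by positivity
    have b2 : ∀ t, 0 ≤ (C * ‖xh‖ + ‖Rr‖) * om (δ / 2) t ∧
        (C * ‖xh‖ + ‖Rr‖) * om (δ / 2) t ≤ C * ‖xh‖ + ‖Rr‖ := fun t =>
      ⟨mul_nonneg hb (om_pos _ t).le, mul_le_of_le_one_right hb (om_le_one hδ2.le t)⟩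
    have th : Tendsto (fun t => ‖xh t‖) atBot (𝓝 0) := by
      refine hD (kap M 2) M (‖xh‖ + (C * ‖xh‖ + ‖Rr‖)) _
        (fun τ => (C * ‖xh‖ + ‖Rr‖) * om (δ / 2) τ) hk hM (by rw [kap_sq hM]; norm_num)
        (by fun_prop) (by fun_prop)
        (fun t => ⟨norm_nonneg _, le_add_of_le_of_nonneg (xh.norm_coe_le_norm t) hb⟩)
        (fun t => ⟨(b2 t).1, le_add_of_nonneg_of_le (norm_nonneg _) (b2 t).2⟩)
        (by simpa using tom.const_mul (C * ‖xh‖ + ‖Rr‖)) fun t => (en t).trans ?_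
      refine integral_mono_of_nonneg (.of_forall fun τ => mul_nonneg (G_pos hk _).le (norm_nonneg _))
        (G_mul_int (K := C * ‖xh‖ + ‖Rr‖ + M * ‖xh‖) hk (by fun_prop) (fun τ => ?_) t)
        (.of_forall fun τ => mul_le_mul_of_nonneg_left ?_ (G_pos hk _).le)
      · rw [abs_of_nonneg (add_nonneg (b2 τ).1 (by positivity))]
        gcongr
        exacts [(b2 τ).2, xh.norm_coe_le_norm τ]
      · have c1 : |VV l Y τ| ≤ C * om (δ / 2) τ := (hVb τ).trans (by
          rw [om_half]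
          exact mul_le_mul_of_nonneg_left (mul_le_of_le_one_left (om_pos _ _).le
            (exp_le_one_iff.2 (by nlinarith [abs_nonneg τ]))) hC)
        have c2 := W.norm_pr (xh τ)
        have c3 := xh.norm_coe_le_norm τ
        have c4 := Rr.norm_coe_le_norm τ
        have c5 := (om_pos (δ / 2) τ).le
        rw [hh, add_smul]
        calc _ ≤ |VV l Y τ| * ‖W.pr (xh τ)‖ + M * ‖W.pr (xh τ)‖ + om (δ / 2) τ * ‖Rr τ‖ := by
              refine norm_add₃_le.trans (le_of_eq ?_)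
              rw [norm_smul, norm_smul, norm_smul, Real.norm_of_nonneg hM, Real.norm_of_nonneg c5]
              rfl
          _ ≤ C * om (δ / 2) τ * ‖xh‖ + M * ‖xh τ‖ + om (δ / 2) τ * ‖Rr‖ := by
              gcongr
              exact c2.trans c3
          _ = _ := by ring
    have t0' : Tendsto (fun t => rho t * x0 t) atBot (𝓝 0) := by
      simpa only [← w0, g0, neg_zero] using t0.neg
    rw [funext hw]
    have := ((t0'.smul_const (1 : A)).add (((tendsto_zero_iff_abs_tendsto_zero _).2 t1).smul_const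
      (W.d 1 + W.d (-1)))).add ((W.pr.continuous.tendsto 0).comp
        (tendsto_zero_iff_norm_tendsto_zero.2 th))
    simpa [comp_def] using this
  · by_contra hn
    push Not at hn
    simp only [w1] at hn
    have z1 : ∀ t, u1 t = 0 := fun t =>
      (a1 t).unique (by simp only [hn]; exact hasDerivAt_const t 0)
    have z2 : ∀ t, om (δ / 2) t * y1 t = 0 := fun t => by
      have := (a1' t).unique (by rw [funext z1]; exact hasDerivAt_const t 0)
      rw [hn] at this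
      linarith
    simp [z2] at em
    exact hε em

end Pool.Agent.MP_ad2fa1_an.H64.FixA
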