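import Pool.Agent.MP_ad2fa1_an.H64.Spec

/-!
The differential form of the glued solution.
-/

set_option autoImplicit false

noncomputable section

namespace Pool.Agent.MP_ad2fa1_an.H64

open Real Set Filter Topology MeasureTheory BoundedContinuousFunction Function

namespace GlA

theorem nonneg_of {B b : ℝ → ℝ} (h : ∀ t, HasDerivAt B (b t) t) (hb : ∀ t, 0 ≤ b t)
    (h0 : Tendsto B atBot (𝓝 0)) (t : ℝ) : 0 ≤ B t :=
  (monotone_of_deriv_nonneg (fun s => (h s).differentiableAt)
    fun s => by rw [(h s).deriv]; exact hb s).le_of_tendsto h0 t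

theorem dexp (c T t : ℝ) : HasDerivAt (fun s => exp (c * (s - T))) (c * exp (c * (t - T))) t := by
  have h := (((hasDerivAt_id t).sub_const T).const_mul c).exp
  simp only [id, mul_one] at h
  rwa [mul_comm] at h

theorem exp_bot {c : ℝ} (hc : 0 < c) : Tendsto (fun t => exp (c * (t - 0))) atBot (𝓝 0) := by
  simp only [sub_zero]
  exact tendsto_exp_atBot.comp (tendsto_id.const_mul_atBot hc)

theorem abs_le_of {A a : ℝ → ℝ} {c : ℝ} (h : ∀ t, HasDerivAt A (a t) t)
    (ha : ∀ t, |a t| ≤ c * exp (4 * (t - 0))) (h0 : Tendsto A atBot (𝓝 0)) (t : ℝ) :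
    |A t| ≤ c / 4 * exp (4 * (t - 0)) := by
  have e := (exp_bot (c := 4) (by norm_num)).const_mul (c / 4)
  have h1 := nonneg_of (B := fun s => c / 4 * exp (4 * (s - 0)) - A s)
    (fun s => ((dexp 4 0 s).const_mul (c / 4)).sub (h s))
    (fun s => by linarith [(abs_le.1 (ha s)).2]) (by simpa using e.sub h0) t
  have h2 := nonneg_of (B := fun s => c / 4 * exp (4 * (s - 0)) + A s)
    (fun s => ((dexp 4 0 s).const_mul (c / 4)).add (h s))
    (fun s => by linarith [(abs_le.1 (ha s)).1]) (by simpa using e.add h0) t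
  exact abs_le.2 ⟨by linarith, by linarith⟩

theorem tail {h : ℝ → ℝ} (hi : Integrable h) :
    Tendsto (fun t => ∫ τ, (Iio t).indicator h τ) atBot (𝓝 0) := by
  have := tendsto_integral_filter_of_dominated_convergence (l := atBot) (μ := volume)
    (F := fun t τ => (Iio t).indicator h τ) (f := fun _ => (0 : ℝ)) (fun τ => ‖h τ‖)
    (Eventually.of_forall fun t => (hi.indicator measurableSet_Iio).aestronglyMeasurable)
    (Eventually.of_forall fun t => Eventually.of_forall fun τ => norm_indicator_le_norm_self _ _)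
    hi.norm (Eventually.of_forall fun τ => tendsto_const_nhds.congr'
      ((eventually_le_atBot τ).mono fun t ht =>
        (indicator_of_notMem (s := Iio t) (not_lt.2 ht) h).symm))
  simpa using this

theorem bracket (t τ x c : ℝ) (hx : exp (-2 * τ) * |x| ≤ c) :
    |G 2 (t - τ) * x - exp (2 * t) * (exp (-2 * τ) / 4 * x)| ≤
      exp (2 * t) / 4 * (if τ < t then c else 0) := by
  have e1 : exp (2 * t) * exp (-2 * τ) = exp (2 * (t - τ)) := by
    rw [← exp_add]
    congr 1
    ring
  have e2 : G 2 (t - τ) * x - exp (2 * t) * (exp (-2 * τ) / 4 * x) =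
      (exp (-2 * |t - τ|) - exp (2 * (t - τ))) / 4 * x := by
    unfold G
    rw [← e1]
    ring
  rw [e2]
  split_ifs with h
  · have h1 : exp (-2 * |t - τ|) ≤ exp (2 * (t - τ)) :=
      exp_le_exp.2 (by linarith [abs_nonneg (t - τ)])
    have h2 : |(exp (-2 * |t - τ|) - exp (2 * (t - τ))) / 4| ≤ exp (2 * (t - τ)) / 4 :=
      abs_le.2 ⟨by linarith [exp_pos (-2 * |t - τ|)], by linarith [exp_pos (2 * (t - τ))]⟩
    rw [abs_mul]
    calc _ ≤ exp (2 * (t - τ)) / 4 * |x| := mul_le_mul_of_nonneg_right h2 (abs_nonneg _)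
      _ = exp (2 * t) / 4 * (exp (-2 * τ) * |x|) := by rw [← e1]; ring
      _ ≤ _ := mul_le_mul_of_nonneg_left hx (by positivity)
  · have e3 : -2 * |t - τ| = 2 * (t - τ) := by
      rw [abs_of_nonpos (by linarith)]
      ring
    rw [e3]
    simp

end GlA

open GlA in
theorem gl : SGreen → SGl := by
  intro hG V C δ T j φ hP hg
  obtain ⟨hδ, hV, hb⟩ := hP
  obtain ⟨f, hf⟩ : ∃ f : ℝ → ℝ, f = fun t => V t * φ t := ⟨_, rfl⟩
  have hft : ∀ t, V t * φ t = f t := fun t => by rw [hf]
  have hfc : Continuous f := by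
    rw [hf]
    exact hV.mul φ.continuous
  have hC : 0 ≤ C := nonneg_of_mul_nonneg_left ((abs_nonneg _).trans (hb 0)) (om_pos δ 0)
  obtain ⟨c, hc⟩ : ∃ c : ℝ, c = C * ‖φ‖ := ⟨_, rfl⟩
  have hc0 : 0 ≤ c := by
    rw [hc]
    positivity
  have hfb : ∀ t, |f t| ≤ c * om δ t := by
    intro t
    rw [← hft, abs_mul, hc, mul_right_comm]
    exact mul_le_mul (hb t) (φ.norm_coe_le_norm t) (abs_nonneg _)
      (mul_nonneg hC (om_pos δ t).le)
  have hf1 : ∀ t, |f t| ≤ c := fun t =>
    (hfb t).trans (mul_le_of_le_one_right hc0 (om_le_one hδ.le t))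
  have hf2 : ∀ t, exp (-2 * t) * |f t| ≤ c * exp (-δ * |t|) := by
    intro t
    have e : exp (-2 * t) * exp (2 * t) = 1 := by
      rw [← exp_add]
      simp
    calc _ ≤ exp (-2 * t) * (c * (exp (-δ * |t|) * exp (2 * t))) :=
          mul_le_mul_of_nonneg_left ((hfb t).trans
            (mul_le_mul_of_nonneg_left (om_le' δ t) hc0)) (exp_pos _).le
      _ = c * exp (-δ * |t|) * (exp (-2 * t) * exp (2 * t)) := by ring
      _ = _ := by rw [e, mul_one]
  have hf3 : ∀ t, |f t| ≤ c * exp (2 * t) := by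
    intro t
    have h1 : exp (-δ * |t|) ≤ 1 := exp_le_one_iff.2 (by nlinarith [abs_nonneg t])
    exact (hfb t).trans (mul_le_mul_of_nonneg_left ((om_le' δ t).trans
      (mul_le_of_le_one_left (exp_pos _).le h1)) hc0)
  obtain ⟨w, d1, d2, b1, b2⟩ := hG 2 c f (by norm_num) hfc hf1
  obtain ⟨g, hgd⟩ : ∃ g : ℝ → ℝ, g = fun s => ∫ τ, G 2 (s - τ) * f τ := ⟨_, rfl⟩
  have hgt : ∀ t, ∫ τ, G 2 (t - τ) * f τ = g t := fun t => by rw [hgd]
  rw [← hgd] at d1
  simp only [hgt] at d2 b1
  have hj := hg.hj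
  have he := hg.eq
  simp only [hft] at hj
  simp only [hft, hgt] at he
  have hh : Integrable fun τ => c * exp (-δ * |τ|) := (int_exp_abs hδ).const_mul c
  have hi : Integrable fun τ => exp (-2 * τ) / 4 * f τ := by
    refine hh.mono' (by fun_prop) (Eventually.of_forall fun τ => ?_)
    rw [norm_eq_abs, abs_mul, abs_of_pos (by positivity)]
    have := hf2 τ
    have := mul_nonneg (exp_pos (-2 * τ)).le (abs_nonneg (f τ))
    linarith
  obtain ⟨H, hH⟩ : ∃ H : ℝ → ℝ,
      H = fun t => ∫ τ, (Iio t).indicator (fun τ => c * exp (-δ * |τ|)) τ := ⟨_, rfl⟩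
  have hH0 : Tendsto H atBot (𝓝 0) := by
    rw [hH]
    exact tail hh
  obtain ⟨I, hI⟩ : ∃ I : ℝ, I = ∫ τ, c * exp (-δ * |τ|) := ⟨_, rfl⟩
  have hI0 : 0 ≤ I := by
    rw [hI]
    exact integral_nonneg fun τ => by positivity
  have hHI : ∀ t, H t ≤ I := by
    intro t
    rw [hH, hI]
    exact integral_mono (hh.indicator measurableSet_Iio) hh
      (indicator_le_self' fun τ _ => by positivity)
  have key : ∀ t, |g t + j * exp (2 * (t - T)) - exp (2 * t) * exp (-2 * T)| ≤
      exp (2 * t) / 4 * H t := by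
    intro t
    have e0 : exp (2 * (t - T)) = exp (2 * t) * exp (-2 * T) := by
      rw [← exp_add]
      congr 1
      ring
    have e1 : (∫ τ, exp (-2 * (τ - T)) / 4 * f τ) * exp (2 * (t - T)) =
        ∫ τ, exp (2 * t) * (exp (-2 * τ) / 4 * f τ) := by
      rw [← integral_mul_const]
      refine integral_congr_ae (Eventually.of_forall fun τ => ?_)
      have : exp (-2 * (τ - T)) * exp (2 * (t - T)) = exp (2 * t) * exp (-2 * τ) := by
        rw [← exp_add, ← exp_add]
        congr 1
        ring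
      dsimp only
      linear_combination f τ / 4 * this
    have e2 : g t + j * exp (2 * (t - T)) - exp (2 * t) * exp (-2 * T) =
        ∫ τ, (G 2 (t - τ) * f τ - exp (2 * t) * (exp (-2 * τ) / 4 * f τ)) := by
      rw [integral_sub (G_mul_int (by norm_num) hfc hf1 t) (hi.const_mul _), hgt, ← e1, hj, ← e0]
      ring
    rw [e2, hH, ← integral_const_mul, ← norm_eq_abs]
    refine norm_integral_le_of_norm_le ((hh.indicator measurableSet_Iio).const_mul _)
      (Eventually.of_forall fun τ => ?_)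
    rw [norm_eq_abs, Set.indicator_apply]
    exact bracket t τ _ _ (hf2 τ)
  have hA : ∀ t, |w t - 2 * g t| ≤ c / 4 * exp (2 * t) := by
    intro t
    have e4 : ∀ s : ℝ, exp (4 * (s - 0)) = exp (2 * (s - 0)) * exp (2 * s) := by
      intro s
      rw [← exp_add]
      congr 1
      ring
    have h1 := abs_le_of (A := fun s => exp (2 * (s - 0)) * (w s - 2 * g s))
      (a := fun s => -(exp (2 * (s - 0)) * f s)) (c := c)
      (fun s => ((dexp 2 0 s).mul ((d2 s).sub ((d1 s).const_mul 2))).congr_deriv (by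
        simp only [Pi.sub_apply]
        ring))
      (fun s => by
        rw [abs_neg, abs_mul, abs_of_pos (exp_pos _), e4, mul_left_comm]
        exact mul_le_mul_of_nonneg_left (hf3 s) (exp_pos _).le)
      (by
        refine squeeze_zero_norm (a := fun s => exp (2 * (s - 0)) * c) (fun s => ?_) ?_
        · rw [norm_eq_abs, abs_mul, abs_of_pos (exp_pos _)]
          refine mul_le_mul_of_nonneg_left ?_ (exp_pos _).le
          have h3 := abs_le.1 (b1 s)
          have h4 := abs_le.1 (b2 s)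
          exact abs_le.2 ⟨by linarith, by linarith⟩
        · simpa using (exp_bot (c := 2) (by norm_num)).mul_const c) t
    rw [abs_mul, abs_of_pos (exp_pos _), e4, mul_left_comm] at h1
    exact le_of_mul_le_mul_left h1 (exp_pos _)
  have hE := exp_pos (-2 * T)
  have hja := abs_nonneg j
  refine ⟨fun t => g t + j * exp (2 * (t - T)), fun t => w t + j * (2 * exp (2 * (t - T))),
    fun t => g t + j * exp (-2 * (t - T)), fun t => w t + j * (-2 * exp (-2 * (t - T))),
    2 * exp (-2 * T) + I + c + 2 * |j|, fun t ht => ?_, fun t ht => ?_,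
    fun t => (d1 t).add ((dexp 2 T t).const_mul j), fun t => ?_,
    fun t => (d1 t).add ((dexp (-2) T t).const_mul j), fun t => ?_, ?_, fun t _ => ?_, ?_,
    fun t ht => ?_⟩
  · rw [he, eT, abs_of_nonpos (by linarith)]
    congr 3
    ring
  · rw [he, eT, abs_of_nonneg (by linarith)]
  · rw [hft]
    exact ((d2 t).add (((dexp 2 T t).const_mul 2).const_mul j)).congr_deriv (by ring)
  · rw [hft]
    exact ((d2 t).add (((dexp (-2) T t).const_mul (-2)).const_mul j)).congr_deriv (by ring)
  · simp only [sub_self, mul_zero, exp_zero]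
    ring
  · have h1 := abs_le.1 (key t)
    have h2 := abs_le.1 (hA t)
    have h3 := exp_pos (2 * t)
    have h4 := mul_le_mul_of_nonneg_left (hHI t) h3.le
    have h5 := mul_nonneg h3.le hE.le
    have h6 := mul_nonneg h3.le hI0
    have h7 := mul_nonneg h3.le hc0
    have h8 := mul_nonneg h3.le hja
    dsimp only
    exact ⟨abs_le.2 ⟨by linarith, by linarith⟩, abs_le.2 ⟨by linarith, by linarith⟩⟩
  · filter_upwards [hH0.eventually (gt_mem_nhds hE)] with t ht
    have h1 := abs_le.1 (key t)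
    have h3 := exp_pos (2 * t)
    have h4 := mul_lt_mul_of_pos_left ht h3
    have h5 := mul_pos h3 hE
    linarith
  · have h1 : exp (-2 * (t - T)) ≤ 1 := exp_le_one_iff.2 (by linarith)
    have h2 : |j * exp (-2 * (t - T))| ≤ |j| := by
      rw [abs_mul, abs_of_pos (exp_pos _)]
      exact mul_le_of_le_one_right hja h1
    have h3 := abs_le.1 (b1 t)
    have h4 := abs_le.1 (b2 t)
    have h5 := abs_le.1 h2
    dsimp only
    exact ⟨abs_le.2 ⟨by linarith, by linarith⟩, abs_le.2 ⟨by linarith, by linarith⟩⟩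

end Pool.Agent.MP_ad2fa1_an.H64
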