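import Pool.Agent.MP_ad2fa1_an.H64.Spec

/-! The Green kernel and the Volterra kernel on the line. -/

set_option autoImplicit false

noncomputable section

namespace Pool.Agent.MP_ad2fa1_an.H64

open Real Set Filter Topology MeasureTheory

namespace GreenA

theorem dIic {g : ℝ → ℝ} (hg : Continuous g) (hi : ∀ s, IntegrableOn g (Iic s)) (t : ℝ) :
    HasDerivAt (fun s => ∫ τ in Iic s, g τ) (g t) t := by
  have e : (fun s => ∫ τ in Iic s, g τ) = fun s => (∫ τ in Iic 0, g τ) + ∫ τ in (0 : ℝ)..s, g τ := by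
    funext s
    rw [← intervalIntegral.integral_Iic_sub_Iic (hi 0) (hi s)]; ring
  rw [e]
  exact (hg.integral_hasStrictDerivAt 0 t).hasDerivAt.const_add _

theorem dIoi {g : ℝ → ℝ} (hg : Continuous g) (hi : ∀ s, IntegrableOn g (Ioi s)) (t : ℝ) :
    HasDerivAt (fun s => ∫ τ in Ioi s, g τ) (-g t) t := by
  have e : (fun s => ∫ τ in Ioi s, g τ) = fun s => (∫ τ in Ioi 0, g τ) - ∫ τ in (0 : ℝ)..s, g τ := by
    funext s
    rw [← intervalIntegral.integral_Ioi_sub_Ioi' (hi 0) (hi s)]; ring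
  rw [e]
  exact (hg.integral_hasStrictDerivAt 0 t).hasDerivAt.const_sub _

theorem intA {κ K : ℝ} {f : ℝ → ℝ} (h : 0 < κ) (hf : Continuous f) (hK : ∀ t, |f t| ≤ K) (s : ℝ) :
    IntegrableOn (fun τ => exp (κ * τ) * f τ) (Iic s) :=
  Integrable.mul_bdd (integrableOn_exp_mul_Iic h s) hf.aestronglyMeasurable (.of_forall hK)

theorem intB {κ K : ℝ} {f : ℝ → ℝ} (h : 0 < κ) (hf : Continuous f) (hK : ∀ t, |f t| ≤ K) (s : ℝ) :
    IntegrableOn (fun τ => exp (-κ * τ) * f τ) (Ioi s) :=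
  Integrable.mul_bdd (integrableOn_exp_mul_Ioi (neg_lt_zero.2 h) s) hf.aestronglyMeasurable
    (.of_forall hK)

theorem bdA {κ K : ℝ} {f : ℝ → ℝ} (h : 0 < κ) (hK : ∀ t, |f t| ≤ K) (s : ℝ) :
    |exp (-κ * s) * ∫ τ in Iic s, exp (κ * τ) * f τ| ≤ K / κ := by
  have h1 : ‖∫ τ in Iic s, exp (κ * τ) * f τ‖ ≤ ∫ τ in Iic s, exp (κ * τ) * K := by
    refine norm_integral_le_of_norm_le ((integrableOn_exp_mul_Iic h s).mul_const K)
      (.of_forall fun τ => ?_)
    rw [Real.norm_eq_abs, abs_mul, abs_of_pos (exp_pos _)]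
    exact mul_le_mul_of_nonneg_left (hK τ) (exp_pos _).le
  rw [integral_mul_const, integral_exp_mul_Iic h, Real.norm_eq_abs] at h1
  rw [abs_mul, abs_of_pos (exp_pos _)]
  refine (mul_le_mul_of_nonneg_left h1 (exp_pos _).le).trans_eq ?_
  have : exp (-κ * s) * exp (κ * s) = 1 := by rw [← exp_add]; simp
  calc exp (-κ * s) * (exp (κ * s) / κ * K) = exp (-κ * s) * exp (κ * s) * (K / κ) := by ring
    _ = K / κ := by rw [this, one_mul]

theorem bdB {κ K : ℝ} {f : ℝ → ℝ} (h : 0 < κ) (hK : ∀ t, |f t| ≤ K) (s : ℝ) :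
    |exp (κ * s) * ∫ τ in Ioi s, exp (-κ * τ) * f τ| ≤ K / κ := by
  have h' : -κ < 0 := neg_lt_zero.2 h
  have h1 : ‖∫ τ in Ioi s, exp (-κ * τ) * f τ‖ ≤ ∫ τ in Ioi s, exp (-κ * τ) * K := by
    refine norm_integral_le_of_norm_le ((integrableOn_exp_mul_Ioi h' s).mul_const K)
      (.of_forall fun τ => ?_)
    rw [Real.norm_eq_abs, abs_mul, abs_of_pos (exp_pos _)]
    exact mul_le_mul_of_nonneg_left (hK τ) (exp_pos _).le
  rw [integral_mul_const, integral_exp_mul_Ioi h', Real.norm_eq_abs] at h1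
  rw [abs_mul, abs_of_pos (exp_pos _)]
  refine (mul_le_mul_of_nonneg_left h1 (exp_pos _).le).trans_eq ?_
  have : exp (κ * s) * exp (-κ * s) = 1 := by rw [← exp_add]; simp
  calc exp (κ * s) * (-exp (-κ * s) / -κ * K) = exp (κ * s) * exp (-κ * s) * (K / κ) := by
        rw [neg_div_neg_eq]; ring
    _ = K / κ := by rw [this, one_mul]

theorem split {κ K : ℝ} {f : ℝ → ℝ} (h : 0 < κ) (hf : Continuous f) (hK : ∀ t, |f t| ≤ K) (s : ℝ) :
    ∫ τ, G κ (s - τ) * f τ = (exp (-κ * s) * (∫ τ in Iic s, exp (κ * τ) * f τ) +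
      exp (κ * s) * ∫ τ in Ioi s, exp (-κ * τ) * f τ) / (2 * κ) := by
  have hi := G_mul_int h hf hK s
  rw [← intervalIntegral.integral_Iic_add_Ioi (b := s) hi.integrableOn hi.integrableOn, add_div,
    ← integral_const_mul, ← integral_const_mul, ← integral_div, ← integral_div]
  congr 1
  · refine setIntegral_congr_fun measurableSet_Iic fun τ hτ => ?_
    have : 0 ≤ s - τ := sub_nonneg.2 hτ
    simp only [G]
    rw [abs_of_nonneg this, ← mul_assoc, ← exp_add]
    have e : -κ * (s - τ) = -κ * s + κ * τ := by ring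
    rw [e]; ring
  · refine setIntegral_congr_fun measurableSet_Ioi fun τ hτ => ?_
    have : s - τ < 0 := sub_neg.2 hτ
    simp only [G]
    rw [abs_of_neg this, ← mul_assoc, ← exp_add]
    have e : -κ * -(s - τ) = κ * s + -κ * τ := by ring
    rw [e]; ring

theorem dexp (c t : ℝ) : HasDerivAt (fun s => exp (c * s)) (exp (c * t) * c) t := by
  simpa using ((hasDerivAt_id t).const_mul c).exp

theorem om2 {δ : ℝ} (h : 0 < δ) (t : ℝ) : om δ t ≤ exp (2 * t) := by
  refine (om_le' δ t).trans ?_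
  have : exp (-δ * |t|) ≤ 1 := exp_le_one_iff.2 (by nlinarith [abs_nonneg t])
  nlinarith [exp_pos (2 * t)]

theorem volBd {δ K : ℝ} {f : ℝ → ℝ} (h : 0 < δ) (hK : ∀ t, |f t| ≤ K * om δ t) (t : ℝ) :
    |f t| ≤ |K| * exp (2 * t) :=
  (hK t).trans (mul_le_mul (le_abs_self K) (om2 h t) (om_pos δ t).le (abs_nonneg K))

theorem kerBd {K : ℝ} {f : ℝ → ℝ} (hK : ∀ t, |f t| ≤ K * exp (2 * t)) (s τ : ℝ) (h : τ ≤ s) :
    |(s - τ) * f τ| ≤ exp (1 * τ) * (K * exp s) := by
  have h0 : 0 ≤ s - τ := sub_nonneg.2 h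
  have h1 : s - τ ≤ exp (s - τ) := by linarith [add_one_le_exp (s - τ)]
  rw [abs_mul, abs_of_nonneg h0]
  refine (mul_le_mul h1 (hK τ) (abs_nonneg _) (exp_pos _).le).trans_eq ?_
  have : exp (s - τ) * exp (2 * τ) = exp (1 * τ) * exp s := by
    rw [← exp_add, ← exp_add]; congr 1; ring
  calc exp (s - τ) * (K * exp (2 * τ)) = K * (exp (s - τ) * exp (2 * τ)) := by ring
    _ = _ := by rw [this]; ring

theorem volI {K : ℝ} {f : ℝ → ℝ} (hf : Continuous f) (hK : ∀ t, |f t| ≤ K * exp (2 * t)) (s : ℝ) :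
    IntegrableOn f (Iic s) :=
  Integrable.mono' ((integrableOn_exp_mul_Iic two_pos s).const_mul K) hf.aestronglyMeasurable
    (.of_forall hK)

theorem volJ {K : ℝ} {f : ℝ → ℝ} (hf : Continuous f) (hK : ∀ t, |f t| ≤ K * exp (2 * t)) (s : ℝ) :
    IntegrableOn (fun τ => (s - τ) * f τ) (Iic s) := by
  refine Integrable.mono' ((integrableOn_exp_mul_Iic one_pos s).mul_const (K * exp s))
    (by fun_prop : Continuous fun τ => (s - τ) * f τ).aestronglyMeasurable ?_
  exact (ae_restrict_iff' measurableSet_Iic).2 (.of_forall fun τ hτ => kerBd hK s τ hτ)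

theorem volK {K : ℝ} {f : ℝ → ℝ} (hf : Continuous f) (hK : ∀ t, |f t| ≤ K * exp (2 * t)) (s : ℝ) :
    IntegrableOn (fun τ => τ * f τ) (Iic s) := by
  have := ((volI hf hK s).const_mul s).sub (volJ hf hK s)
  refine this.congr (.of_forall fun τ => ?_)
  simp only [Pi.sub_apply]; ring

theorem volEq (f : ℝ → ℝ) (s : ℝ) :
    ∫ τ, max (s - τ) 0 * f τ = ∫ τ in Iic s, (s - τ) * f τ := by
  rw [← integral_indicator measurableSet_Iic]
  congr 1
  funext τ
  by_cases h : τ ≤ s
  · rw [indicator_of_mem (show τ ∈ Iic s from h), max_eq_left (sub_nonneg.2 h)]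
  · rw [indicator_of_notMem (show τ ∉ Iic s from h), max_eq_right (by linarith [not_le.1 h]),
      zero_mul]

end GreenA

open GreenA in
theorem green : SGreen := by
  intro κ K f h hf hK
  have dA := dIic (g := fun τ => exp (κ * τ) * f τ) (by fun_prop) (intA h hf hK)
  have dB := dIoi (g := fun τ => exp (-κ * τ) * f τ) (by fun_prop) (intB h hf hK)
  have one : ∀ t, exp (-κ * t) * exp (κ * t) = 1 := fun t => by rw [← exp_add]; simp
  refine ⟨fun s => (-(exp (-κ * s) * ∫ τ in Iic s, exp (κ * τ) * f τ) +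
    exp (κ * s) * ∫ τ in Ioi s, exp (-κ * τ) * f τ) / 2, fun t => ?_, fun t => ?_, fun t => ?_,
    fun t => ?_⟩
  · rw [funext (split h hf hK)]
    refine ((((dexp (-κ) t).mul (dA t)).add ((dexp κ t).mul (dB t))).div_const (2 * κ)).congr_deriv ?_
    field_simp
    ring
  · refine ((((dexp (-κ) t).mul (dA t)).neg.add ((dexp κ t).mul (dB t))).div_const 2).congr_deriv ?_
    rw [split h hf hK]
    have h1 := one t
    rw [neg_mul] at h1
    field_simp
    linear_combination (-2 * f t) * h1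
  · rw [split h hf hK, abs_div, abs_of_pos (by positivity : 0 < 2 * κ), div_le_iff₀ (by positivity)]
    refine (abs_add_le _ _).trans ((add_le_add (bdA h hK t) (bdB h hK t)).trans_eq ?_)
    field_simp
    ring
  · rw [abs_div, abs_two, div_le_iff₀ two_pos]
    refine (abs_add_le _ _).trans ?_
    rw [abs_neg]
    linarith [bdA h hK t, bdB h hK t]

open GreenA in
theorem volt : SVolt := by
  intro δ K f h hf hK
  have hb := volBd h hK
  have dA := dIic hf (volI hf hb)
  have dB := dIic (g := fun τ => τ * f τ) (by fun_prop) (volK hf hb)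
  refine ⟨fun s => ∫ τ in Iic s, f τ, fun t => ?_, dA, ?_⟩
  · have e : (fun s => ∫ τ, max (s - τ) 0 * f τ) =
        fun s => s * (∫ τ in Iic s, f τ) - ∫ τ in Iic s, τ * f τ := by
      funext s
      rw [volEq, ← integral_const_mul, ← integral_sub ((volI hf hb s).const_mul s) (volK hf hb s)]
      congr 1
      funext τ
      ring
    rw [e]
    refine (((hasDerivAt_id t).mul (dA t)).sub (dB t)).congr_deriv ?_
    simp
  · have hle : ∀ s, ‖∫ τ, max (s - τ) 0 * f τ‖ ≤ exp s * (|K| * exp s) := by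
      intro s
      rw [volEq]
      refine (norm_integral_le_of_norm_le
        ((integrableOn_exp_mul_Iic one_pos s).mul_const (|K| * exp s))
        ((ae_restrict_iff' measurableSet_Iic).2 (.of_forall fun τ hτ => kerBd hb s τ hτ))).trans_eq ?_
      rw [integral_mul_const, integral_exp_mul_Iic one_pos]
      simp
    refine squeeze_zero_norm hle ?_
    simpa using tendsto_exp_atBot.mul (tendsto_exp_atBot.const_mul |K|)

end Pool.Agent.MP_ad2fa1_an.H64
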