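import Pool.Agent.MP_ad2fa1_an.H64.Spec

/-!
The maximum principle on a half-line.
-/

set_option autoImplicit false

namespace Pool.Agent.MP_ad2fa1_an.H64

open Real Set Filter Topology

namespace HalfA

theorem second {F G : ℝ → ℝ} {T s c : ℝ} (hF : ∀ t ≥ T, HasDerivAt F (G t) t)
    (hG : HasDerivAt G c s) (hc : c < 0) (hs : T ≤ s) (hm : IsLocalMin F s) : False := by
  have h0 : G s = 0 := hm.hasDerivAt_eq_zero (hF s hs)
  have h1 : ∀ᶠ t in 𝓝[>] s, slope G s t < 0 :=
    ((hasDerivAt_iff_tendsto_slope.1 hG).mono_left (nhdsGT_le_nhdsNE s)).eventually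
      (eventually_lt_nhds hc)
  have h2 : ∀ᶠ t in 𝓝[>] s, F s ≤ F t := hm.filter_mono nhdsWithin_le_nhds
  obtain ⟨u, hu, hI⟩ := mem_nhdsGT_iff_exists_Ioc_subset.1 (h1.and h2)
  obtain ⟨x, hx, e⟩ := exists_hasDerivAt_eq_slope F G hu
    (fun t ht => (hF t (hs.trans ht.1)).continuousAt.continuousWithinAt)
    fun t ht => hF t (hs.trans ht.1.le)
  have h3 := (hI ⟨hx.1, hx.2.le⟩).1
  have h4 := (hI ⟨hu, le_rfl⟩).2
  rw [slope_def_field, h0, sub_zero, e] at h3
  exact h3.not_ge (div_nonneg (div_nonneg (sub_nonneg.2 h4) (sub_nonneg.2 (le_of_lt hu)))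
    (sub_nonneg.2 hx.1.le))

end HalfA

theorem half : SHalf := by
  intro R R1 q T K hR hR1 hq hK h0 t0 ht0
  by_contra hneg
  rw [not_le] at hneg
  have hl : ∀ t ≥ T, 0 ≤ log (t - T + 1) := fun t ht => log_nonneg (by linarith)
  obtain ⟨ε, hε, hε0⟩ : ∃ ε > 0, R t0 + ε * log (t0 - T + 1) < 0 := by
    have := hl t0 ht0
    refine ⟨-R t0 / (log (t0 - T + 1) + 1), div_pos (neg_pos.2 hneg) (by linarith), ?_⟩
    have h1 : -R t0 / (log (t0 - T + 1) + 1) * log (t0 - T + 1) < -R t0 := by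
      rw [div_mul_eq_mul_div, div_lt_iff₀ (by linarith)]
      linarith
    linarith
  have hF : ∀ t ≥ T, HasDerivAt (fun t => R t + ε * log (t - T + 1)) (R1 t + ε * (t - T + 1)⁻¹) t :=
    fun t ht => by
      have := (((hasDerivAt_id' t).sub_const T).add_const 1).log (by linarith : t - T + 1 ≠ 0)
      rw [one_div] at this
      exact (hR t ht).add (this.const_mul ε)
  set B := max t0 (T + exp (K / ε)) with hB
  have hTB : T ≤ B := ht0.trans (le_max_left _ _)
  have hFB : 0 ≤ R B + ε * log (B - T + 1) := by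
    have h1 : K / ε ≤ log (B - T + 1) := by
      rw [le_log_iff_exp_le (by linarith)]
      linarith [le_max_right t0 (T + exp (K / ε))]
    rw [div_le_iff₀ hε] at h1
    linarith [hK B hTB]
  obtain ⟨s, hs, hm⟩ := (isCompact_Icc (a := T) (b := B)).exists_isMinOn ⟨T, le_rfl, hTB⟩
    fun t ht => (hF t ht.1).continuousAt.continuousWithinAt
  have hs0 : R s + ε * log (s - T + 1) < 0 := lt_of_le_of_lt (hm ⟨ht0, le_max_left _ _⟩) hε0
  have h1 : T < s := lt_of_le_of_ne hs.1 fun h => by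
    rw [← h] at hs0
    simp at hs0
    linarith
  have h2 : s < B := lt_of_le_of_ne hs.2 fun h => by
    rw [h] at hs0
    linarith
  have hp : 0 < s - T + 1 := by linarith
  have hG := (hR1 s hs.1).add
    (((((hasDerivAt_id' s).sub_const T).add_const 1).inv hp.ne').const_mul ε)
  refine HalfA.second hF hG ?_ hs.1 (hm.isLocalMin (Icc_mem_nhds h1 h2))
  have h3 : R s ≤ 0 := by nlinarith [hl s hs.1]
  have h4 : -1 / (s - T + 1) ^ 2 < 0 := div_neg_of_neg_of_pos (by norm_num) (by positivity)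
  nlinarith [mul_nonneg (hq s hs.1) (neg_nonneg.2 h3), mul_pos hε (neg_pos.2 h4)]

theorem mp : SMp := by
  rintro V φ T j hT ⟨L, L1, R, R1, K, hL, hR, dL, dL1, dR, dR1, -, bL, -, bR⟩ hV h0 t
  rcases le_total T t with ht | ht
  · rw [hR t ht]
    refine half R R1 (fun t => 4 - V t) T K (fun s _ => dR s) (fun s hs => ?_) (fun s hs => ?_)
      (fun s hs => (abs_le.1 (bR s hs).1).1) ?_ t ht
    · have := dR1 s
      rwa [hR s hs, ← sub_mul] at this
    · linarith [hV s (hs.trans (le_abs_self s))]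
    · rw [← hR T le_rfl]
      exact h0 T ⟨by linarith, le_rfl⟩
  rcases le_total (-T) t with ht' | ht'
  · exact h0 t ⟨ht', ht⟩
  have := half (fun s => L (-s)) (fun s => -L1 (-s)) (fun s => 4 - V (-s)) T |K|
    (fun s _ => ?_) (fun s hs => ?_) (fun s hs => ?_) (fun s hs => ?_) ?_ (-t) (by linarith)
  · rw [hL t ht]
    simpa using this
  · have := (dL (-s)).comp s (hasDerivAt_neg s)
    rw [mul_neg, mul_one] at this
    exact this
  · have := ((dL1 (-s)).comp s (hasDerivAt_neg s)).neg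
    rw [hL (-s) (by linarith), ← sub_mul, mul_neg, mul_one, neg_neg] at this
    exact this
  · linarith [hV (-s) (hs.trans (by rw [abs_neg]; exact le_abs_self s))]
  · have h1 := (abs_le.1 (bL (-s) (by linarith)).1).1
    have h2 : exp (2 * -s) ≤ 1 := exp_le_one_iff.2 (by linarith)
    have h3 := exp_pos (2 * -s)
    nlinarith [le_abs_self K, abs_nonneg K]
  · show 0 ≤ L (-T)
    rw [← hL (-T) (by linarith)]
    exact h0 (-T) ⟨le_rfl, by linarith⟩

end Pool.Agent.MP_ad2fa1_an.H64
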