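import Pool.Agent.MP_ad2fa1_an.H64.Spec

/-!
The hypotheses (H1)-(H8) for the Chern-Simons nonlinearity.
-/

set_option autoImplicit false

noncomputable section

namespace Pool.Agent.MP_ad2fa1_an.H64

open Real Set Filter Topology MeasureTheory
open Pool.Agent.MP_ad2fa1_an.H33 (Hyp)

namespace HypA

/-- The derivative of the extended nonlinearity. -/
def kk (u : ℝ) : ℝ := (exp (min u 0) - 2 * exp (2 * min u 0)) * exp (-max u 0)

/-- The extended nonlinearity. -/
def gg (u : ℝ) : ℝ := ∫ t in (0 : ℝ)..u, kk t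

theorem kk_cont : Continuous kk := by unfold kk; fun_prop

theorem exp_two (u : ℝ) : exp (2 * u) = exp u * exp u := by rw [← exp_add, two_mul]

theorem kk_neg {u : ℝ} (h : u ≤ 0) : kk u = exp u - 2 * exp (2 * u) := by
  simp [kk, min_eq_left h, max_eq_right h]

theorem kk_pos {u : ℝ} (h : 0 ≤ u) : kk u = -exp (-u) := by
  simp only [kk, min_eq_right h, max_eq_left h, mul_zero, exp_zero]
  ring

theorem gg_deriv (u : ℝ) : HasDerivAt gg (kk u) u :=
  (kk_cont.integral_hasStrictDerivAt 0 u).hasDerivAt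

theorem gg_deriv_eq : deriv gg = kk := funext fun u => (gg_deriv u).deriv

theorem gg_cont : Continuous gg :=
  continuous_iff_continuousAt.mpr fun u => (gg_deriv u).continuousAt

theorem gg_neg {u : ℝ} (h : u ≤ 0) : gg u = exp u - exp (2 * u) := by
  unfold gg
  rw [intervalIntegral.integral_congr (g := fun t => exp t - 2 * exp (2 * t))]
  · have : ∀ t ∈ uIcc (0 : ℝ) u, HasDerivAt (fun t : ℝ => exp t - exp (2 * t))
        (exp t - 2 * exp (2 * t)) t := by
      intro t _
      refine ((hasDerivAt_exp t).fun_sub ((hasDerivAt_id t).const_mul 2).exp).congr_deriv ?_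
      simp only [id]
      ring
    rw [intervalIntegral.integral_eq_sub_of_hasDerivAt this
      (Continuous.intervalIntegrable (by fun_prop) _ _)]
    simp
  · intro t ht
    rw [uIcc_of_ge h] at ht
    exact kk_neg ht.2

theorem gg_pos {u : ℝ} (h : 0 ≤ u) : gg u = exp (-u) - 1 := by
  unfold gg
  rw [intervalIntegral.integral_congr (g := fun t => -exp (-t))]
  · have : ∀ t ∈ uIcc (0 : ℝ) u, HasDerivAt (fun t : ℝ => exp (-t)) (-exp (-t)) t := by
      intro t _
      refine ((hasDerivAt_id t).fun_neg.exp).congr_deriv ?_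
      simp only [id]
      ring
    rw [intervalIntegral.integral_eq_sub_of_hasDerivAt this
      (Continuous.intervalIntegrable (by fun_prop) _ _)]
    simp
  · intro t ht
    rw [uIcc_of_le h] at ht
    exact kk_pos ht.1

theorem gg_abs (u : ℝ) : |gg u| ≤ exp u ∧ |gg u| ≤ 1 := by
  rcases le_total u 0 with h | h
  · have h1 : exp u ≤ 1 := exp_le_one_iff.2 h
    have h2 := exp_pos u
    have : |gg u| ≤ exp u := by
      rw [gg_neg h, exp_two, abs_le]
      constructor <;> nlinarith
    exact ⟨this, this.trans h1⟩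
  · have h1 : exp (-u) ≤ 1 := exp_le_one_iff.2 (by linarith)
    have h2 := exp_pos (-u)
    have : |gg u| ≤ 1 := by
      rw [gg_pos h, abs_le]
      constructor <;> linarith
    exact ⟨this.trans (one_le_exp h), this⟩

theorem kk_abs (u : ℝ) : |kk u| ≤ 3 := by
  rcases le_total u 0 with h | h
  · have h1 : exp u ≤ 1 := exp_le_one_iff.2 h
    have h2 := exp_pos u
    rw [kk_neg h, exp_two, abs_le]
    constructor <;> nlinarith
  · have h1 : exp (-u) ≤ 1 := exp_le_one_iff.2 (by linarith)
    have h2 := exp_pos (-u)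
    rw [kk_pos h, abs_le]
    constructor <;> linarith

theorem gg_gt {u : ℝ} (h : u < 0) : 0 < gg u := by
  rw [gg_neg h.le, sub_pos]
  exact exp_lt_exp.2 (by linarith)

theorem exp_half {u : ℝ} (h : u ≤ -1) : exp u ≤ 1 / 2 := by
  have h1 := add_one_le_exp (-u)
  have h2 : exp u * exp (-u) = 1 := by rw [← exp_add]; simp
  nlinarith [exp_pos u]

theorem gg_int (u : ℝ) : IntegrableOn gg (Iic u) :=
  (integrableOn_exp_Iic u).mono' gg_cont.aestronglyMeasurable
    (Eventually.of_forall fun t => (gg_abs t).1)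

theorem gg_integral {u : ℝ} (h : u ≤ 0) : ∫ s in Iic u, gg s = exp u - exp (2 * u) / 2 := by
  rw [setIntegral_congr_fun measurableSet_Iic (g := fun s => exp s - exp (2 * s))
    (fun s hs => gg_neg (le_trans hs h)), integral_sub (integrableOn_exp_Iic u)
    (integrableOn_exp_mul_Iic two_pos u), integral_exp_Iic, integral_exp_mul_Iic two_pos]

theorem lint_fin {c M : ℝ} (hc : 0 < c) (hM : 2 < M) :
    ∫⁻ t in Ioi (0 : ℝ), ENNReal.ofReal (exp (2 * t) * c * gg (-M * t)) < ⊤ := by
  have h1 : IntegrableOn (fun t : ℝ => c * exp (-(M - 2) * t)) (Ioi 0) :=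
    (exp_neg_integrableOn_Ioi 0 (sub_pos.mpr hM)).const_mul c
  refine lt_of_le_of_lt (lintegral_mono fun t => ?_) h1.lintegral_lt_top
  apply ENNReal.ofReal_le_ofReal
  have h2 : exp (-(M - 2) * t) = exp (2 * t) * exp (-M * t) := by
    rw [← exp_add]; congr 1; ring
  rw [h2, ← mul_assoc, mul_comm c]
  exact mul_le_mul_of_nonneg_left ((le_abs_self _).trans (gg_abs _).1) (by positivity)

theorem lint_inf {c M : ℝ} (hc : 0 < c) (hM0 : 0 < M) (hM : M ≤ 2) :
    ∫⁻ t in Ioi (0 : ℝ), ENNReal.ofReal (exp (2 * t) * c * gg (-M * t)) = ⊤ := by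
  apply top_unique
  have h1 : ∫⁻ _ in Ioi (M⁻¹), ENNReal.ofReal (c / 2) = ⊤ := by
    rw [setLIntegral_const, volume_Ioi, ENNReal.mul_top]
    simpa using hc
  rw [← h1]
  calc ∫⁻ _ in Ioi (M⁻¹), ENNReal.ofReal (c / 2)
      ≤ ∫⁻ t in Ioi (M⁻¹), ENNReal.ofReal (exp (2 * t) * c * gg (-M * t)) := by
        refine setLIntegral_mono' measurableSet_Ioi fun t ht => ENNReal.ofReal_le_ofReal ?_
        have ht' : M⁻¹ < t := ht
        have ht0 : 0 < t := lt_trans (inv_pos.mpr hM0) ht'
        have h2 : 1 < M * t := by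
          have := mul_lt_mul_of_pos_left ht' hM0
          rwa [mul_inv_cancel₀ hM0.ne'] at this
        have h3 := exp_half (u := -M * t) (by linarith)
        have h4 : 1 ≤ exp (2 * t) * exp (-M * t) := by
          rw [← exp_add]
          exact one_le_exp (by nlinarith)
        rw [gg_neg (by linarith), exp_two (-M * t)]
        have h5 : exp (2 * t) * c * (exp (-M * t) - exp (-M * t) * exp (-M * t)) =
            c * (exp (2 * t) * exp (-M * t) * (1 - exp (-M * t))) := by ring
        rw [h5, div_eq_mul_one_div]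
        refine mul_le_mul_of_nonneg_left ?_ hc.le
        nlinarith
    _ ≤ _ := lintegral_mono_set (Ioi_subset_Ioi (inv_pos.mpr hM0).le)

theorem hyp_gg {c : ℝ} (hc : 0 < c) : Hyp (fun t => exp (2 * t) * c) gg := by
  have hd : ∀ t, HasDerivAt (fun t => exp (2 * t) * c) (exp (2 * t) * 2 * c) t :=
    fun t => by simpa using (((hasDerivAt_id t).const_mul 2).exp).mul_const c
  have hd' : ∀ t, deriv (fun t => exp (2 * t) * c) t = exp (2 * t) * 2 * c :=
    fun t => (hd t).deriv
  have hq : ∀ t, deriv (fun t => exp (2 * t) * c) t / (exp (2 * t) * c) = 2 := fun t => by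
    rw [hd']; field_simp
  refine ⟨⟨by fun_prop, ?_, ?_, 4, ?_⟩, ⟨fun t => by positivity, ?_, ?_, fun u hu => gg_gt hu⟩,
    fun t => by rw [hd']; positivity, ⟨3, by norm_num, ?_, lint_fin hc (by norm_num)⟩,
    ⟨?_, ?_⟩, ⟨gg_int, 2, 1, ?_, ?_, fun t => (hq t).ge, ?_⟩, 1 / 2, by norm_num, ?_⟩
  · refine contDiff_one_iff_deriv.mpr ⟨fun u => (gg_deriv u).differentiableAt, ?_⟩
    rw [gg_deriv_eq]
    exact kk_cont
  · have h1 : IntegrableOn (fun t : ℝ => c * exp t) (Iic 0) :=
      (integrableOn_exp_Iic 0).const_mul _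
    refine h1.mono' (Continuous.aestronglyMeasurable (by fun_prop)) ?_
    filter_upwards [ae_restrict_mem measurableSet_Iic] with t ht
    have ht' : t ≤ 0 := ht
    rw [norm_mul, norm_eq_abs, norm_eq_abs, abs_of_nonpos ht', abs_of_pos (by positivity)]
    have h2 : -t ≤ exp (-t) := by linarith [add_one_le_exp (-t)]
    have h4 : exp (-t) * exp (2 * t) = exp t := by
      rw [← exp_add]; congr 1; ring
    calc -t * (exp (2 * t) * c) ≤ exp (-t) * (exp (2 * t) * c) := by gcongr
      _ = c * exp t := by rw [← h4]; ring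
  · intro u
    rw [gg_deriv_eq]
    linarith [(gg_abs u).2, kk_abs u]
  · exact (tendsto_exp_atTop.comp (tendsto_id.const_mul_atTop two_pos)).atTop_mul_const hc
  · simp [gg]
  · intro u hu
    have h1 := exp_half (u := u + 1) (by linarith)
    have h2 : exp u < exp (u + 1) := exp_lt_exp.2 (by linarith)
    rw [gg_deriv_eq, kk_neg (by linarith), exp_two]
    nlinarith [exp_pos u]
  · have : {M : ℝ | 0 < M ∧
        ∫⁻ s in Ioi (0 : ℝ), ENNReal.ofReal (exp (2 * s) * c * gg (-M * s)) < ⊤} = Ioi 2 := by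
      ext M
      constructor
      · rintro ⟨h1, h2⟩
        by_contra h3
        rw [lint_inf hc h1 (not_lt.mp h3)] at h2
        exact lt_irrefl _ h2
      · intro h
        exact ⟨lt_trans two_pos h, lint_fin hc h⟩
    rw [this, csInf_Ioi]
    exact lint_inf hc two_pos le_rfl
  · intro d hd0
    refine ⟨exp (-(2 * d)), exp_pos _, fun t _ => le_of_eq ?_⟩
    rw [eq_div_iff (by positivity), ← mul_assoc, ← exp_add]
    congr 2
    ring
  · simp only [hq]
    exact tendsto_const_nhds
  · have h1 : Tendsto (fun u : ℝ => (1 - exp u / 2) / (1 - exp u)) atBot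
        (𝓝 ((1 - 0 / 2) / (1 - 0))) :=
      ((tendsto_exp_atBot.div_const 2).const_sub 1).div (tendsto_exp_atBot.const_sub 1)
        (by norm_num)
    rw [zero_div, sub_zero, div_one] at h1
    refine h1.congr' ?_
    filter_upwards [eventually_le_atBot (-1 : ℝ)] with u hu
    have h2 := exp_half hu
    have h3 := exp_pos u
    have h4 : 1 - exp u ≠ 0 := by linarith
    rw [gg_integral (by linarith), gg_neg (by linarith), exp_two,
      show exp u - exp u * exp u = exp u * (1 - exp u) by ring]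
    field_simp
  · intro u hu
    rw [le_div_iff₀ (gg_gt hu), one_mul, gg_integral hu.le, gg_neg hu.le]
    linarith [exp_pos (2 * u)]
  · intro u hu
    have h1 := add_one_le_exp u
    rw [gg_deriv_eq, kk_neg hu.2, exp_two]
    nlinarith [exp_pos u, hu.1]

end HypA

open HypA in
theorem hyp : SHyp := by
  intro c hc
  refine ⟨fun s => gg (log s), fun s h0 h1 => ?_, ?_⟩
  · simp only
    rw [gg_neg (log_nonpos h0.le h1), exp_two, exp_log h0]
    ring
  · simp only [log_exp]
    exact hyp_gg hc

end Pool.Agent.MP_ad2fa1_an.H64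

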