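import Pool.Agent.MP_ad2fa1_an.H64.Spec

/-!
Integral operators on bounded continuous functions, and continuous families of decaying functions.
-/

set_option autoImplicit false
set_option linter.unusedVariables false

noncomputable section

namespace Pool.Agent.MP_ad2fa1_an.H64

open Real Set Filter Topology MeasureTheory BoundedContinuousFunction Function

namespace KopA

variable {E F : Type} [NormedAddCommGroup E] [NormedSpace ℝ E] [NormedAddCommGroup F]
  [NormedSpace ℝ F] {k : ℝ → ℝ → E →L[ℝ] F}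

theorem cont_app (hk : Continuous (uncurry k)) (x : ℝ →ᵇ E) :
    Continuous fun p : ℝ × ℝ => k p.1 p.2 (x p.2) :=
  hk.clm_apply (x.continuous.comp continuous_snd)

theorem norm_app (x : ℝ →ᵇ E) (t τ : ℝ) : ‖k t τ (x τ)‖ ≤ ‖k t τ‖ * ‖x‖ :=
  ((k t τ).le_opNorm _).trans (mul_le_mul_of_nonneg_left (x.norm_coe_le_norm τ) (norm_nonneg _))

theorem int_norm (hk : Continuous (uncurry k))
    (hD : ∀ B : ℝ, ∃ D : ℝ → ℝ, Integrable D ∧ ∀ t, |t| ≤ B → ∀ τ, ‖k t τ‖ ≤ D τ) (t : ℝ) :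
    Integrable fun τ => ‖k t τ‖ := by
  obtain ⟨D, hI, hb⟩ := hD |t|
  have hc : Continuous fun τ => ‖k t τ‖ := (hk.comp (Continuous.prodMk_right t)).norm
  exact hI.mono' hc.aestronglyMeasurable
    (Eventually.of_forall fun τ => by rw [norm_norm]; exact hb t le_rfl τ)

theorem int_app (hk : Continuous (uncurry k))
    (hD : ∀ B : ℝ, ∃ D : ℝ → ℝ, Integrable D ∧ ∀ t, |t| ≤ B → ∀ τ, ‖k t τ‖ ≤ D τ) (x : ℝ →ᵇ E)
    (t : ℝ) : Integrable fun τ => k t τ (x τ) :=
  ((int_norm hk hD t).mul_const ‖x‖).mono'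
    ((cont_app hk x).comp (Continuous.prodMk_right t)).aestronglyMeasurable
    (Eventually.of_forall fun τ => norm_app x t τ)

theorem cont_int (hk : Continuous (uncurry k))
    (hD : ∀ B : ℝ, ∃ D : ℝ → ℝ, Integrable D ∧ ∀ t, |t| ≤ B → ∀ τ, ‖k t τ‖ ≤ D τ) (x : ℝ →ᵇ E) :
    Continuous fun t => ∫ τ, k t τ (x τ) := by
  refine continuous_iff_continuousAt.2 fun t0 => ?_
  obtain ⟨D, hI, hb⟩ := hD (|t0| + 1)
  refine continuousAt_of_dominated (bound := fun τ => D τ * ‖x‖)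
    (Eventually.of_forall fun t =>
      ((cont_app hk x).comp (Continuous.prodMk_right t)).aestronglyMeasurable) ?_
    (hI.mul_const _) (Eventually.of_forall fun τ =>
      ((cont_app hk x).comp (Continuous.prodMk_left τ)).continuousAt)
  have h1 : ∀ᶠ t in 𝓝 t0, |t| < |t0| + 1 :=
    continuous_abs.continuousAt.eventually (gt_mem_nhds (lt_add_one _))
  filter_upwards [h1] with t ht
  exact Eventually.of_forall fun τ => (norm_app x t τ).trans
    (mul_le_mul_of_nonneg_right (hb t ht.le τ) (norm_nonneg _))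

theorem norm_int (hk : Continuous (uncurry k))
    (hD : ∀ B : ℝ, ∃ D : ℝ → ℝ, Integrable D ∧ ∀ t, |t| ≤ B → ∀ τ, ‖k t τ‖ ≤ D τ) {C : ℝ}
    (hC : ∀ t, ∫ τ, ‖k t τ‖ ≤ C) (x : ℝ →ᵇ E) (t : ℝ) : ‖∫ τ, k t τ (x τ)‖ ≤ C * ‖x‖ := by
  refine (norm_integral_le_of_norm_le ((int_norm hk hD t).mul_const ‖x‖)
    (Eventually.of_forall fun τ => norm_app x t τ)).trans ?_
  rw [integral_mul_const]
  exact mul_le_mul_of_nonneg_right (hC t) (norm_nonneg _)

theorem bdd {E : Type} [NormedAddCommGroup E] {f : ℝ → E} {h : ℝ → ℝ} (hf : Continuous f)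
    (hh : Tendsto h (cocompact ℝ) (𝓝 0)) (hb : ∀ τ, ‖f τ‖ ≤ h τ) : ∃ C, ∀ τ, ‖f τ‖ ≤ C := by
  obtain ⟨K, hK, hs⟩ := mem_cocompact.1 (hh.eventually (gt_mem_nhds one_pos))
  obtain ⟨C, hC⟩ := hK.exists_bound_of_continuousOn hf.continuousOn
  refine ⟨max C 1, fun τ => ?_⟩
  by_cases hτ : τ ∈ K
  · exact (hC τ hτ).trans (le_max_left _ _)
  · exact ((hb τ).trans (le_of_lt (hs hτ))).trans (le_max_right _ _)

end KopA

theorem kop : SKop := by
  intro E F _ _ _ _ _ k hk hD ⟨C, hC⟩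
  have hC0 : 0 ≤ C := (integral_nonneg fun τ => norm_nonneg _).trans (hC 0)
  let K0 : (ℝ →ᵇ E) →ₗ[ℝ] ℝ →ᵇ F :=
    { toFun := fun x => ofNormedAddCommGroup (fun t => ∫ τ, k t τ (x τ)) (KopA.cont_int hk hD x)
        (C * ‖x‖) (KopA.norm_int hk hD hC x)
      map_add' := fun x y => by
        ext t
        show ∫ τ, k t τ ((x + y) τ) = (∫ τ, k t τ (x τ)) + ∫ τ, k t τ (y τ)
        rw [← integral_add (KopA.int_app hk hD x t) (KopA.int_app hk hD y t)]
        refine integral_congr_ae (Eventually.of_forall fun τ => ?_)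
        show k t τ (x τ + y τ) = k t τ (x τ) + k t τ (y τ)
        exact map_add _ _ _
      map_smul' := fun c x => by
        ext t
        show ∫ τ, k t τ ((c • x) τ) = c • ∫ τ, k t τ (x τ)
        rw [← integral_smul]
        refine integral_congr_ae (Eventually.of_forall fun τ => ?_)
        show k t τ (c • x τ) = c • k t τ (x τ)
        exact map_smul _ _ _ }
  exact ⟨K0.mkContinuous C fun x => (norm_le (mul_nonneg hC0 (norm_nonneg x))).2
    (KopA.norm_int hk hD hC x), fun x t => rfl⟩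

theorem bc : SBc := by
  intro E _ F h a b hF hh hb
  have hc : ∀ l, Continuous (F l) := fun l => hF.comp (Continuous.prodMk_right l)
  have hex : ∀ l, ∃ v : ℝ →ᵇ E, l ∈ Icc a b → ∀ τ, v τ = F l τ := by
    intro l
    by_cases hl : l ∈ Icc a b
    · obtain ⟨C, hC⟩ := KopA.bdd (hc l) hh (hb l hl)
      exact ⟨ofNormedAddCommGroup (F l) (hc l) C hC, fun _ _ => rfl⟩
    · exact ⟨0, fun h' => absurd h' hl⟩
  choose v hv using hex
  refine ⟨v, fun l0 hl0 => ?_, hv⟩
  refine Metric.tendsto_nhds.2 fun ε hε => ?_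
  obtain ⟨K, hK, hs⟩ := mem_cocompact.1 (hh.eventually (gt_mem_nhds (show 0 < ε / 4 by linarith)))
  have h1 : ∀ᶠ l in 𝓝 l0, ∀ τ ∈ K, dist (F l τ) (F l0 τ) < ε / 2 := by
    refine hK.eventually_forall_of_forall_eventually fun τ _ => ?_
    have h2 : Continuous fun p : ℝ × ℝ => dist (F p.1 p.2) (F l0 p.2) :=
      hF.dist ((hc l0).comp continuous_snd)
    refine h2.continuousAt.eventually (gt_mem_nhds ?_)
    show dist (F l0 τ) (F l0 τ) < ε / 2
    rw [dist_self]; linarith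
  filter_upwards [mem_nhdsWithin_of_mem_nhds h1, self_mem_nhdsWithin] with l h3 hl
  refine lt_of_le_of_lt ((dist_le (show 0 ≤ ε / 2 by linarith)).2 fun τ => ?_) (by linarith)
  rw [hv l hl, hv l0 hl0]
  by_cases hτ : τ ∈ K
  · exact (h3 τ hτ).le
  · have h4 : h τ < ε / 4 := hs hτ
    rw [dist_eq_norm]
    linarith [norm_sub_le (F l τ) (F l0 τ), hb l hl τ, hb l0 hl0 τ]

end Pool.Agent.MP_ad2fa1_an.H64
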