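import Pool.Agent.MP_ad2fa1_an.H64.Spec

/-!
The integral operators of the mode equations.
-/

set_option autoImplicit false
set_option linter.unusedVariables false

noncomputable section

namespace Pool.Agent.MP_ad2fa1_an.H64

open Real Set Filter Topology MeasureTheory BoundedContinuousFunction Function

namespace OpsA

theorem scal (hK : SKop) (k : ℝ → ℝ → ℝ) (hc : Continuous (uncurry k)) (D : ℝ → ℝ)
    (hD : Integrable D) (h : ∀ t τ, |k t τ| ≤ D τ) :
    ∃ K : (ℝ →ᵇ ℝ) →L[ℝ] ℝ →ᵇ ℝ, ∀ x t, K x t = ∫ τ, k t τ * x τ := by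
  have hn : ∀ t τ, ‖k t τ • ContinuousLinearMap.id ℝ ℝ‖ ≤ D τ := by
    intro t τ
    rw [norm_smul, ContinuousLinearMap.norm_id, mul_one]
    exact h t τ
  obtain ⟨K, hK⟩ := hK ℝ ℝ (fun t τ => k t τ • ContinuousLinearMap.id ℝ ℝ)
    (hc.smul continuous_const) (fun B => ⟨D, hD, fun t _ τ => hn t τ⟩)
    ⟨∫ τ, D τ, fun t => integral_mono_of_nonneg (Eventually.of_forall fun τ => norm_nonneg _) hD
      (Eventually.of_forall fun τ => hn t τ)⟩
  exact ⟨K, fun x t => by rw [hK]; simp⟩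

theorem rho_le {δ : ℝ} (h : 0 < δ) (τ : ℝ) :
    rho τ * exp (-δ * |τ|) ≤ (1 + 2 / δ) * exp (-(δ / 2) * |τ|) := by
  have h0 : 0 ≤ δ / 2 * |τ| := by positivity
  have h1 : δ / 2 * |τ| + 1 ≤ exp (δ / 2 * |τ|) := add_one_le_exp _
  have h2 : rho τ ≤ (1 + 2 / δ) * exp (δ / 2 * |τ|) := by
    have e : |τ| = 2 / δ * (δ / 2 * |τ|) := by field_simp
    have h3 : 2 / δ * (δ / 2 * |τ|) ≤ 2 / δ * exp (δ / 2 * |τ|) :=
      mul_le_mul_of_nonneg_left (by linarith) (by positivity)
    unfold rho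
    nlinarith
  have e : exp (-(δ / 2) * |τ|) = exp (δ / 2 * |τ|) * exp (-δ * |τ|) := by
    rw [← exp_add]; congr 1; ring
  rw [e, ← mul_assoc]
  exact mul_le_mul_of_nonneg_right h2 (exp_pos _).le

theorem max_le_rho (t τ : ℝ) : max (t - τ) 0 ≤ rho t * rho τ := by
  unfold rho
  have h1 := abs_nonneg t
  have h2 := abs_nonneg τ
  have h3 := le_abs_self t
  have h4 := neg_abs_le τ
  have h5 := mul_nonneg h1 h2
  exact max_le (by nlinarith) (by positivity)

theorem w_le (δ T τ : ℝ) :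
    exp (-2 * (τ - T)) / 4 * om δ τ ≤ exp (2 * T) / 4 * exp (-δ * |τ|) := by
  have h1 := om_le' δ τ
  have e : exp (2 * T) = exp (-2 * (τ - T)) * exp (2 * τ) := by
    rw [← exp_add]; congr 1; ring
  have h2 := mul_le_mul_of_nonneg_left h1 (exp_pos (-2 * (τ - T))).le
  rw [e]
  nlinarith

theorem G_two_le (s : ℝ) : G 2 s ≤ 1 / 4 := by
  unfold G
  have : exp (-2 * |s|) ≤ 1 := exp_le_one_iff.2 (by nlinarith [abs_nonneg s])
  linarith

theorem exp_lip {x y : ℝ} (hx : 0 ≤ x) (hy : 0 ≤ y) : |exp (-x) - exp (-y)| ≤ |x - y| := by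
  have key : ∀ x y : ℝ, 0 ≤ x → x ≤ y → |exp (-x) - exp (-y)| ≤ |x - y| := by
    intro x y hx hxy
    have h1 : exp (-y) ≤ exp (-x) := exp_le_exp.2 (by linarith)
    have h2 : exp (-x) ≤ 1 := exp_le_one_iff.2 (by linarith)
    have h3 : x - y + 1 ≤ exp (x - y) := add_one_le_exp _
    have h4 : exp (-y) = exp (-x) * exp (x - y) := by rw [← exp_add]; congr 1; ring
    have h5 := exp_pos (-x)
    rw [abs_of_nonneg (by linarith), abs_of_nonpos (by linarith)]
    nlinarith
  rcases le_total x y with h | h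
  · exact key x y hx h
  · rw [abs_sub_comm, abs_sub_comm x]
    exact key y x hy h

theorem G_lip {κ : ℝ} (h : 0 < κ) (s s' : ℝ) : |G κ s - G κ s'| ≤ |s - s'| := by
  unfold G
  have h1 := exp_lip (x := κ * |s|) (y := κ * |s'|) (by positivity) (by positivity)
  have h2 : |κ * |s| - κ * (|s'|)| ≤ κ * |s - s'| := by
    rw [← mul_sub, abs_mul, abs_of_pos h]
    exact mul_le_mul_of_nonneg_left (abs_abs_sub_abs_le_abs_sub _ _) h.le
  rw [← sub_div, abs_div, abs_of_pos (by positivity : 0 < 2 * κ), div_le_iff₀ (by positivity),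
    neg_mul, neg_mul]
  nlinarith [abs_nonneg (s - s')]

theorem G_anti {κ κ' : ℝ} (h : 0 < κ') (h' : κ' ≤ κ) (s : ℝ) : G κ s ≤ G κ' s := by
  unfold G
  have h1 : exp (-κ * |s|) ≤ exp (-κ' * |s|) := exp_le_exp.2 (by nlinarith [abs_nonneg s])
  exact div_le_div₀ (exp_pos _).le h1 (by positivity) (by linarith)

theorem kap_le (M : ℝ) {n : ℤ} (h : 2 ≤ |n|) : kap M 2 ≤ kap M n := by
  unfold kap
  refine sqrt_le_sqrt ?_
  have h1 : (2 : ℝ) ≤ |(n : ℝ)| := by exact_mod_cast h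
  have h2 : (n : ℝ) ^ 2 = |(n : ℝ)| ^ 2 := (sq_abs _).symm
  push_cast
  nlinarith

theorem kap_two {M : ℝ} (hM : 0 ≤ M) : 0 < kap M 2 := kap_pos hM (by norm_num)

theorem G_shift {κ B t : ℝ} (h : 0 < κ) (ht : |t| ≤ B) (τ : ℝ) :
    G κ (t - τ) ≤ exp (κ * B) * G κ (0 - τ) := by
  unfold G
  rw [← mul_div_assoc, ← exp_add]
  refine div_le_div_of_nonneg_right (exp_le_exp.2 ?_) (by positivity)
  have h1 : |0 - τ| ≤ |t - τ| + |t| := by
    have e : 0 - τ = (t - τ) - t := by ring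
    rw [e]
    exact abs_sub _ _
  nlinarith

/-- The symbol of the high modes. -/
def sy (M s : ℝ) (n : ℤ) : ℝ := if 2 ≤ |n| then G (kap M n) s else 0

theorem sy_le {M : ℝ} (hM : 0 ≤ M) (s : ℝ) (n : ℤ) : ‖sy M s n‖ ≤ G (kap M 2) s := by
  unfold sy
  split_ifs with h
  · have h0 := (kap_two hM).trans_le (kap_le M h)
    rw [Real.norm_eq_abs, abs_of_pos (G_pos h0 s)]
    exact G_anti (kap_two hM) (kap_le M h) s
  · rw [norm_zero]
    exact (G_pos (kap_two hM) s).le

theorem mult {M : ℝ} (hM : 0 ≤ M) : ∃ m : ℝ → ℤ →ᵇ ℝ, Continuous m ∧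
    (∀ s n, m s n = sy M s n) ∧ ∀ s, ‖m s‖ ≤ G (kap M 2) s := by
  refine ⟨fun s => ofNormedAddCommGroupDiscrete (sy M s) _ (sy_le hM s), ?_, fun s n => rfl,
    fun s => (norm_le (G_pos (kap_two hM) s).le).2 fun n => sy_le hM s n⟩
  refine (LipschitzWith.of_dist_le_mul (K := 1) fun s s' => ?_).continuous
  rw [NNReal.coe_one, one_mul]
  refine (dist_le dist_nonneg).2 fun n => ?_
  change dist (sy M s n) (sy M s' n) ≤ dist s s'
  unfold sy
  split_ifs with h
  · exact G_lip ((kap_two hM).trans_le (kap_le M h)) s s'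
  · rw [dist_self]
    exact dist_nonneg

end OpsA

open OpsA in
theorem ops : SKop → SOps := by
  intro hK A _ _ _ W δ T M hδ hM
  obtain ⟨k0, h0⟩ := scal hK (fun t τ => -((rho t)⁻¹ * (max (t - τ) 0 * om δ τ)))
    (by
      refine Continuous.neg (Continuous.mul (Continuous.inv₀ ?_ fun p => (rho_pos _).ne') ?_)
      · fun_prop
      · fun_prop)
    (fun τ => (1 + 2 / δ) * exp (-(δ / 2) * |τ|)) ((int_exp_abs (half_pos hδ)).const_mul _)
    (by
      intro t τ
      have a1 := rho_pos t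
      have a2 := om_pos δ τ
      have a3 : 0 ≤ max (t - τ) 0 := le_max_right _ _
      rw [abs_neg, abs_of_nonneg (by positivity)]
      refine le_trans ?_ (rho_le hδ τ)
      rw [inv_mul_le_iff₀ a1, ← mul_assoc]
      exact mul_le_mul (max_le_rho t τ) (om_le δ τ) a2.le (a3.trans (max_le_rho t τ)))
  obtain ⟨k1, h1⟩ := scal hK (fun t τ => K1 T t τ * om δ τ)
    (by unfold K1; fun_prop)
    (fun τ => (1 / 4 + exp (2 * T) / 4) * exp (-δ * |τ|)) ((int_exp_abs hδ).const_mul _)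
    (by
      intro t τ
      have a2 := om_pos δ τ
      have a3 := G_pos (two_pos (α := ℝ)) (t - τ)
      have a4 := G_two_le (t - τ)
      have a5 := eT_pos T t
      have a6 := eT_le T t
      have a7 := w_le δ T τ
      have a8 := om_le δ τ
      have a9 : 0 < exp (-2 * (τ - T)) / 4 * om δ τ := by positivity
      have b1 : G 2 (t - τ) * om δ τ ≤ 1 / 4 * exp (-δ * |τ|) :=
        mul_le_mul a4 a8 a2.le (by norm_num)
      have b2 : eT T t * (exp (-2 * (τ - T)) / 4 * om δ τ) ≤ exp (-2 * (τ - T)) / 4 * om δ τ :=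
        mul_le_of_le_one_left a9.le a6
      have b3 := mul_pos a3 a2
      have b4 := mul_pos a5 a9
      unfold K1
      rw [abs_le]
      constructor <;> nlinarith)
  obtain ⟨k2, h2⟩ := scal hK (fun t τ => exp (-2 * (τ - T)) / 4 * om δ τ)
    (by fun_prop)
    (fun τ => exp (2 * T) / 4 * exp (-δ * |τ|)) ((int_exp_abs hδ).const_mul _)
    (by
      intro t τ
      have a2 := om_pos δ τ
      rw [abs_of_pos (by positivity)]
      exact w_le δ T τ)
  obtain ⟨m, mc, me, mn⟩ := mult hM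
  have hκ := kap_two hM
  have kn : ∀ s, ‖W.mu (m s)‖ ≤ G (kap M 2) s := fun s => (W.norm_mu _).trans (mn s)
  obtain ⟨kh, hh⟩ := hK A A (fun t τ => W.mu (m (t - τ)))
    (W.mu.continuous.comp (mc.comp (continuous_fst.sub continuous_snd)))
    (fun B => ⟨fun τ => exp (kap M 2 * B) * G (kap M 2) (0 - τ), (G_int hκ 0).const_mul _,
      fun t ht τ => (kn _).trans (G_shift hκ ht τ)⟩)
    ⟨1 / kap M 2 ^ 2, fun t => by
      rw [← G_integral hκ t]
      exact integral_mono_of_nonneg (Eventually.of_forall fun τ => norm_nonneg _) (G_int hκ t)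
        (Eventually.of_forall fun τ => kn _)⟩
  have hb : ∀ (y : ℝ →ᵇ A) (t τ : ℝ), ‖W.mu (m (t - τ)) (y τ)‖ ≤ G (kap M 2) (t - τ) * ‖y τ‖ :=
    fun y t τ => ((W.mu _).le_opNorm _).trans (mul_le_mul_of_nonneg_right (kn _) (norm_nonneg _))
  have hi : ∀ (y : ℝ →ᵇ A) (t : ℝ), Integrable fun τ => G (kap M 2) (t - τ) * ‖y τ‖ :=
    fun y t => G_mul_int (K := ‖y‖) hκ y.continuous.norm
      (fun τ => by rw [abs_norm]; exact y.norm_coe_le_norm τ) t
  refine ⟨k0, k1, (evalCLM ℝ (0 : ℝ)).comp k2, kh, fun y t => ?_, fun y t => ?_, fun y => ?_,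
    fun y t n => ?_, fun y t => ?_⟩
  · rw [h0, ← integral_const_mul, ← integral_neg]
    exact integral_congr_ae (Eventually.of_forall fun τ => by ring)
  · rw [h1]
    exact integral_congr_ae (Eventually.of_forall fun τ => by ring)
  · change k2 y 0 = _
    rw [h2]
    exact integral_congr_ae (Eventually.of_forall fun τ => by ring)
  · have hc : Continuous fun τ => W.mu (m (t - τ)) (y τ) :=
      (W.mu.continuous.comp (mc.comp (continuous_const.sub continuous_id))).clm_apply y.continuous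
    have hI : Integrable fun τ => W.mu (m (t - τ)) (y τ) :=
      (hi y t).mono' hc.aestronglyMeasurable (Eventually.of_forall fun τ => hb y t τ)
    rw [hh, ← (W.c n).integral_comp_comm hI]
    simp only [W.c_mu, me, sy]
    split_ifs with h
    · rfl
    · simp
  · rw [hh]
    exact norm_integral_le_of_norm_le (hi y t) (Eventually.of_forall fun τ => hb y t τ)

end Pool.Agent.MP_ad2fa1_an.H64
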