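import Pool.Agent.MP_ad2fa1_an.H64.Spec

/-!
From a solution of the mode equations to a smooth non-radial solution on the cylinder.
-/

set_option autoImplicit false

noncomputable section

namespace Pool.Agent.MP_ad2fa1_an.H64

open Real Set Filter Topology MeasureTheory Function
open scoped ContDiff
open Pool.Agent.MP_6b3e96_gt.H77 (lap Test)
open Pool.Agent.MP_6b3e96_gt

namespace PostA

variable {A : Type} [NormedCommRing A] [NormedAlgebra ℝ A]

theorem ev_real (W : Wien A) (θ : ℝ) (a : A) (h : ∀ n, W.c (-n) a = W.c n a) :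
    ((W.ev θ a).re : ℂ) = W.ev θ a := by
  rw [← Complex.conj_eq_iff_re]
  have h1 := (W.ev_sum θ a).map (starRingEnd ℂ) Complex.continuous_conj
  have h2 := (Equiv.neg ℤ).hasSum_iff.2 (W.ev_sum θ a)
  refine h1.unique (h2.congr_fun fun n => ?_)
  simp only [Function.comp, Equiv.neg_apply, h, map_mul, Complex.conj_ofReal, ← Complex.exp_conj,
    map_intCast, Complex.conj_I, Int.cast_neg, mul_neg, neg_mul]

theorem ev_exp [CompleteSpace A] (W : Wien A) (θ : ℝ) (a : A) :
    W.ev θ (NormedSpace.exp a) = Complex.exp (W.ev θ a) := by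
  rw [Complex.exp_eq_exp_ℂ]
  exact NormedSpace.map_exp_of_mem_ball (𝕂 := ℝ) (W.ev θ)
    (W.ev_cont.comp (Continuous.prodMk_right θ)) a
    ((NormedSpace.expSeries_radius_eq_top ℝ A).symm ▸ edist_lt_top _ _)

theorem ev_per (W : Wien A) (θ : ℝ) (a : A) : W.ev (θ + 4 * π) a = W.ev θ a := by
  refine (W.ev_sum _ a).unique ((W.ev_sum θ a).congr_fun fun n => ?_)
  congr 1
  rw [Complex.exp_eq_exp_iff_exists_int]
  refine ⟨2 * n, ?_⟩
  push_cast
  ring

theorem D_re {Y Z : ℝ → ℝ} (h : ∀ t, HasDerivAt Y (Z t) t) (v : ℂ) :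
    H98.D v (fun z : ℂ => Y z.re) = fun z => Z z.re * v.re := by
  funext z
  have := (h z.re).comp_hasFDerivAt z Complex.reCLM.hasFDerivAt
  rw [H98.D]
  exact (congrArg (fun L : ℂ →L[ℝ] ℝ => L v) this.fderiv).trans (by simp [mul_comm])

theorem lap_re {Y Z g : ℝ → ℝ} (h : ∀ t, HasDerivAt Y (Z t) t) (h' : ∀ t, HasDerivAt Z (g t) t)
    (z : ℂ) : lap (fun z : ℂ => Y z.re) z = g z.re := by
  simp only [H98.lap_eq, D_re h, Complex.one_re, mul_one, Complex.I_re, mul_zero, D_re h',
    H98.D_const, add_zero]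

theorem cd_re {Y Z g : ℝ → ℝ} (h : ∀ t, HasDerivAt Y (Z t) t) (h' : ∀ t, HasDerivAt Z (g t) t)
    (hg : Continuous g) : ContDiff ℝ 2 fun z : ℂ => Y z.re := by
  have h1 : deriv Y = Z := funext fun t => (h t).deriv
  have h2 : deriv Z = g := funext fun t => (h' t).deriv
  have h3 : ContDiff ℝ 1 Z :=
    contDiff_one_iff_deriv.2 ⟨fun t => (h' t).differentiableAt, h2 ▸ hg⟩
  have h4 : ContDiff ℝ (1 + 1) Y :=
    contDiff_succ_iff_deriv.2 ⟨fun t => (h t).differentiableAt, by simp, h1 ▸ h3⟩
  rw [one_add_one_eq_two] at h4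
  exact h4.comp Complex.reCLM.contDiff

theorem ev_cont' (W : Wien A) {w : ℝ → A} (hw : Continuous w) :
    Continuous fun z : ℂ => (W.ev (2 * z.im) (w z.re)).re :=
  Complex.continuous_re.comp (W.ev_cont.comp
    ((continuous_const.mul Complex.continuous_im).prodMk (hw.comp Complex.continuous_re)))

end PostA

open PostA in
theorem post : SCyl → SPost := by
  intro cyl A _ _ _ W a l q C δ Y Z w ha hS ⟨hM, hsym, hlim, hneg, t0, ht0⟩
  have hY := hS.toRad.cont.1
  have hg : Continuous fun t => -(PP Y t - QQ l Y t) := by unfold PP QQ; fun_prop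
  have hE := ev_cont' W hM.1
  have hf := ev_cont' W hM.2.1
  have hYc : Continuous fun z : ℂ => Y z.re := hY.comp Complex.continuous_re
  have hreg := H98.reg univ 0 (fun z => Y z.re + (W.ev (2 * z.im) (w z.re)).re)
    (fun p => -(exp p.2 - l * exp (2 * p.2 - 2 * p.1.re))) isOpen_univ (hYc.add hE).continuousOn
    (by
      have : ContDiff ℝ ∞ fun p : ℂ × ℝ => p.1.re := Complex.reCLM.contDiff.comp contDiff_fst
      exact (ContDiff.neg (contDiff_snd.exp.sub (contDiff_const.mul
        ((contDiff_const.mul contDiff_snd).sub (contDiff_const.mul this)).exp))).contDiffOn)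
    fun ψ hψ0 => by
      have hψ : Test univ ψ := ⟨hψ0.1, hψ0.2.1, subset_univ _⟩
      have h1 := H98.green univ _ ψ isOpen_univ (cd_re hS.dY hS.dZ' hg).contDiffOn hψ
      have h2 := cyl A W w _ hM ψ hψ
      simp only [lap_re hS.dY hS.dZ'] at h1
      simp only [add_mul]
      rw [integral_add (H98.int_mul isOpen_univ hYc.continuousOn (H98.test_lap hψ))
        (H98.int_mul isOpen_univ hE.continuousOn (H98.test_lap hψ)), h1, h2]
      refine (integral_add
        (H98.int_mul isOpen_univ (hg.comp Complex.continuous_re).continuousOn hψ)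
        (H98.int_mul isOpen_univ hf.neg.continuousOn hψ)).symm.trans ?_
      refine integral_congr_ae (.of_forall fun z => ?_)
      have hr := ev_real W (2 * z.im) (w z.re) fun n => hsym n _
      simp only [Pi.neg_apply, map_sub, map_smul, map_one, ev_exp]
      rw [← hr]
      generalize (W.ev (2 * z.im) (w z.re)).re = r
      have e1 : (2 : ℝ) • (r : ℂ) = ((2 * r : ℝ) : ℂ) := by
        rw [Complex.real_smul, Complex.ofReal_mul]
      rw [e1, ← Complex.ofReal_exp, ← Complex.ofReal_exp]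
      simp only [Complex.sub_re, Complex.smul_re, Complex.ofReal_re, Complex.one_re, smul_eq_mul,
        Function.comp, PP, QQ]
      rw [show 2 * (Y z.re + r) - 2 * z.re = (2 * Y z.re - 2 * z.re) + 2 * r by ring, exp_add,
        exp_add]
      ring
  have hle : ∀ θ t, |(W.ev θ (w t)).re| ≤ ‖w t‖ := fun θ t =>
    (Complex.abs_re_le_norm _).trans (W.norm_ev _ _)
  refine ⟨_, contDiffOn_univ.1 hreg.1, fun z => hreg.2 z trivial, fun z => ?_, fun η hη => ?_,
    fun z => ?_, ?_⟩
  · have e1 : (z + 2 * π * Complex.I).re = z.re := by simp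
    have e2 : 2 * (z + 2 * π * Complex.I).im = 2 * z.im + 4 * π := by simp; ring
    simp only [e1, e2, ev_per]
  · have h1 : Tendsto (fun t => exp (2 * a * t)) atBot (𝓝 0) :=
      tendsto_exp_atBot.comp (tendsto_id.const_mul_atBot (by linarith))
    have h2 := h1.add hlim.norm
    rw [norm_zero, add_zero] at h2
    obtain ⟨T, hT⟩ := eventually_atBot.1 (h2.eventually (ge_mem_nhds hη))
    refine ⟨T, fun z hz => ?_⟩
    have h3 := hT _ hz
    have h4 := abs_le.1 (hle (2 * z.im) z.re)
    have h5 := hS.up z.re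
    have h6 := hS.low z.re
    have h7 := exp_pos (2 * a * z.re)
    exact abs_le.2 ⟨by linarith, by linarith⟩
  · have h4 := abs_le.1 (hle (2 * z.im) z.re)
    linarith [hneg z.re]
  · by_contra hc
    push Not at hc
    refine ht0 ?_
    have h1 : w t0 = algebraMap ℝ A (W.ev 0 (w t0)).re := W.ev_inj _ _ fun θ => by
      have h2 := hc ⟨t0, θ / 2⟩ ⟨t0, 0⟩ rfl
      simp only [mul_zero, add_right_inj, mul_div_cancel₀ θ (two_ne_zero' ℝ)] at h2
      rw [AlgHom.commutes, ← h2]
      exact (ev_real W θ _ fun n => hsym n _).symm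
    rw [h1, Algebra.algebraMap_eq_smul_one, W.one_eq, map_smul, W.c_d]
    simp

end Pool.Agent.MP_ad2fa1_an.H64
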