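import Pool.Agent.MP_ad2fa1_an.H64.Spec

/-!
Pulling a periodic function back along the logarithm.
-/

set_option autoImplicit false

noncomputable section

namespace Pool.Agent.MP_ad2fa1_an.H64

open Real Set Filter Topology
open scoped ContDiff
open Pool.Agent.MP_6b3e96_gt.H77 (lap d1 d2)

namespace PullA

theorem dd {U : ℂ → ℝ} (hU : ContDiff ℝ ∞ U) {h h' : ℂ → ℂ} {h'' z0 : ℂ}
    (h1 : ∀ᶠ z in 𝓝 z0, HasDerivAt h (h' z) z) (h2 : HasDerivAt h' h'' z0) (v : ℂ) :
    fderiv ℝ (fun z => fderiv ℝ (fun z => U (h z)) z v) z0 v =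
      fderiv ℝ (fderiv ℝ U) (h z0) (h' z0 * v) (h' z0 * v) + fderiv ℝ U (h z0) (h'' * (v * v)) := by
  have dU : Differentiable ℝ U := hU.differentiable (by simp)
  have dV : Differentiable ℝ (fderiv ℝ U) :=
    (hU.fderiv_right (m := ∞) (by simp)).differentiable (by simp)
  have e : (fun z => fderiv ℝ (fun z => U (h z)) z v) =ᶠ[𝓝 z0]
      fun z => fderiv ℝ U (h z) (h' z * v) := by
    filter_upwards [h1] with z hz
    have := ((dU (h z)).hasFDerivAt.comp z (hz.hasFDerivAt.restrictScalars ℝ)).fderiv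
    rw [show (fun z => U (h z)) = U ∘ h from rfl, this]
    simp [mul_comm]
  have a := (dV (h z0)).hasFDerivAt.comp z0 (h1.self_of_nhds.hasFDerivAt.restrictScalars ℝ)
  have b := (h2.mul_const v).hasFDerivAt.restrictScalars ℝ
  have c := (a.clm_apply b).fderiv
  simp only [Function.comp_apply] at c
  rw [e.fderiv_eq, c]
  simp [mul_comm, mul_left_comm, add_comm]

theorem lap_comp {U : ℂ → ℝ} (hU : ContDiff ℝ ∞ U) {h h' : ℂ → ℂ} {h'' z0 : ℂ}
    (h1 : ∀ᶠ z in 𝓝 z0, HasDerivAt h (h' z) z) (h2 : HasDerivAt h' h'' z0) :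
    lap (fun z => U (h z)) z0 = ‖h' z0‖ ^ 2 * lap U (h z0) := by
  have i1 := dd hU (h := id) (h' := fun _ => 1) (z0 := h z0)
    (Eventually.of_forall fun z => hasDerivAt_id z) (hasDerivAt_const _ _) 1
  have i2 := dd hU (h := id) (h' := fun _ => 1) (z0 := h z0)
    (Eventually.of_forall fun z => hasDerivAt_id z) (hasDerivAt_const _ _) Complex.I
  have j1 := dd hU h1 h2 1
  have j2 := dd hU h1 h2 Complex.I
  simp only [id, one_mul, zero_mul, map_zero, add_zero] at i1 i2
  have l1 : lap U (h z0) = _ := congrArg₂ (· + ·) i1 i2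
  have l2 : lap (fun z => U (h z)) z0 = _ := congrArg₂ (· + ·) j1 j2
  have e1 : h' z0 * 1 = (h' z0).re • (1 : ℂ) + (h' z0).im • Complex.I := by
    simp
  have e2 : h' z0 * Complex.I = (-(h' z0).im) • (1 : ℂ) + (h' z0).re • Complex.I := by
    apply Complex.ext <;> simp
  rw [l1, l2, e1, e2, Complex.I_mul_I, mul_neg, map_neg, one_mul, Complex.sq_norm,
    Complex.normSq_apply]
  simp only [map_add, map_smul, add_apply, smul_apply, smul_eq_mul]
  ring

theorem lap_congr {f g : ℂ → ℝ} {z : ℂ} (h : f =ᶠ[𝓝 z] g) : lap f z = lap g z := by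
  have a : ∀ v : ℂ, fderiv ℝ (fun z => fderiv ℝ f z v) z = fderiv ℝ (fun z => fderiv ℝ g z v) z :=
    fun v => EventuallyEq.fderiv_eq (h.fderiv.mono fun w hw => by
      show fderiv ℝ f w v = fderiv ℝ g w v
      rw [hw])
  exact congrArg₂ (· + ·) (congrArg (fun L : ℂ →L[ℝ] ℝ => L 1) (a 1))
    (congrArg (fun L : ℂ →L[ℝ] ℝ => L Complex.I) (a Complex.I))

theorem branch {U : ℂ → ℝ} (hp : ∀ z, U (z + 2 * π * Complex.I) = U z) {z : ℂ} (hz : z ≠ 0) :
    U (Complex.log z) = U (Complex.log (-z) + π * Complex.I) := by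
  have e : Complex.exp (Complex.log z) = Complex.exp (Complex.log (-z) + π * Complex.I) := by
    rw [Complex.exp_add, Complex.exp_pi_mul_I, Complex.exp_log hz,
      Complex.exp_log (neg_ne_zero.2 hz)]
    ring
  obtain ⟨n, hn⟩ := Complex.exp_eq_exp_iff_exists_int.1 e
  have p : Function.Periodic U (2 * π * Complex.I) := hp
  rw [hn, p.int_mul n]

/-- a holomorphic branch near each point -/
theorem loc {U : ℂ → ℝ} (hp : ∀ z, U (z + 2 * π * Complex.I) = U z) {z : ℂ} (hz : z ≠ 0) :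
    ∃ h : ℂ → ℂ, h z = Complex.log z ∧ (∀ᶠ w in 𝓝 z, HasDerivAt h w⁻¹ w) ∧ ContDiffAt ℝ ∞ h z ∧
      (fun w => U (Complex.log w)) =ᶠ[𝓝 z] fun w => U (h w) := by
  by_cases hs : z ∈ Complex.slitPlane
  · refine ⟨Complex.log, rfl, ?_, (Complex.contDiffAt_log hs).restrict_scalars ℝ, EventuallyEq.rfl⟩
    filter_upwards [Complex.isOpen_slitPlane.mem_nhds hs] with w hw using Complex.hasDerivAt_log hw
  · have hn : -z ∈ Complex.slitPlane :=
      (Complex.mem_slitPlane_or_neg_mem_slitPlane hz).resolve_left hs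
    refine ⟨fun w => Complex.log (-w) + π * Complex.I, ?_, ?_, ?_, ?_⟩
    · rw [Complex.mem_slitPlane_iff, not_or, not_lt, not_not] at hs
      have h1 : z.re < 0 := lt_of_le_of_ne hs.1 fun h => hz (Complex.ext h hs.2)
      have a1 : z.arg = π := Complex.arg_eq_pi_iff.2 ⟨h1, hs.2⟩
      have a2 : (-z).arg = 0 := Complex.arg_eq_zero_iff.2 ⟨by simpa using hs.1, by simpa using hs.2⟩
      simp [Complex.log, a1, a2]
    · filter_upwards [continuous_neg.continuousAt.preimage_mem_nhds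
        (Complex.isOpen_slitPlane.mem_nhds hn)] with w hw
      have := ((Complex.hasDerivAt_log hw).comp w (hasDerivAt_neg w)).add_const (π * Complex.I)
      rw [show (-w)⁻¹ * -1 = w⁻¹ by rw [inv_neg]; ring] at this
      exact this
    · exact (((Complex.contDiffAt_log hn).restrict_scalars ℝ).comp z contDiffAt_id.neg).add
        contDiffAt_const
    · filter_upwards [isOpen_ne.mem_nhds hz] with w hw using branch hp hw

end PullA

open PullA in
theorem pull : SPull := by
  intro U hU hp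
  refine ⟨fun z hz => ?_, fun z hz => ?_⟩
  · obtain ⟨h, -, -, h3, h4⟩ := loc hp (show z ≠ 0 from hz)
    exact ((hU.contDiffAt.comp z h3).congr_of_eventuallyEq h4).contDiffWithinAt
  · obtain ⟨h, h1, h2, -, h4⟩ := loc hp hz
    rw [lap_congr h4, lap_comp hU h2 (hasDerivAt_inv hz), h1, norm_inv, inv_pow, div_eq_inv_mul]

end Pool.Agent.MP_ad2fa1_an.H64
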