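import Pool.Agent.MP_ad2fa1_an.H64.Spec

/-!
The radial family.
-/

set_option autoImplicit false

noncomputable section

namespace Pool.Agent.MP_ad2fa1_an.H64

open Real Set Filter Topology MeasureTheory BoundedContinuousFunction Function

namespace Rad1A

/-- The primitive in the second variable. -/
def A (f : ℝ × ℝ → ℝ) (p : ℝ × ℝ) : ℝ := ∫ τ in Iic p.2, f (p.1, τ)

/-- Continuous functions with exponential bound. -/
def Bd (k : ℝ) (f : ℝ × ℝ → ℝ) : Prop := Continuous f ∧ ∀ p, 0 ≤ f p ∧ f p ≤ exp (k * p.2)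

/-- The weight. -/
def E (k t : ℝ) : ℝ := exp (exp (k * t))

variable {k : ℝ} {f g : ℝ × ℝ → ℝ}

theorem E_pos (k t : ℝ) : 0 < E k t := exp_pos _

theorem E_cont (k : ℝ) : Continuous (E k) := by unfold E; fun_prop

theorem le_E (k t : ℝ) : exp (k * t) ≤ E k t := by
  unfold E
  linarith [add_one_le_exp (exp (k * t))]

theorem E_sub (k t : ℝ) : E k t - 1 ≤ exp (k * t) * E k t := by
  have h1 := add_one_le_exp (-exp (k * t))
  have h2 : exp (-exp (k * t)) * E k t = 1 := by rw [E, ← exp_add, neg_add_cancel, exp_zero]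
  nlinarith [E_pos k t]

theorem Bd.int (hk : 2 ≤ k) (h : Bd k f) (l s : ℝ) : IntegrableOn (fun τ => f (l, τ)) (Iic s) := by
  refine Integrable.mono' (integrableOn_exp_mul_Iic (a := k) (by linarith) s)
    (h.1.comp (Continuous.prodMk_right l)).aestronglyMeasurable (.of_forall fun τ => ?_)
  rw [Real.norm_of_nonneg (h.2 _).1]
  exact (h.2 (l, τ)).2

theorem Bd.split (hk : 2 ≤ k) (h : Bd k f) (l s : ℝ) :
    A f (l, s) = (∫ τ in Iic (0 : ℝ), f (l, τ)) + ∫ τ in (0 : ℝ)..s, f (l, τ) := by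
  rw [← intervalIntegral.integral_Iic_sub_Iic (h.int hk l 0) (h.int hk l s), A]
  ring

theorem Bd.deriv (hk : 2 ≤ k) (h : Bd k f) (l s : ℝ) :
    HasDerivAt (fun t => A f (l, t)) (f (l, s)) s := by
  simp only [h.split hk]
  exact ((h.1.comp (Continuous.prodMk_right l)).integral_hasStrictDerivAt 0 s).hasDerivAt.const_add _

theorem Bd.A (hk : 2 ≤ k) (h : Bd k f) : Bd k (A f) := by
  have hk0 : 0 < k := by linarith
  refine ⟨?_, fun p => ⟨integral_nonneg fun τ => (h.2 _).1, ?_⟩⟩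
  · have e : Rad1A.A f = fun p : ℝ × ℝ =>
        (∫ τ in Iic (0 : ℝ), f (p.1, τ)) + ∫ τ in (0 : ℝ)..p.2, f (p.1, τ) :=
      funext fun p => h.split hk p.1 p.2
    rw [e]
    refine Continuous.add ?_ (intervalIntegral.continuous_parametric_primitive_of_continuous
      (f := fun l τ => f (l, τ)) h.1)
    refine continuous_of_dominated (fun p => (h.int hk p.1 0).aestronglyMeasurable)
      (fun p => .of_forall fun τ => ?_) (integrableOn_exp_mul_Iic hk0 0)
      (.of_forall fun τ => h.1.comp (continuous_fst.prodMk continuous_const))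
    rw [Real.norm_of_nonneg (h.2 _).1]
    exact (h.2 (p.1, τ)).2
  · refine (integral_mono (h.int hk p.1 p.2) (integrableOn_exp_mul_Iic hk0 p.2)
      fun τ => (h.2 (p.1, τ)).2).trans ?_
    rw [integral_exp_mul_Iic hk0]
    exact div_le_self (exp_pos _).le (by linarith)

theorem int_w (hk : 2 ≤ k) (s : ℝ) : IntegrableOn (fun τ => exp (k * τ) * E k τ) (Iic s) := by
  have hk0 : 0 < k := by linarith
  have hc : Continuous fun τ => exp (k * τ) * E k τ := Continuous.mul (by fun_prop) (E_cont k)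
  refine Integrable.mono' ((integrableOn_exp_mul_Iic hk0 s).mul_const (E k s))
    hc.aestronglyMeasurable ?_
  filter_upwards [ae_restrict_mem measurableSet_Iic] with τ hτ
  rw [Real.norm_of_nonneg (mul_pos (exp_pos _) (E_pos _ _)).le]
  exact mul_le_mul_of_nonneg_left
    (exp_le_exp.2 (exp_le_exp.2 (mul_le_mul_of_nonneg_left hτ hk0.le))) (exp_pos _).le

theorem integral_w (hk : 2 ≤ k) (s : ℝ) :
    ∫ τ in Iic s, exp (k * τ) * E k τ = (E k s - 1) / k := by
  have hk0 : 0 < k := by linarith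
  have hd : ∀ x ∈ Iic s, HasDerivAt (fun t => E k t / k) (exp (k * x) * E k x) x := by
    intro x _
    refine ((((hasDerivAt_id x).const_mul k).exp.exp).div_const k).congr_deriv ?_
    simp only [id_eq, mul_one, E]
    field_simp
  have hl : Tendsto (fun t => E k t / k) atBot (𝓝 (exp 0 / k)) :=
    ((continuous_exp.tendsto 0).comp
      (tendsto_exp_atBot.comp (tendsto_id.const_mul_atBot hk0))).div_const k
  rw [integral_Iic_of_hasDerivAt_of_tendsto' hd (int_w hk s) hl, exp_zero, sub_div]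

theorem A_diff (hk : 2 ≤ k) (hf : Bd k f) (hg : Bd k g) {K : ℝ} (hK : 0 ≤ K)
    (h : ∀ p, |f p - g p| ≤ K * (exp (k * p.2) * E k p.2)) (p : ℝ × ℝ) :
    |A f p - A g p| ≤ K / 2 * (E k p.2 - 1) := by
  have h1 : 0 ≤ E k p.2 - 1 := sub_nonneg.2 (one_le_exp (exp_pos _).le)
  rw [A, A, ← integral_sub (hf.int hk _ _) (hg.int hk _ _), ← Real.norm_eq_abs]
  refine (norm_integral_le_of_norm_le ((int_w hk p.2).const_mul K)
    (.of_forall fun τ => h (p.1, τ))).trans ?_
  rw [integral_const_mul, integral_w hk, div_mul_eq_mul_div, ← mul_div_assoc]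
  exact div_le_div_of_nonneg_left (mul_nonneg hK h1) two_pos hk

theorem AA_diff (hk : 2 ≤ k) (hf : Bd k f) (hg : Bd k g) {K : ℝ} (hK : 0 ≤ K)
    (h : ∀ p, |f p - g p| ≤ K * (exp (k * p.2) * E k p.2)) (p : ℝ × ℝ) :
    |A (A f) p - A (A g) p| ≤ K / 4 * E k p.2 := by
  have h2 : 0 ≤ K / 2 := by positivity
  have h1 := A_diff hk (hf.A hk) (hg.A hk) h2 (fun q => (A_diff hk hf hg hK h q).trans
    (mul_le_mul_of_nonneg_left (E_sub k q.2) h2)) p
  linarith

/-- The truncated nonlinearity. -/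
def F (c x : ℝ) : ℝ := x * max (1 - c * x) 0

theorem F_half {c x y : ℝ} (hc : 0 ≤ c) (hy : 0 ≤ y) (h : y ≤ x) : |F c x - F c y| ≤ x - y := by
  have h1 : c * y ≤ c * x := mul_le_mul_of_nonneg_left h hc
  have h2 : 0 ≤ c * y := mul_nonneg hc hy
  have h3 : 0 ≤ x - y := sub_nonneg.2 h
  unfold F
  rcases le_total (1 - c * x) 0 with hx | hx
  · rw [max_eq_right hx]
    rcases le_total (1 - c * y) 0 with hy' | hy'
    · rw [max_eq_right hy']
      simpa using h3
    · rw [max_eq_left hy', mul_zero, zero_sub, abs_neg, abs_of_nonneg (mul_nonneg hy hy')]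
      nlinarith [mul_nonneg hy (neg_nonneg.2 hx), mul_nonneg hy' h3]
  · have hy' : 0 ≤ 1 - c * y := by linarith
    rw [max_eq_left hx, max_eq_left hy', abs_le]
    constructor
    · nlinarith [mul_nonneg hx h3, mul_nonneg hy' h3]
    · nlinarith [mul_nonneg h2 h3, mul_nonneg (h2.trans h1) h3]

theorem exp_half {u v : ℝ} (hv : v ≤ 0) : exp v - exp u ≤ |v - u| := by
  have h1 := add_one_le_exp (u - v)
  have h2 : exp v * exp (u - v) = exp u := by rw [← exp_add, add_sub_cancel]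
  have h3 : exp v ≤ 1 := exp_le_one_iff.2 hv
  have h4 := le_abs_self (v - u)
  have h5 := abs_nonneg (v - u)
  have h6 := exp_pos v
  nlinarith [mul_le_mul_of_nonneg_left h1 h6.le, mul_le_mul_of_nonneg_left h4 h6.le,
    mul_le_mul_of_nonneg_right h3 h5]

theorem F_lip {c : ℝ} (hc : 0 ≤ c) (b b' : ℝ) :
    |F c (exp (min b 0)) - F c (exp (min b' 0))| ≤ |b - b'| := by
  have h0 : |min b 0 - min b' 0| ≤ |b - b'| := by
    simpa using abs_min_sub_min_le_max b 0 b' 0
  rcases le_total (exp (min b 0)) (exp (min b' 0)) with h | h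
  · rw [abs_sub_comm]
    refine (F_half hc (exp_pos _).le h).trans ((exp_half (min_le_right _ _)).trans ?_)
    rwa [abs_sub_comm]
  · exact (F_half hc (exp_pos _).le h).trans ((exp_half (min_le_right _ _)).trans h0)

theorem F_bd {c : ℝ} (hc : 0 ≤ c) (b : ℝ) :
    0 ≤ F c (exp (min b 0)) ∧ F c (exp (min b 0)) ≤ 1 := by
  have h0 := exp_pos (min b 0)
  refine ⟨mul_nonneg h0.le (le_max_right _ _), mul_le_one₀ (exp_le_one_iff.2 (min_le_right _ _))
    (le_max_right _ _) (max_le ?_ zero_le_one)⟩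
  linarith [mul_nonneg hc h0.le]

/-- The right side of the equation. -/
def hh (k : ℝ) (β : ℝ × ℝ →ᵇ ℝ) (p : ℝ × ℝ) : ℝ :=
  exp (k * p.2) * F (max p.1 0 * exp ((k - 2) * p.2)) (exp (min (E k p.2 * β p) 0))

theorem hh_bd (k : ℝ) (β : ℝ × ℝ →ᵇ ℝ) : Bd k (hh k β) := by
  refine ⟨?_, fun p => ?_⟩
  · have h1 := β.continuous
    unfold hh F E
    fun_prop
  · have h := F_bd (c := max p.1 0 * exp ((k - 2) * p.2)) (by positivity) (E k p.2 * β p)
    exact ⟨mul_nonneg (exp_pos _).le h.1, mul_le_of_le_one_right (exp_pos _).le h.2⟩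

theorem hh_diff (k : ℝ) (β γ : ℝ × ℝ →ᵇ ℝ) (p : ℝ × ℝ) :
    |hh k β p - hh k γ p| ≤ dist β γ * (exp (k * p.2) * E k p.2) := by
  have h1 := F_lip (c := max p.1 0 * exp ((k - 2) * p.2)) (by positivity) (E k p.2 * β p)
    (E k p.2 * γ p)
  rw [← mul_sub, abs_mul, abs_of_pos (E_pos k p.2)] at h1
  have h2 : |β p - γ p| ≤ dist β γ := dist_coe_le_dist (f := β) (g := γ) p
  rw [hh, hh, ← mul_sub, abs_mul, abs_of_pos (exp_pos _)]
  refine (mul_le_mul_of_nonneg_left (h1.trans (mul_le_mul_of_nonneg_left h2 (E_pos _ _).le))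
    (exp_pos _).le).trans_eq ?_
  ring

/-- The map whose fixed point solves the equation. -/
def Phi (hk : 2 ≤ k) (β : ℝ × ℝ →ᵇ ℝ) : ℝ × ℝ →ᵇ ℝ :=
  ofNormedAddCommGroup (fun p => -A (A (hh k β)) p / E k p.2)
    ((((hh_bd k β).A hk).A hk).1.neg.div ((E_cont k).comp continuous_snd) fun p => (E_pos k p.2).ne')
    1 fun p => by
      have h := (((hh_bd k β).A hk).A hk).2 p
      rw [norm_div, norm_neg, Real.norm_of_nonneg h.1, Real.norm_of_nonneg (E_pos _ _).le,
        div_le_one (E_pos _ _)]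
      exact h.2.trans (le_E _ _)

theorem Phi_apply (hk : 2 ≤ k) (β : ℝ × ℝ →ᵇ ℝ) (p : ℝ × ℝ) :
    Phi hk β p = -A (A (hh k β)) p / E k p.2 := rfl

theorem Phi_contr (hk : 2 ≤ k) : ContractingWith (1 / 4) (Phi hk) := by
  refine ⟨by norm_num, LipschitzWith.of_dist_le_mul fun β γ => ?_⟩
  refine (dist_le (by positivity)).2 fun p => ?_
  have h := AA_diff hk (hh_bd k β) (hh_bd k γ) dist_nonneg (hh_diff k β γ) p
  rw [Phi_apply, Phi_apply, Real.dist_eq, ← sub_div, abs_div, abs_of_pos (E_pos _ _),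
    div_le_iff₀ (E_pos _ _), neg_sub_neg, abs_sub_comm]
  refine h.trans_eq ?_
  push_cast
  ring

end Rad1A

open Rad1A in
theorem rad1 : SRad1 := by
  intro a ha
  have hk : 2 ≤ 2 * a := by linarith
  obtain ⟨β, hβ⟩ : ∃ β, Phi hk β = β := ⟨_, (Phi_contr hk).fixedPoint_isFixedPt⟩
  have h0 := hh_bd (2 * a) β
  have h1 := h0.A hk
  have h2 := h1.A hk
  have hb : ∀ p : ℝ × ℝ, E (2 * a) p.2 * β p = -A (A (hh (2 * a) β)) p := by
    intro p
    rw [← mul_div_cancel₀ (-A (A (hh (2 * a) β)) p) (E_pos (2 * a) p.2).ne', ← Phi_apply hk, hβ]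
  refine ⟨fun l t => 2 * a * t - A (A (hh (2 * a) β)) (l, t),
    fun l t => 2 * a - A (hh (2 * a) β) (l, t),
    (continuous_const.mul continuous_snd).sub h2.1, (continuous_const (y := 2 * a)).sub h1.1,
    fun l hl => ⟨fun t => ?_, fun t => ?_, fun t => ?_, fun t => ?_, fun t => ?_⟩⟩
  · refine (((hasDerivAt_id t).const_mul (2 * a)).sub (h1.deriv hk l t)).congr_deriv ?_
    rw [mul_one]
  · refine ((h0.deriv hk l t).const_sub (2 * a)).congr_deriv ?_
    have e1 : 2 * a * t - A (A (hh (2 * a) β)) (l, t) - 2 * t =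
        (2 * a - 2) * t + -A (A (hh (2 * a) β)) (l, t) := by ring
    beta_reduce
    rw [hh, hb, min_eq_left (neg_nonpos.2 (h2.2 _).1), F, e1, sub_eq_add_neg (2 * a * t), exp_add,
      exp_add, max_eq_left hl]
    simp only [mul_assoc]
  · exact sub_le_self _ (h2.2 _).1
  · exact sub_le_sub_left (h2.2 (l, t)).2 _
  · rw [sub_sub_cancel_left, abs_neg, abs_of_nonneg (h1.2 _).1]
    exact (h1.2 (l, t)).2

end Pool.Agent.MP_ad2fa1_an.H64
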