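import Pool.Agent.MP_ad2fa1_an.H64.Spec

/-!
The radial family up to the first parameter at which the solution touches zero.
-/

set_option autoImplicit false

noncomputable section

namespace Pool.Agent.MP_ad2fa1_an.H64

open Real Set Filter Topology Function

namespace Rad2A

theorem le_lin {f f' : ℝ → ℝ} (hf : ∀ t, HasDerivAt f (f' t) t) {s k : ℝ}
    (h : ∀ t, s ≤ t → f' t ≤ k) {t : ℝ} (ht : s ≤ t) : f t - f s ≤ k * (t - s) :=
  (convex_Ici s).image_sub_le_mul_sub_of_deriv_le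
    (fun x _ => (hf x).continuousAt.continuousWithinAt)
    (fun x _ => (hf x).differentiableAt.differentiableWithinAt)
    (fun x hx => by rw [(hf x).deriv]; exact h x (interior_subset hx)) s self_mem_Ici t ht ht

theorem anti {a l : ℝ} {Y Z : ℝ → ℝ} (h : Rad a l Y Z) : Antitone Z :=
  antitone_of_hasDerivAt_nonpos h.dZ fun _ =>
    neg_nonpos.2 (mul_nonneg (exp_pos _).le (le_max_right _ _))

theorem exists_neg {a l q : ℝ} {Y Z : ℝ → ℝ} (h : Rad a l Y Z) (hq : q < 1)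
    (hn : ∀ t, l * exp (Y t - 2 * t) ≤ q) : ∃ t0, 0 ≤ t0 ∧ Z t0 < 0 := by
  by_contra hc
  push Not at hc
  have h0 : ∀ t, 0 ≤ Z t := fun t => (hc (max t 0) (le_max_right _ _)).trans
    (anti h (le_max_left _ _))
  have hm : Monotone Y := monotone_of_hasDerivAt_nonneg h.dY h0
  have hk : 0 < exp (Y 0) * (1 - q) := mul_pos (exp_pos _) (by linarith)
  have ht : 0 ≤ Z 0 / (exp (Y 0) * (1 - q)) + 1 := by
    have := div_nonneg (h0 0) hk.le
    linarith
  have h1 := le_lin h.dZ (s := 0) (k := -(exp (Y 0) * (1 - q))) (fun t ht => neg_le_neg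
    (mul_le_mul (exp_le_exp.2 (hm ht)) (le_max_of_le_left (by linarith [hn t])) (by linarith)
      (exp_pos _).le)) ht
  have h2 := div_mul_cancel₀ (Z 0) hk.ne'
  have h3 := h0 (Z 0 / (exp (Y 0) * (1 - q)) + 1)
  nlinarith

theorem mono {a l q C δ q' C' δ' : ℝ} {Y Z : ℝ → ℝ} (h : Sol a l q C δ Y Z) (hq : q ≤ q')
    (hq' : q' < 1) (hC : C ≤ C') (hδ : δ' ≤ δ) (hδ' : 0 < δ') : Sol a l q' C' δ' Y Z where
  toRad := h.toRad
  l0 := h.l0
  q1 := hq'
  d0 := hδ'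
  neg t := (h.neg t).trans hq
  dec t := by
    have h1 : 0 < C := (mul_pos_iff_of_pos_right (om_pos δ t)).1 ((exp_pos _).trans_le (h.dec t))
    refine (h.dec t).trans (mul_le_mul hC ?_ (om_pos _ _).le (h1.le.trans hC))
    exact exp_le_exp.2 (by nlinarith [abs_nonneg t])

/-- one solution, from three pieces of information -/
theorem sol_of {a l q δ t0 L : ℝ} {Y Z : ℝ → ℝ} (ha : 2 ≤ a) (h : Rad a l Y Z) (hl : 0 ≤ l)
    (hL : l ≤ L) (hq : 1 / 2 ≤ q) (hq1 : q < 1) (hδ : 0 < δ) (hδ1 : δ ≤ 1) (ht0 : 0 ≤ t0)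
    (hZ : Z t0 ≤ -δ) (hn : ∀ t ∈ Icc (-L) t0, l * exp (Y t - 2 * t) ≤ q) :
    Sol a l q (exp ((2 * a + δ) * t0)) δ Y Z := by
  have h1 : ∀ t, t0 ≤ t → Y t - Y t0 ≤ -δ * (t - t0) := fun t ht =>
    le_lin h.dY (fun s hs => (anti h hs).trans hZ) ht
  refine ⟨h, hl, hq1, hδ, fun t => ?_, fun t => ?_⟩
  · rcases le_total t (-L) with ht | ht
    · have h2 : exp (Y t - 2 * t) ≤ exp (-(2 * L)) :=
        exp_le_exp.2 (by nlinarith [h.up t])
      have h3 : 2 * L * exp (-(2 * L)) ≤ 1 := by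
        rw [exp_neg, ← div_eq_mul_inv, div_le_one (exp_pos _)]
        linarith [add_one_le_exp (2 * L)]
      have h4 := mul_le_mul hL h2 (exp_pos _).le (hl.trans hL)
      linarith
    · rcases le_total t t0 with ht' | ht'
      · exact hn t ⟨ht, ht'⟩
      · refine le_trans (mul_le_mul_of_nonneg_left (exp_le_exp.2 ?_) hl)
          (hn t0 ⟨by linarith, le_rfl⟩)
        nlinarith [h1 t ht']
  · rw [om, ← exp_add]
    refine exp_le_exp.2 ?_
    have h2 : 0 ≤ (2 * a + δ) * t0 := mul_nonneg (by linarith) ht0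
    rcases le_total t 0 with ht | ht
    · rw [abs_of_nonpos ht, min_eq_left ht]
      nlinarith [h.up t]
    · rw [abs_of_nonneg ht, min_eq_right ht]
      rcases le_total t t0 with ht' | ht'
      · nlinarith [h.up t]
      · nlinarith [h.up t0, h1 t ht']

variable {a : ℝ} {Y Z : ℝ → ℝ → ℝ}

/-- the solution stays away from zero -/
def Sg (Y : ℝ → ℝ → ℝ) (l : ℝ) : Prop := ∃ q < 1, ∀ t, l * exp (Y l t - 2 * t) ≤ q

theorem loc (ha : 2 ≤ a) (hY : Continuous (uncurry Y)) (hZ : Continuous (uncurry Z))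
    (hR : ∀ l, 0 ≤ l → Rad a l (Y l) (Z l)) {l0 : ℝ} (h0 : 0 ≤ l0) (hS : Sg Y l0) :
    ∃ q C δ, q < 1 ∧ 0 < δ ∧ ∀ᶠ l in 𝓝 l0, 0 ≤ l → Sol a l q C δ (Y l) (Z l) := by
  obtain ⟨q, hq, hn⟩ := hS
  have hq0 : 0 ≤ q := (mul_nonneg h0 (exp_pos _).le).trans (hn 0)
  obtain ⟨t0, ht0, hz⟩ := exists_neg (hR l0 h0) hq hn
  have hδ : 0 < min 1 (-Z l0 t0 / 2) := lt_min one_pos (by linarith)
  refine ⟨(q + 1) / 2, exp ((2 * a + min 1 (-Z l0 t0 / 2)) * t0), min 1 (-Z l0 t0 / 2),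
    by linarith, hδ, ?_⟩
  have e1 : ∀ᶠ l in 𝓝 l0, Z l t0 < -min 1 (-Z l0 t0 / 2) := by
    have hc : Continuous fun l => Z l t0 := hZ.comp (continuous_id.prodMk continuous_const)
    exact hc.continuousAt.eventually_lt continuousAt_const
      (by linarith [min_le_right 1 (-Z l0 t0 / 2)])
  have e2 : ∀ᶠ l in 𝓝 l0, l < l0 + 1 := eventually_lt_nhds (by linarith)
  have e3 : ∀ᶠ l in 𝓝 l0, ∀ t ∈ Icc (-(l0 + 1)) t0, l * exp (Y l t - 2 * t) < (q + 1) / 2 := by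
    refine isCompact_Icc.eventually_forall_of_forall_eventually fun t _ => ?_
    have hc : Continuous fun z : ℝ × ℝ => z.1 * exp (Y z.1 z.2 - 2 * z.2) :=
      continuous_fst.mul (continuous_exp.comp (hY.sub (continuous_const.mul continuous_snd)))
    exact hc.continuousAt.eventually_lt continuousAt_const (by linarith [hn t])
  filter_upwards [e1, e2, e3] with l h1 h2 h3 hl
  exact sol_of ha (hR l hl) hl h2.le (by linarith) (by linarith) hδ (min_le_left _ _) ht0 h1.le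
    fun t ht => (h3 t ht).le

theorem unif (ha : 2 ≤ a) (hY : Continuous (uncurry Y)) (hZ : Continuous (uncurry Z))
    (hR : ∀ l, 0 ≤ l → Rad a l (Y l) (Z l)) {Λ : ℝ} (hS : ∀ l ∈ Icc 0 Λ, Sg Y l) :
    ∃ q C δ, q < 1 ∧ 0 < δ ∧ ∀ l ∈ Icc 0 Λ, Sol a l q C δ (Y l) (Z l) := by
  refine (isCompact_Icc (a := 0) (b := Λ)).induction_on
    (p := fun s => ∃ q C δ, q < 1 ∧ 0 < δ ∧ ∀ l ∈ s, Sol a l q C δ (Y l) (Z l))
    ⟨0, 0, 1, one_pos, one_pos, fun _ h => h.elim⟩ ?_ ?_ ?_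
  · rintro s t hst ⟨q, C, δ, h1, h2, h3⟩
    exact ⟨q, C, δ, h1, h2, fun l hl => h3 l (hst hl)⟩
  · rintro s t ⟨q, C, δ, h1, h2, h3⟩ ⟨q', C', δ', h1', h2', h3'⟩
    refine ⟨max q q', max C C', min δ δ', max_lt h1 h1', lt_min h2 h2', ?_⟩
    rintro l (hl | hl)
    · exact mono (h3 l hl) (le_max_left _ _) (max_lt h1 h1') (le_max_left _ _) (min_le_left _ _)
        (lt_min h2 h2')
    · exact mono (h3' l hl) (le_max_right _ _) (max_lt h1 h1') (le_max_right _ _)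
        (min_le_right _ _) (lt_min h2 h2')
  · intro x hx
    obtain ⟨q, C, δ, h1, h2, h3⟩ := loc ha hY hZ hR hx.1 (hS x hx)
    exact ⟨_, inter_mem_nhdsWithin (Icc 0 Λ) h3, q, C, δ, h1, h2, fun l hl => hl.2 hl.1.1⟩

theorem le_three (hR : ∀ l, 0 ≤ l → Rad a l (Y l) (Z l)) {l : ℝ} (hl : 0 ≤ l) (hS : Sg Y l) :
    l ≤ 3 := by
  obtain ⟨q, hq, hn⟩ := hS
  have h1 := (hR l hl).low 0
  have h2 := hn 0
  simp only [mul_zero, exp_zero, zero_sub, sub_zero] at h1 h2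
  have h3 : l * exp (-1) ≤ l * exp (Y l 0) := mul_le_mul_of_nonneg_left (exp_le_exp.2 h1) hl
  have h4 : l / exp 1 < 1 := by
    rw [div_eq_mul_inv, ← exp_neg]; linarith
  rw [div_lt_one (exp_pos _)] at h4
  linarith [exp_one_lt_d9]

end Rad2A

open Rad2A in
theorem rad2 : SRad2 := by
  intro a Y Z ha hY hZ hR
  set S : Set ℝ := {L | ∀ l ∈ Icc 0 L, Sg Y l} with hS
  have s0 : Sg Y 0 := ⟨0, one_pos, fun t => by rw [zero_mul]⟩
  have h0 : (0 : ℝ) ∈ S := fun l hl => by rw [le_antisymm hl.2 hl.1]; exact s0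
  have h3 : ∀ L ∈ S, L ≤ 3 := fun L hL => by
    rcases le_total L 0 with h | h
    · linarith
    · exact le_three hR h (hL L ⟨h, le_rfl⟩)
  have hb : BddAbove S := ⟨3, h3⟩
  have hl0 : 0 ≤ sSup S := le_csSup hb h0
  have hl3 : sSup S ≤ 3 := csSup_le ⟨0, h0⟩ h3
  have hlt : ∀ l, 0 ≤ l → l < sSup S → Sg Y l := fun l hl hl' => by
    obtain ⟨L, hL, hL'⟩ := exists_lt_of_lt_csSup ⟨0, h0⟩ hl'
    exact hL l ⟨hl, hL'.le⟩
  have hnot : ¬ Sg Y (sSup S) := fun h => by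
    obtain ⟨q, C, δ, -, -, h1⟩ := loc ha hY hZ hR hl0 h
    obtain ⟨ε, hε, h2⟩ := Metric.eventually_nhds_iff.1 h1
    have h4 : sSup S + ε / 2 ∈ S := fun l hl => by
      rcases lt_or_ge l (sSup S) with h5 | h5
      · exact hlt l hl.1 h5
      · have h6 := h2 (y := l) (by
          rw [Real.dist_eq, abs_of_nonneg (by linarith)]; linarith [hl.2]) hl.1
        exact ⟨q, h6.q1, h6.neg⟩
    linarith [le_csSup hb h4]
  have hpos : 0 < sSup S := hl0.lt_of_ne fun h => hnot (h ▸ s0)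
  have hex : ∀ q < 1, ∃ t, q < sSup S * exp (Y (sSup S) t - 2 * t) := fun q hq => by
    by_contra hc
    push Not at hc
    exact hnot ⟨q, hq, hc⟩
  have hev : ∀ q t, q < sSup S * exp (Y (sSup S) t - 2 * t) →
      ∀ᶠ l in 𝓝 (sSup S), q < l * exp (Y l t - 2 * t) := fun q t h => by
    have hc : Continuous fun l => l * exp (Y l t - 2 * t) :=
      continuous_id.mul (continuous_exp.comp
        ((hY.comp (continuous_id.prodMk continuous_const)).sub continuous_const))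
    exact continuousAt_const.eventually_lt hc.continuousAt h
  obtain ⟨τ0, hτ⟩ := hex (1 / 2) (by norm_num)
  refine ⟨τ0, fun η hη => ?_⟩
  obtain ⟨t, ht⟩ := hex (1 - η) (by linarith)
  have e : ∀ᶠ l in 𝓝[<] (sSup S), l < sSup S ∧ 0 < l ∧ 1 / 2 < l * exp (Y l τ0 - 2 * τ0) ∧
      1 - η < l * exp (Y l t - 2 * t) :=
    Eventually.and self_mem_nhdsWithin (((eventually_gt_nhds hpos).and
      ((hev _ _ hτ).and (hev _ _ ht))).filter_mono nhdsWithin_le_nhds)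
  obtain ⟨Λ, h4, h5, h6, h7⟩ := e.exists
  obtain ⟨q, C, δ, -, -, h8⟩ := unif ha hY hZ hR (Λ := Λ) fun l hl =>
    hlt l hl.1 (hl.2.trans_lt h4)
  exact ⟨Λ, q, C, δ, h5, by linarith, h8, h6, t, h7⟩

end Pool.Agent.MP_ad2fa1_an.H64
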