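import Pool.Agent.MP_ad2fa1_an.H64.Spec

/-! The shape of the radial solution near its maximum. -/

set_option autoImplicit false

noncomputable section

namespace Pool.Agent.MP_ad2fa1_an.H64

open Real Set Filter Topology

namespace Rad3A

theorem mono {g g' : ℝ → ℝ} (hg : ∀ t, HasDerivAt g (g' t) t) {a b : ℝ} (hab : a ≤ b)
    (h : ∀ t ∈ Icc a b, 0 ≤ g' t) : g a ≤ g b := by
  rcases hab.eq_or_lt with e | e
  · rw [e]
  obtain ⟨c, hc, e1⟩ := exists_hasDerivAt_eq_slope g g' e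
    (fun t _ => (hg t).continuousAt.continuousWithinAt) (fun t _ => hg t)
  have h1 := h c (Ioo_subset_Icc_self hc)
  rw [e1, le_div_iff₀ (sub_pos.2 e)] at h1
  linarith

theorem right {w w1 w2 : ℝ → ℝ} (h1 : ∀ t, HasDerivAt w (w1 t) t)
    (h2 : ∀ t, HasDerivAt w1 (w2 t) t) {x h A : ℝ} (hA : ∀ t ∈ Icc x (x + h), A ≤ w2 t)
    (h0 : 0 ≤ w x) (h0' : 0 ≤ w1 x) : ∀ t ∈ Icc x (x + h), A * (t - x) ^ 2 / 2 ≤ w t := by
  have k1 : ∀ t ∈ Icc x (x + h), A * (t - x) ≤ w1 t := by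
    intro t ht
    have := mono (g := fun s => w1 s - A * s) (g' := fun s => w2 s - A)
      (fun s => (h2 s).sub (by simpa using (hasDerivAt_id s).const_mul A)) ht.1
      (fun s hs => sub_nonneg.2 (hA s ⟨hs.1, hs.2.trans ht.2⟩))
    linarith
  intro t ht
  have := mono (g := fun s => w s - A * (s - x) ^ 2 / 2) (g' := fun s => w1 s - A * (s - x))
    (fun s => by
      have e := ((((hasDerivAt_id s).sub_const x).pow 2).const_mul A).div_const 2
      refine (h1 s).sub (e.congr_deriv ?_)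
      simp only [id]
      push_cast
      ring) ht.1
    (fun s hs => sub_nonneg.2 (k1 s ⟨hs.1, hs.2.trans ht.2⟩))
  simp only [sub_self] at this
  linarith

theorem step {w w1 w2 : ℝ → ℝ} (h1 : ∀ t, HasDerivAt w (w1 t) t)
    (h2 : ∀ t, HasDerivAt w1 (w2 t) t) {x h A : ℝ} (hh : 0 ≤ h) (hA0 : 0 ≤ A)
    (hA : ∀ t ∈ Icc (x - h) (x + h), A ≤ w2 t) (h0 : 0 ≤ w x) :
    ∃ y, x - h ≤ y - h / 4 ∧ y + h / 4 ≤ x + h ∧
      ∀ t ∈ Icc (y - h / 4) (y + h / 4), A * h ^ 2 / 8 ≤ w t := by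
  rcases le_total 0 (w1 x) with s | s
  · refine ⟨x + 3 * h / 4, by linarith, by linarith, fun t ht => ?_⟩
    have := right h1 h2 (x := x) (h := h) (A := A)
      (fun t ht => hA t ⟨by linarith [ht.1], ht.2⟩) h0 s t ⟨by linarith [ht.1], by linarith [ht.2]⟩
    have e : (h / 2) ^ 2 ≤ (t - x) ^ 2 := pow_le_pow_left₀ (by linarith) (by linarith [ht.1]) 2
    nlinarith [mul_le_mul_of_nonneg_left e hA0]
  · refine ⟨x - 3 * h / 4, by linarith, by linarith, fun t ht => ?_⟩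
    have d : ∀ s : ℝ, HasDerivAt (fun s : ℝ => -s) (-1) s := fun s => hasDerivAt_neg s
    have := right (w := fun s => w (-s)) (w1 := fun s => -w1 (-s)) (w2 := fun s => w2 (-s))
      (fun s => ((h1 (-s)).comp s (d s)).congr_deriv (by ring))
      (fun s => ((h2 (-s)).comp s (d s)).neg.congr_deriv (by ring)) (x := -x) (h := h) (A := A)
      (fun t ht => hA (-t) ⟨by linarith [ht.2], by linarith [ht.1]⟩) (by simpa using h0)
      (by simpa using s) (-t) ⟨by linarith [ht.2], by linarith [ht.1]⟩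
    simp only [neg_neg] at this
    have e : (h / 2) ^ 2 ≤ (-t - -x) ^ 2 := pow_le_pow_left₀ (by linarith) (by linarith [ht.2]) 2
    nlinarith [mul_le_mul_of_nonneg_left e hA0]

/-- two steps -/
theorem twice {w w1 w2 : ℝ → ℝ} (h1 : ∀ t, HasDerivAt w (w1 t) t)
    (h2 : ∀ t, HasDerivAt w1 (w2 t) t) {b k m : ℝ} (hk : 0 ≤ k) (hm : 0 ≤ m)
    (hw : ∀ t ∈ Icc (b - 1) b, m ≤ w t ∧ w t ≤ 1 ∧ k * w t ≤ w2 t) : k ^ 2 * m ≤ 16384 := by
  obtain ⟨y, y1, y2, hy⟩ := step h1 h2 (x := b - 1 / 2) (h := 1 / 2) (A := k * m) (by norm_num)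
    (mul_nonneg hk hm)
    (fun t ht => by
      have := hw t ⟨by linarith [ht.1], by linarith [ht.2]⟩
      exact (mul_le_mul_of_nonneg_left this.1 hk).trans this.2.2)
    (hm.trans (hw _ ⟨by linarith, by linarith⟩).1)
  obtain ⟨z, z1, z2, hz⟩ := step h1 h2 (x := y) (h := 1 / 2 / 4)
    (A := k * (k * m * (1 / 2) ^ 2 / 8)) (by norm_num) (by positivity)
    (fun t ht => by
      have := hw t ⟨by linarith [ht.1], by linarith [ht.2]⟩
      exact (mul_le_mul_of_nonneg_left (hy t ht) hk).trans this.2.2)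
    (hm.trans (hw _ ⟨by linarith, by linarith⟩).1)
  have e1 := hz z ⟨by linarith, by linarith⟩
  have e2 := (hw z ⟨by linarith, by linarith⟩).2.1
  nlinarith

theorem one_sub_exp {w : ℝ} (h0 : 0 ≤ w) (h1 : w ≤ 1) : w / 2 ≤ 1 - exp (-w) := by
  have e1 : w + 1 ≤ exp w := add_one_le_exp w
  have e2 : exp (-w) * exp w = 1 := by rw [← exp_add]; simp
  have e3 : 0 < exp (-w) := exp_pos _
  have e4 : exp (-w) * (w + 1) ≤ 1 := by nlinarith
  nlinarith

end Rad3A

open Rad3A in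
theorem rad3 : SRad3 := by
  intro a τ0 ha
  obtain ⟨D, hD⟩ : ∃ D : ℝ, D = 2 * exp ((2 * a - 2) * τ0) := ⟨_, rfl⟩
  have D0 : 0 < D := by rw [hD]; positivity
  obtain ⟨c, hc⟩ : ∃ c : ℝ, c = (12 * exp 2) ^ 2 * 16384 := ⟨_, rfl⟩
  have c0 : 0 < c := by rw [hc]; positivity
  obtain ⟨m0, m0p, m01, m02, m03⟩ : ∃ m0 : ℝ, 0 < m0 ∧ m0 ≤ 1 / 4 ∧
      m0 ≤ 1 / (D * exp (2 * τ0 + 2)) ∧ m0 ≤ 1 / (D ^ 2 * c) :=
    ⟨min (1 / 4) (min (1 / (D * exp (2 * τ0 + 2))) (1 / (D ^ 2 * c))), by positivity,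
      min_le_left _ _, (min_le_right _ _).trans (min_le_left _ _),
      (min_le_right _ _).trans (min_le_right _ _)⟩
  refine ⟨1 - exp (-m0), sub_pos.2 (exp_lt_one_iff.2 (by linarith)), ?_⟩
  rintro l q C δ Y Z hS hl3 h0 ⟨t1, ht1⟩
  have l0 : 0 < l := by
    by_contra hn
    have : l = 0 := le_antisymm (not_lt.1 hn) hS.l0
    rw [this] at h0
    linarith
  obtain ⟨w, hw⟩ : ∃ w : ℝ → ℝ, w = fun t => -(Y t - 2 * t + log l) := ⟨_, rfl⟩
  have hs : ∀ t, l * exp (Y t - 2 * t) = exp (-w t) := by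
    intro t
    rw [hw]
    simp only [neg_neg]
    rw [exp_add, exp_log l0, mul_comm]
  have w0 : ∀ t, 0 < w t := by
    intro t
    have := (hS.neg t).trans_lt hS.q1
    rw [hs, exp_lt_one_iff] at this
    linarith
  have d1 : ∀ t, HasDerivAt w (2 - Z t) t := by
    intro t
    rw [hw]
    have e := (((hS.dY t).sub ((hasDerivAt_id t).const_mul 2)).add_const (log l)).neg
    exact e.congr_deriv (by ring)
  have d2 : ∀ t, HasDerivAt (fun t => 2 - Z t) (PP Y t - QQ l Y t) t := fun t =>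
    ((hS.dZ' t).const_sub 2).congr_deriv (by ring)
  have hP : ∀ t, PP Y t = exp (2 * t) * exp (-w t) / l := by
    intro t
    rw [← hs, PP, mul_left_comm, ← exp_add]
    field_simp
    congr 1
    ring
  have hPQ : ∀ t, PP Y t - QQ l Y t = exp (2 * t) * exp (-w t) / l * (1 - exp (-w t)) := by
    intro t
    rw [QQ_eq, hs, hP]
    ring
  have pq0 : ∀ t, 0 < PP Y t - QQ l Y t := fun t => sub_pos.2 (hS.bounds t).2.1
  have cw : Continuous w := continuous_iff_continuousAt.2 fun t => (d1 t).continuousAt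
  have hL : exp (-log 2) = 1 / 2 := by rw [exp_neg, exp_log two_pos]; norm_num
  have L1 := log_two_gt_d9
  have L2 := log_two_lt_d9
  have wτ : w τ0 < log 2 := by
    rw [hs, ← hL, exp_lt_exp] at h0
    linarith
  have wt1 : w t1 < m0 := by
    rw [hs, sub_sub_cancel, exp_lt_exp] at ht1
    linarith
  -- far ends
  obtain ⟨A, hA⟩ : ∃ A : ℝ, ∀ t ≤ A, log 2 < w t := by
    refine ⟨min 0 (-(log l + 1)), fun t ht => ?_⟩
    have e1 := ht.trans (min_le_left _ _)
    have e2 := ht.trans (min_le_right _ _)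
    have e3 := hS.up t
    rw [hw]
    simp only
    by_cases hz : 0 ≤ log l + 1
    · nlinarith
    · nlinarith
  obtain ⟨B, hB⟩ : ∃ B : ℝ, ∀ t ≥ B, log 2 < w t := by
    have C0 : 0 < C := by
      have := (exp_pos _).trans_le (hS.dec 0)
      exact (pos_iff_pos_of_mul_pos this).2 (om_pos δ 0)
    refine ⟨(log C + log l + 1) / 2, fun t ht => ?_⟩
    have e1 : exp (Y t) ≤ C :=
      (hS.dec t).trans (mul_le_of_le_one_right C0.le (om_le_one hS.d0.le t))
    have e2 : Y t ≤ log C := (le_log_iff_exp_le C0).2 e1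
    rw [hw]
    simp only
    linarith
  have inAB : ∀ t, w t ≤ log 2 → t ∈ Ioo A B := fun t ht =>
    ⟨not_le.1 fun h => absurd (hA t h) (not_lt.2 ht), not_le.1 fun h => absurd (hB t h) (not_lt.2 ht)⟩
  have i0 := inAB τ0 wτ.le
  obtain ⟨tm, -, htm⟩ := isCompact_Icc.exists_isMinOn (s := Icc A B)
    ⟨τ0, Ioo_subset_Icc_self i0⟩ cw.continuousOn
  have wm0 : w tm ≤ w τ0 := htm (Ioo_subset_Icc_self i0)
  have gmin : ∀ t, w tm ≤ w t := by
    intro t
    by_cases h : w t ≤ log 2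
    · exact htm (Ioo_subset_Icc_self (inAB t h))
    · linarith
  have im := inAB tm (by linarith)
  have zm : 2 - Z tm = 0 :=
    IsLocalMin.hasDerivAt_eq_zero (Eventually.of_forall gmin) (d1 tm)
  have mR : ∀ s t, tm ≤ s → s ≤ t → w s ≤ w t := by
    intro s t h1 h2
    refine mono d1 h2 fun r hr => ?_
    have := mono d2 (h1.trans hr.1) fun r _ => (pq0 r).le
    linarith
  have mL : ∀ s t, s ≤ t → t ≤ tm → w t ≤ w s := by
    intro s t h1 h2
    have := mono (g := fun r => -w r) (g' := fun r => -(2 - Z r)) (fun r => (d1 r).neg) h1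
      fun r hr => by
        have := mono d2 (hr.2.trans h2) fun r _ => (pq0 r).le
        linarith
    linarith
  obtain ⟨τ1, i1, e1⟩ := intermediate_value_Icc' im.1.le cw.continuousOn
    (show log 2 ∈ Icc (w tm) (w A) from ⟨by linarith, (hA A le_rfl).le⟩)
  obtain ⟨τ2, i2, e2⟩ := intermediate_value_Icc im.2.le cw.continuousOn
    (show log 2 ∈ Icc (w tm) (w B) from ⟨by linarith, (hB B le_rfl).le⟩)
  have lt1 : τ1 < tm := lt_of_le_of_ne i1.2 fun h => by rw [h] at e1; linarith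
  have lt2 : tm < τ2 := lt_of_le_of_ne i2.1 fun h => by rw [← h] at e2; linarith
  have mid : ∀ t ∈ Icc τ1 τ2, w t ≤ log 2 := by
    intro t ht
    rcases le_total t tm with h | h
    · exact (mL τ1 t ht.1 h).trans e1.le
    · exact (mR t τ2 h ht.2).trans e2.le
  have half : ∀ t ∈ Icc τ1 τ2, 1 / 2 ≤ exp (-w t) := fun t ht => by
    rw [← hL]; exact exp_le_exp.2 (by linarith [mid t ht])
  have τ01 : τ1 ≤ τ0 := by
    by_contra hn
    have := mL τ0 τ1 (not_le.1 hn).le lt1.le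
    linarith
  have mlt : w tm < m0 := (gmin t1).trans_lt wt1
  have lD : 1 / l ≤ D := by
    rw [div_le_iff₀ l0, hD]
    have e3 : exp (Y τ0 - 2 * τ0) ≤ exp ((2 * a - 2) * τ0) := exp_le_exp.2 (by linarith [hS.up τ0])
    nlinarith [mul_le_mul_of_nonneg_left e3 l0.le]
  have key : D * exp (2 * τ2) * w tm ≤ 1 := by
    have wm := w0 tm
    rcases le_or_gt τ2 (τ0 + 1) with h | h
    · have e3 : exp (2 * τ2) ≤ exp (2 * τ0 + 2) := exp_le_exp.2 (by linarith)
      have e4 : 0 < D * exp (2 * τ0 + 2) := by positivity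
      have e5 := (le_div_iff₀ e4).1 (mlt.le.trans m02)
      have e6 : D * exp (2 * τ2) * w tm ≤ D * exp (2 * τ0 + 2) * w tm := by gcongr
      linarith
    · have k0 : 0 ≤ exp (2 * τ2 - 2) / 12 := by positivity
      have tw := twice d1 d2 (b := τ2) k0 wm.le fun t ht => by
        have it : t ∈ Icc τ1 τ2 := ⟨by linarith [ht.1], ht.2⟩
        have b1 : w t ≤ 1 := by linarith [mid t it]
        refine ⟨gmin t, b1, ?_⟩
        rw [hPQ]
        have b2 := one_sub_exp (w0 t).le b1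
        have b3 : exp (2 * τ2 - 2) ≤ exp (2 * t) := exp_le_exp.2 (by linarith [ht.1])
        have b4 := half t it
        have b5 := w0 t
        calc exp (2 * τ2 - 2) / 12 * w t = exp (2 * τ2 - 2) * (1 / 2) / 3 * (w t / 2) := by ring
          _ ≤ exp (2 * t) * exp (-w t) / l * (1 - exp (-w t)) := by gcongr
      have e3 : exp (2 * τ2) = 12 * exp 2 * (exp (2 * τ2 - 2) / 12) := by
        rw [show 2 * τ2 = 2 + (2 * τ2 - 2) by ring, exp_add]
        ring_nf
      have e4 : 0 < D ^ 2 * c := by positivity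
      have e5 := (le_div_iff₀ e4).1 (mlt.le.trans m03)
      have e6 : (D * exp (2 * τ2) * w tm) ^ 2 ≤ w tm * (D ^ 2 * c) := by
        rw [e3, hc]
        generalize exp (2 * τ2 - 2) / 12 = k at tw k0 ⊢
        calc (D * (12 * exp 2 * k) * w tm) ^ 2
            = w tm * (D ^ 2 * ((12 * exp 2) ^ 2 * (k ^ 2 * w tm))) := by ring
          _ ≤ w tm * (D ^ 2 * ((12 * exp 2) ^ 2 * 16384)) := by gcongr
      exact (pow_le_one_iff_of_nonneg (by positivity) two_ne_zero).1 (e6.trans e5)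
  have main : exp (τ2 - tm) * (PP Y tm - QQ l Y tm) ≤ 1 := by
    have wm := w0 tm
    have b1 : 1 - exp (-w tm) ≤ w tm := by linarith [add_one_le_exp (-w tm)]
    have b2 : exp (-w tm) ≤ 1 := exp_le_one_iff.2 (by linarith)
    have b3 : exp (τ2 - tm) * exp (2 * tm) ≤ exp (2 * τ2) := by
      rw [← exp_add]; exact exp_le_exp.2 (by linarith)
    have b4 : 0 ≤ 1 - exp (-w tm) := by linarith
    calc exp (τ2 - tm) * (PP Y tm - QQ l Y tm)
        = 1 / l * (exp (τ2 - tm) * exp (2 * tm)) * exp (-w tm) * (1 - exp (-w tm)) := by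
          rw [hPQ]; ring
      _ ≤ D * exp (2 * τ2) * 1 * w tm := by gcongr
      _ ≤ 1 := by rw [mul_one]; exact key
  have wv : ∀ t, Y t - 2 * t = -w t - log l := fun t => by rw [hw]; ring
  refine ⟨τ2, τ1, tm, lt1, lt2, by linarith, fun t ht => ?_, ?_, ?_⟩
  · have b0 : 0 < PP Y t := exp_pos _
    have b1 := half t ht
    rw [VV, QQ_eq, hs]
    nlinarith
  · have b1 : 1 ≤ exp (τ2 - tm) := one_le_exp (by linarith)
    have b2 := pq0 tm
    rw [wv, wv, e1]
    nlinarith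
  · rw [wv, wv, e2]
    linarith

end Pool.Agent.MP_ad2fa1_an.H64
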