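import Pool.Agent.MP_ad2fa1_an.H64.Spec

/-!
The nonlinear remainder.
-/

set_option autoImplicit false
set_option linter.unusedVariables false

noncomputable section

namespace Pool.Agent.MP_ad2fa1_an.H64

open Real Set Filter Topology MeasureTheory BoundedContinuousFunction Function

namespace RemA

variable {A : Type} [NormedCommRing A] [NormedAlgebra ℝ A] [CompleteSpace A]

/-- The exponential without its affine part. -/
def Ex (a : A) : A := NormedSpace.exp a - 1 - a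

omit [NormedAlgebra ℝ A] [CompleteSpace A] in
theorem pow_lip {a b : A} {r : ℝ} (ha : ‖a‖ ≤ r) (hb : ‖b‖ ≤ r) (n : ℕ) :
    ‖a ^ (n + 1) - b ^ (n + 1)‖ ≤ (n + 1) * r ^ n * ‖a - b‖ := by
  have hr : 0 ≤ r := (norm_nonneg a).trans ha
  induction n with
  | zero => simp
  | succ n ih =>
    have e : a ^ (n + 1 + 1) - b ^ (n + 1 + 1) =
        a * (a ^ (n + 1) - b ^ (n + 1)) + (a - b) * b ^ (n + 1) := by ring
    have h1 : ‖a * (a ^ (n + 1) - b ^ (n + 1))‖ ≤ r * ((n + 1) * r ^ n * ‖a - b‖) :=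
      (norm_mul_le _ _).trans (mul_le_mul ha ih (norm_nonneg _) hr)
    have h2 : ‖b ^ (n + 1)‖ ≤ r ^ (n + 1) :=
      (norm_pow_le' b (Nat.succ_pos n)).trans (pow_le_pow_left₀ (norm_nonneg _) hb _)
    have h3 : ‖(a - b) * b ^ (n + 1)‖ ≤ ‖a - b‖ * r ^ (n + 1) :=
      (norm_mul_le _ _).trans (mul_le_mul_of_nonneg_left h2 (norm_nonneg _))
    rw [e]
    refine (norm_add_le _ _).trans ((add_le_add h1 h3).trans (le_of_eq ?_))
    push_cast; ring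

theorem ex_sum (a : A) :
    HasSum (fun n : ℕ => (((n + 2).factorial : ℝ)⁻¹) • a ^ (n + 2)) (Ex a) := by
  have h := (hasSum_nat_add_iff' 2).2 (NormedSpace.exp_series_hasSum_exp' (𝕂 := ℝ) a)
  have e : Ex a = NormedSpace.exp a -
      ∑ i ∈ Finset.range 2, ((i.factorial : ℝ)⁻¹) • a ^ i := by
    simp [Ex, Finset.sum_range_succ, sub_sub]
  rw [e]; exact h

theorem ex_lip {a b : A} {r : ℝ} (ha : ‖a‖ ≤ r) (hb : ‖b‖ ≤ r) :
    ‖Ex a - Ex b‖ ≤ r * exp r * ‖a - b‖ := by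
  have hr : 0 ≤ r := (norm_nonneg a).trans ha
  have h := (ex_sum a).sub (ex_sum b)
  have hg : HasSum (fun n : ℕ => r * (r ^ n / n.factorial) * ‖a - b‖) (r * exp r * ‖a - b‖) := by
    have := NormedSpace.expSeries_div_hasSum_exp r
    rw [← Real.exp_eq_exp_ℝ] at this
    exact (this.mul_left r).mul_right _
  rw [← h.tsum_eq]
  refine tsum_of_norm_bounded hg fun n => ?_
  rw [← smul_sub, norm_smul, norm_inv, Real.norm_natCast]
  have h1 := pow_lip ha hb (n + 1)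
  have hf : (0 : ℝ) < n.factorial := by exact_mod_cast n.factorial_pos
  have e : ((n + 2).factorial : ℝ) = (n + 2) * ((n + 1) * n.factorial) := by
    rw [Nat.factorial_succ, Nat.factorial_succ]; push_cast; ring
  refine (mul_le_mul_of_nonneg_left h1 (by positivity)).trans ?_
  rw [e]
  have e2 : (((n : ℝ) + 2) * ((n + 1) * n.factorial))⁻¹ * ((((n + 1 : ℕ) : ℝ) + 1) * r ^ (n + 1) *
      ‖a - b‖) = (r * (r ^ n / n.factorial) * ‖a - b‖) / (n + 1) := by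
    push_cast; field_simp; ring
  rw [e2]
  exact div_le_self (by positivity) (by linarith [(Nat.cast_nonneg n : (0 : ℝ) ≤ n)])

theorem ex_cont : Continuous (Ex : A → A) := by
  have h : Continuous (NormedSpace.exp : A → A) := by
    rw [← continuousOn_univ, ← Metric.eball_top_eq_univ (0 : A),
      ← NormedSpace.expSeries_radius_eq_top ℝ A]
    exact NormedSpace.continuousOn_exp
  unfold Ex
  fun_prop

omit [NormedAlgebra ℝ A] [CompleteSpace A] in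
theorem ex_zero : Ex (0 : A) = 0 := by simp [Ex]

theorem ex_smul {δ c τ : ℝ} (hδ : 0 < δ) (hc : 0 ≤ c) (hc2 : c ≤ 2 * rho τ) {x y : ℝ →ᵇ A}
    (hx : ‖x‖ ≤ δ / 16) (hy : ‖y‖ ≤ δ / 16) :
    ‖Ex (c • x τ) - Ex (c • y τ)‖ ≤
      4 * rho τ ^ 2 * exp (δ / 4 * rho τ) * ((‖x‖ + ‖y‖) * ‖x - y‖) := by
  have hρ := rho_pos τ
  have hx0 := norm_nonneg x
  have hy0 := norm_nonneg y
  have b1 : ∀ z : ℝ →ᵇ A, ‖c • z τ‖ ≤ 2 * rho τ * ‖z‖ := fun z => by
    rw [norm_smul, Real.norm_of_nonneg hc]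
    exact mul_le_mul hc2 (z.norm_coe_le_norm τ) (norm_nonneg _) (by positivity)
  have h := ex_lip (r := 2 * rho τ * (‖x‖ + ‖y‖)) (a := c • x τ) (b := c • y τ)
    ((b1 x).trans (by gcongr; linarith)) ((b1 y).trans (by gcongr; linarith))
  have b2 : ‖c • x τ - c • y τ‖ ≤ 2 * rho τ * ‖x - y‖ := by
    rw [← smul_sub]; exact b1 (x - y)
  have b3 : exp (2 * rho τ * (‖x‖ + ‖y‖)) ≤ exp (δ / 4 * rho τ) :=
    exp_le_exp.2 (by nlinarith)
  refine h.trans ((mul_le_mul (mul_le_mul_of_nonneg_left b3 (by positivity)) b2 (norm_nonneg _)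
    (by positivity)).trans (le_of_eq ?_))
  ring

theorem weight {δ : ℝ} (hδ : 0 < δ) (τ : ℝ) :
    exp (-(δ / 2) * |τ|) * (4 * rho τ ^ 2 * exp (δ / 4 * rho τ)) ≤
      4 * (1 + 16 / δ) ^ 2 * exp (δ / 4) * exp (-(δ / 8) * |τ|) := by
  have hu := abs_nonneg τ
  have h1 : rho τ ≤ (1 + 16 / δ) * exp (δ / 16 * |τ|) := by
    have h2 := add_one_le_exp (δ / 16 * |τ|)
    refine le_trans ?_ (mul_le_mul_of_nonneg_left h2 (by positivity))
    have e : (1 + 16 / δ) * (δ / 16 * |τ| + 1) = 1 + |τ| + (δ / 16 * |τ| + 16 / δ) := by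
      field_simp; ring
    rw [e]
    exact le_add_of_nonneg_right (by positivity)
  have h3 : rho τ ^ 2 ≤ (1 + 16 / δ) ^ 2 * exp (δ / 8 * |τ|) := by
    refine (pow_le_pow_left₀ (rho_pos τ).le h1 2).trans (le_of_eq ?_)
    rw [mul_pow, sq (exp _), ← exp_add]
    congr 2; ring
  have e2 : exp (-(δ / 2) * |τ|) * exp (δ / 8 * |τ|) * exp (δ / 4 * rho τ) =
      exp (δ / 4) * exp (-(δ / 8) * |τ|) := by
    rw [← exp_add, ← exp_add, ← exp_add]; congr 1; unfold rho; ring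
  calc _ ≤ exp (-(δ / 2) * |τ|) * (4 * ((1 + 16 / δ) ^ 2 * exp (δ / 8 * |τ|)) *
        exp (δ / 4 * rho τ)) := by gcongr
    _ = 4 * (1 + 16 / δ) ^ 2 * (exp (-(δ / 2) * |τ|) * exp (δ / 8 * |τ|) *
        exp (δ / 4 * rho τ)) := by ring
    _ = _ := by rw [e2]; ring

/-- The remainder at a point. -/
def F (P Q : ℝ → ℝ → ℝ) (δ : ℝ) (x : ℝ →ᵇ A) (l τ : ℝ) : A :=
  (om (δ / 2) τ)⁻¹ • (P l τ • Ex (rho τ • x τ) - Q l τ • Ex ((2 * rho τ) • x τ))

omit [CompleteSpace A] in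
theorem F_zero (P Q : ℝ → ℝ → ℝ) (δ l τ : ℝ) : F P Q δ (0 : ℝ →ᵇ A) l τ = 0 := by
  simp [F, ex_zero]

theorem F_lip {P Q : ℝ → ℝ → ℝ} {δ C l τ : ℝ} (hδ : 0 < δ) (hP : |P l τ| ≤ C * om δ τ)
    (hQ : |Q l τ| ≤ C * om δ τ) {x y : ℝ →ᵇ A} (hx : ‖x‖ ≤ δ / 16) (hy : ‖y‖ ≤ δ / 16) :
    ‖F P Q δ x l τ - F P Q δ y l τ‖ ≤ 2 * |C| * (4 * (1 + 16 / δ) ^ 2 * exp (δ / 4)) *
      exp (-(δ / 8) * |τ|) * ((‖x‖ + ‖y‖) * ‖x - y‖) := by
  have hρ := rho_pos τ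
  have ho := om_pos (δ / 2) τ
  have ho' := om_pos δ τ
  have h1 := ex_smul hδ hρ.le (by linarith : rho τ ≤ 2 * rho τ) hx hy
  have h2 := ex_smul hδ (by positivity : 0 ≤ 2 * rho τ) le_rfl hx hy
  have e : F P Q δ x l τ - F P Q δ y l τ =
      ((om (δ / 2) τ)⁻¹ * P l τ) • (Ex (rho τ • x τ) - Ex (rho τ • y τ)) -
      ((om (δ / 2) τ)⁻¹ * Q l τ) • (Ex ((2 * rho τ) • x τ) - Ex ((2 * rho τ) • y τ)) := by
    simp only [F, smul_sub, smul_smul]; abel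
  have hb : ∀ p : ℝ, |p| ≤ C * om δ τ →
      ‖(om (δ / 2) τ)⁻¹ * p‖ ≤ |C| * exp (-(δ / 2) * |τ|) := fun p hp => by
    rw [Real.norm_eq_abs, abs_mul, abs_of_pos (inv_pos.2 ho), inv_mul_le_iff₀ ho]
    refine hp.trans ((mul_le_mul_of_nonneg_right (le_abs_self C) ho'.le).trans (le_of_eq ?_))
    rw [om_half δ τ]; ring
  have hw := weight hδ τ
  set s := (‖x‖ + ‖y‖) * ‖x - y‖ with hs
  have hs0 : 0 ≤ s := by positivity
  set B := 4 * rho τ ^ 2 * exp (δ / 4 * rho τ) with hB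
  rw [e]
  refine (norm_sub_le _ _).trans ?_
  rw [norm_smul, norm_smul]
  calc _ ≤ |C| * exp (-(δ / 2) * |τ|) * (B * s) + |C| * exp (-(δ / 2) * |τ|) * (B * s) :=
        add_le_add (mul_le_mul (hb _ hP) h1 (norm_nonneg _) (by positivity))
          (mul_le_mul (hb _ hQ) h2 (norm_nonneg _) (by positivity))
    _ = 2 * |C| * (exp (-(δ / 2) * |τ|) * B) * s := by ring
    _ ≤ 2 * |C| * (4 * (1 + 16 / δ) ^ 2 * exp (δ / 4) * exp (-(δ / 8) * |τ|)) * s := by gcongr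
    _ = _ := by ring

theorem F_cont {P Q : ℝ → ℝ → ℝ} (δ : ℝ) (hP : Continuous (uncurry P))
    (hQ : Continuous (uncurry Q)) (x : ℝ →ᵇ A) : Continuous (uncurry (F P Q δ x)) := by
  have hx : Continuous fun p : ℝ × ℝ => x p.2 := x.continuous.comp continuous_snd
  have hr : Continuous fun p : ℝ × ℝ => rho p.2 := rho_cont.comp continuous_snd
  have ho : Continuous fun p : ℝ × ℝ => (om (δ / 2) p.2)⁻¹ :=
    ((om_cont _).comp continuous_snd).inv₀ fun p => (om_pos _ _).ne'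
  exact ho.smul ((hP.smul (ex_cont.comp (hr.smul hx))).sub
    (hQ.smul (ex_cont.comp ((continuous_const.mul hr).smul hx))))

theorem decay {δ : ℝ} (hδ : 0 < δ) (K s : ℝ) :
    Tendsto (fun τ : ℝ => K * exp (-(δ / 8) * |τ|) * s) (cocompact ℝ) (𝓝 0) := by
  have h : Tendsto (fun τ : ℝ => exp (-(δ / 8) * |τ|)) (cocompact ℝ) (𝓝 0) :=
    tendsto_exp_atBot.comp
      ((tendsto_norm_cocompact_atTop (E := ℝ)).const_mul_atTop_of_neg (by linarith : -(δ / 8) < 0))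
  simpa using (h.const_mul K).mul_const s

end RemA

open RemA in
theorem rem : SBc → SRem := by
  intro hb A _ _ _ P Q a b C δ hδ hP hQ hPQ
  set K := 2 * |C| * (4 * (1 + 16 / δ) ^ 2 * exp (δ / 4)) with hK
  have hK0 : 0 ≤ K := by positivity
  have h0 : ‖(0 : ℝ →ᵇ A)‖ ≤ δ / 16 := by rw [norm_zero]; positivity
  have hv : ∀ x : ℝ →ᵇ A, ∃ v : ℝ → ℝ →ᵇ A, ‖x‖ ≤ δ / 16 →
      ContinuousOn v (Icc a b) ∧ ∀ l ∈ Icc a b, ∀ τ, v l τ = F P Q δ x l τ := fun x => by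
    by_cases hx : ‖x‖ ≤ δ / 16
    · obtain ⟨v, hv⟩ := hb A (F P Q δ x) _ a b (F_cont δ hP hQ x)
        (RemA.decay hδ K ((‖x‖ + ‖(0 : ℝ →ᵇ A)‖) * ‖x - 0‖)) fun l hl τ => by
          have := F_lip hδ (hPQ l hl τ).1 (hPQ l hl τ).2 hx h0
          rwa [F_zero, sub_zero] at this
      exact ⟨v, fun _ => hv⟩
    · exact ⟨0, fun h => absurd h hx⟩
  choose v hv using hv
  refine ⟨fun l x => v x l, δ / 16, K, by positivity, fun l hl => ?_, fun l hl x y hx hy => ?_,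
    fun x hx => (hv x hx).1, fun l hl x hx τ => ?_⟩
  · ext τ
    rw [(hv 0 h0).2 l hl τ, F_zero]; rfl
  · refine (norm_le (by positivity)).2 fun τ => ?_
    rw [BoundedContinuousFunction.sub_apply, (hv x hx).2 l hl τ, (hv y hy).2 l hl τ]
    refine (F_lip hδ (hPQ l hl τ).1 (hPQ l hl τ).2 hx hy).trans ?_
    have h1 : exp (-(δ / 8) * |τ|) ≤ 1 := exp_le_one_iff.2 (by nlinarith [abs_nonneg τ])
    calc _ ≤ K * 1 * ((‖x‖ + ‖y‖) * ‖x - y‖) := by gcongr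
      _ = _ := by ring
  · rw [(hv x hx).2 l hl τ, F, smul_inv_smul₀ (om_pos _ _).ne']
    rfl

end Pool.Agent.MP_ad2fa1_an.H64
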