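import Pool.Agent.MP_ad2fa1_an.H64.Spec

/-!
Three small steps: decay, invertibility, choice of the parameter interval.
-/

set_option autoImplicit false

noncomputable section

namespace Pool.Agent.MP_ad2fa1_an.H64

open Real Set Filter Topology MeasureTheory BoundedContinuousFunction Function

namespace SmallA

theorem conv0 {κ K : ℝ} {f : ℝ → ℝ} (hκ : 0 < κ) (hf : Continuous f) (hK : ∀ t, |f t| ≤ K)
    (h0 : Tendsto f atBot (𝓝 0)) :
    Tendsto (fun t => ∫ τ, G κ (t - τ) * f τ) atBot (𝓝 0) := by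
  have e : ∀ t, ∫ τ, G κ (t - τ) * f τ = ∫ s, G κ s * f (t - s) := fun t => by
    rw [← integral_sub_left_eq_self (fun s => G κ s * f (t - s)) volume t]
    simp only [sub_sub_cancel]
  simp only [e]
  have hi : Integrable (G κ) := (int_exp_abs hκ).div_const (2 * κ)
  have h := tendsto_integral_filter_of_dominated_convergence (μ := (volume : Measure ℝ))
    (l := atBot) (F := fun t s => G κ s * f (t - s)) (f := fun _ => (0 : ℝ))
    (fun s => G κ s * K)
    (Eventually.of_forall fun t => (by fun_prop : Continuous fun s => G κ s * f (t - s))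
      |>.aestronglyMeasurable)
    (Eventually.of_forall fun t => Eventually.of_forall fun s => by
      rw [Real.norm_eq_abs, abs_mul, abs_of_pos (G_pos hκ s)]
      exact mul_le_mul_of_nonneg_left (hK _) (G_pos hκ s).le)
    (hi.mul_const K)
    (Eventually.of_forall fun s => by
      have h1 : Tendsto (fun t : ℝ => t - s) atBot atBot :=
        tendsto_atBot_add_const_right _ (-s) tendsto_id
      simpa using (h0.comp h1).const_mul (G κ s))
  simpa using h

end SmallA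

open SmallA in
theorem decay : SDecay := by
  intro κ M K h g hκ hM hMκ hh hg bh bg g0 hle
  have hK : 0 ≤ K := (bh 0).1.trans (bh 0).2
  have hκ2 : 0 < κ ^ 2 := by positivity
  have hθ0 : 0 ≤ M / κ ^ 2 := by positivity
  have hθ1 : M / κ ^ 2 < 1 := (div_lt_one hκ2).2 hMκ
  have key : ∀ n : ℕ, Tendsto (fun t => max (h t - K * (M / κ ^ 2) ^ n) 0) atBot (𝓝 0) := by
    intro n
    induction n with
    | zero =>
      refine tendsto_const_nhds.congr fun t => ?_
      rw [pow_zero, mul_one, max_eq_right (sub_nonpos.2 (bh t).2)]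
    | succ n ih =>
      set a := K * (M / κ ^ 2) ^ n with ha
      have a0 : 0 ≤ a := by positivity
      have hc : Continuous fun τ => g τ + M * max (h τ - a) 0 := by fun_prop
      have hb : ∀ τ, |g τ + M * max (h τ - a) 0| ≤ K + M * K := fun τ => by
        have h1 : max (h τ - a) 0 ≤ K := max_le (by linarith [(bh τ).2]) hK
        have h2 : 0 ≤ max (h τ - a) 0 := le_max_right _ _
        rw [abs_of_nonneg (add_nonneg (bg τ).1 (mul_nonneg hM h2))]
        exact add_le_add (bg τ).2 (mul_le_mul_of_nonneg_left h1 hM)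
      have h1 := conv0 hκ hc hb (by simpa using g0.add (ih.const_mul M))
      have hb' : ∀ τ, |g τ + M * h τ| ≤ K + M * K := fun τ => by
        rw [abs_of_nonneg (add_nonneg (bg τ).1 (mul_nonneg hM (bh τ).1))]
        exact add_le_add (bg τ).2 (mul_le_mul_of_nonneg_left (bh τ).2 hM)
      refine squeeze_zero (fun t => le_max_right _ _) (fun t => max_le ?_ ?_) h1
      · have i1 := G_mul_int hκ hc hb t
        have i2 := (G_int hκ t).mul_const (M * a)
        have h2 : ∫ τ, G κ (t - τ) * (g τ + M * h τ) ≤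
            ∫ τ, (G κ (t - τ) * (g τ + M * max (h τ - a) 0) + G κ (t - τ) * (M * a)) := by
          refine integral_mono (G_mul_int hκ (by fun_prop) hb' t) (i1.add i2) fun τ => ?_
          have h3 : h τ ≤ max (h τ - a) 0 + a := by linarith [le_max_left (h τ - a) 0]
          have h4 := mul_le_mul_of_nonneg_left h3 hM
          have h5 := G_pos hκ (t - τ)
          show G κ (t - τ) * (g τ + M * h τ) ≤
            G κ (t - τ) * (g τ + M * max (h τ - a) 0) + G κ (t - τ) * (M * a)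
          nlinarith
        rw [integral_add i1 i2, integral_mul_const, G_integral hκ t] at h2
        have h6 : K * (M / κ ^ 2) ^ (n + 1) = 1 / κ ^ 2 * (M * a) := by
          rw [ha, pow_succ]
          ring
        linarith [hle t]
      · exact integral_nonneg fun τ => mul_nonneg (G_pos hκ _).le
          (add_nonneg (bg τ).1 (mul_nonneg hM (le_max_right _ _)))
  rw [Metric.tendsto_nhds]
  intro ε hε
  have h1 : Tendsto (fun n : ℕ => K * (M / κ ^ 2) ^ n) atTop (𝓝 0) := by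
    simpa using (tendsto_pow_atTop_nhds_zero_of_lt_one hθ0 hθ1).const_mul K
  obtain ⟨n, hn⟩ := (h1.eventually (gt_mem_nhds (half_pos hε))).exists
  filter_upwards [(key n).eventually (gt_mem_nhds (half_pos hε))] with t ht
  rw [Real.dist_eq, sub_zero, abs_of_nonneg (bh t).1]
  linarith [le_max_left (h t - K * (M / κ ^ 2) ^ n) 0]

theorem unit : SUnit := by
  intro E _ _ _ T Ψ c D θ hc hθ0 hθ1 hΨ hT
  have hD : 0 < D := hc.trans_le ((hΨ 0).1.trans (hΨ 0).2)
  have h1 : ∀ (x : ℝ →ᵇ E) (n : ℕ) (t : ℝ), ‖(T ^ n) x t‖ ≤ θ ^ n * (‖x‖ / c) * Ψ t := by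
    intro x n
    induction n with
    | zero =>
      intro t
      rw [pow_zero, pow_zero, one_mul]
      refine (x.norm_coe_le_norm t).trans ?_
      rw [div_mul_eq_mul_div, le_div_iff₀ hc]
      exact mul_le_mul_of_nonneg_left (hΨ t).1 (norm_nonneg _)
    | succ n ih =>
      intro t
      have h2 := hT ((T ^ n) x) (θ ^ n * (‖x‖ / c)) (by positivity) ih t
      rw [pow_succ', pow_succ']
      refine h2.trans_eq ?_
      ring
  have h2 : ∀ n : ℕ, ‖T ^ n‖ ≤ θ ^ n * (D / c) := fun n => by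
    refine ContinuousLinearMap.opNorm_le_bound _ (by positivity) fun x => ?_
    refine (norm_le (by positivity)).2 fun t => (h1 x n t).trans ?_
    calc θ ^ n * (‖x‖ / c) * Ψ t ≤ θ ^ n * (‖x‖ / c) * D :=
          mul_le_mul_of_nonneg_left (hΨ t).2 (by positivity)
      _ = θ ^ n * (D / c) * ‖x‖ := by ring
  have h3 : Tendsto (fun n : ℕ => θ ^ n * (D / c)) atTop (𝓝 0) := by
    simpa using (tendsto_pow_atTop_nhds_zero_of_lt_one hθ0 hθ1).mul_const (D / c)
  obtain ⟨n, hn⟩ := (h3.eventually (gt_mem_nhds one_pos)).exists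
  have h4 : IsUnit (1 - T ^ n) := isUnit_one_sub_of_norm_lt_one ((h2 n).trans_lt hn)
  rw [← mul_neg_geom_sum] at h4
  have h5 : Commute (1 - T) (∑ i ∈ Finset.range n, T ^ i) := by
    rw [Commute, SemiconjBy, mul_neg_geom_sum, geom_sum_mul_neg]
  exact (h5.isUnit_mul_iff.1 h4).1

theorem sel : SSel := by
  intro Λ T φ j U hΛ hφ hj hU hgood hT hφΛ hjΛ h0
  set S : Set ℝ := {l | l ∈ Icc 0 Λ ∧ ¬ ((∀ t, 0 ≤ φ l t) ∧ 0 ≤ j l)} with hS
  have h0S : (0 : ℝ) ∈ S := ⟨⟨le_rfl, hΛ.le⟩, fun h => absurd (h0 h.1) (not_lt.2 h.2)⟩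
  have hb : BddAbove S := ⟨Λ, fun l hl => hl.1.2⟩
  have hm : sSup S ∈ Icc 0 Λ := ⟨le_csSup hb h0S, csSup_le ⟨0, h0S⟩ fun l hl => hl.1.2⟩
  have hup : ∀ l ∈ Icc 0 Λ, sSup S < l → (∀ t, 0 ≤ φ l t) ∧ 0 ≤ j l := fun l hl h => by
    by_contra hn
    exact absurd (le_csSup hb ⟨hl, hn⟩) (not_le.2 h)
  have hg : (∀ t, 0 ≤ φ (sSup S) t) ∧ 0 ≤ j (sSup S) := by
    rcases eq_or_lt_of_le hm.2 with h | h
    · rw [h]
      exact ⟨hφΛ, hjΛ⟩
    · have hle : 𝓝[>] (sSup S) ≤ 𝓝[Icc 0 Λ] (sSup S) := by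
        refine nhdsWithin_le_of_mem ?_
        filter_upwards [Ioo_mem_nhdsGT h] with l hl
        exact ⟨hm.1.trans hl.1.le, hl.2.le⟩
      have hev : ∀ᶠ l in 𝓝[>] (sSup S), (∀ t, 0 ≤ φ l t) ∧ 0 ≤ j l := by
        filter_upwards [Ioo_mem_nhdsGT h] with l hl
        exact hup l ⟨hm.1.trans hl.1.le, hl.2.le⟩ hl.1
      refine ⟨fun t => ?_, ?_⟩
      · have h1 : Tendsto (fun l => φ l t) (𝓝[>] (sSup S)) (𝓝 (φ (sSup S) t)) :=
          ((continuous_eval_const t).tendsto _).comp ((hφ _ hm).tendsto.mono_left hle)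
        exact ge_of_tendsto h1 (hev.mono fun l hl => hl.1 t)
      · exact ge_of_tendsto ((hj _ hm).tendsto.mono_left hle) (hev.mono fun l hl => hl.2)
  obtain ⟨hmU, hpos⟩ := hgood _ hm hg.1 hg.2
  obtain ⟨m, hm0, hmm⟩ : ∃ m > 0, ∀ t ∈ Icc (-T) T, m ≤ φ (sSup S) t := by
    rcases (Icc (-T) T).eq_empty_or_nonempty with h | h
    · exact ⟨1, one_pos, fun t ht => by simp [h] at ht⟩
    · obtain ⟨t, -, ht⟩ := isCompact_Icc.exists_isMinOn h (φ (sSup S)).continuous.continuousOn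
      exact ⟨_, hpos t, fun s hs => ht hs⟩
  have hev : ∀ᶠ l in 𝓝[Icc 0 Λ] (sSup S), l ∈ U ∧ dist (φ l) (φ (sSup S)) < m :=
    (hU _ hm hmU).and (Metric.tendsto_nhds.1 (hφ _ hm).tendsto m hm0)
  obtain ⟨ε, hε, hball⟩ := Metric.mem_nhdsWithin_iff.1 hev
  obtain ⟨l1, hl1, hlt⟩ := exists_lt_of_lt_csSup ⟨0, h0S⟩ (sub_lt_self (sSup S) hε)
  have hnear : ∀ l ∈ Icc 0 Λ, l1 ≤ l → l ≤ sSup S → l ∈ U ∧ dist (φ l) (φ (sSup S)) < m :=
    fun l hl h1 h2 => hball ⟨by
      rw [Metric.mem_ball, Real.dist_eq, abs_lt]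
      constructor <;> linarith, hl⟩
  refine ⟨l1, hl1.1, ?_, fun l hl => ?_⟩
  · by_contra hn
    refine hl1.2 ⟨hT l1 hl1.1 fun t ht => ?_, not_lt.1 hn⟩
    have h1 := (hnear l1 hl1.1 le_rfl (le_csSup hb hl1)).2
    have h2 := (dist_coe_le_dist (f := φ l1) (g := φ (sSup S)) t).trans_lt h1
    rw [Real.dist_eq, abs_lt] at h2
    linarith [hmm t ht, h2.1]
  · have hl' : l ∈ Icc 0 Λ := ⟨hl1.1.1.trans hl.1, hl.2⟩
    rcases le_or_gt l (sSup S) with h | h
    · exact (hnear l hl' hl.1 h).1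
    · exact (hgood l hl' (hup l hl' h).1 (hup l hl' h).2).1

end Pool.Agent.MP_ad2fa1_an.H64
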