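import Pool.Agent.MP_ad2fa1_an.H64.Spec

/-!
The supersolution for the shifted high modes.
-/

set_option autoImplicit false
set_option linter.unusedVariables false

noncomputable section

namespace Pool.Agent.MP_ad2fa1_an.H64

open Real Set Filter Topology MeasureTheory BoundedContinuousFunction Function

namespace SupA

theorem const_right {u : ℝ → ℝ} {T : ℝ} (h : ∀ t ≥ T, HasDerivAt u 0 t) :
    ∀ t ≥ T, u t = u T := fun t ht =>
  constant_of_has_deriv_right_zero (f := u) (a := T) (b := t)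
    (fun s hs => (h s hs.1).continuousAt.continuousWithinAt)
    (fun s hs => (h s hs.1).hasDerivWithinAt) t ⟨ht, le_rfl⟩

/-- A bounded solution of `y'' = k² y` on a half-line is a decaying exponential. -/
theorem ode_right {y y1 : ℝ → ℝ} {k T K : ℝ} (hk : 0 < k)
    (h1 : ∀ t ≥ T, HasDerivAt y (y1 t) t) (h2 : ∀ t ≥ T, HasDerivAt y1 (k ^ 2 * y t) t)
    (hb : ∀ t ≥ T, |y t| ≤ K ∧ |y1 t| ≤ K) :
    y1 T = -k * y T ∧ ∀ t ≥ T, exp (k * t) * y t = exp (k * T) * y T := by
  have hA : ∀ t ≥ T, exp (-k * t) * (y1 t + k * y t) = exp (-k * T) * (y1 T + k * y T) := by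
    refine const_right (u := fun t => exp (-k * t) * (y1 t + k * y t)) fun t ht => ?_
    have e : HasDerivAt (fun s => exp (-k * s)) (exp (-k * t) * (-k * 1)) t :=
      ((hasDerivAt_id t).const_mul (-k)).exp
    exact (e.fun_mul ((h2 t ht).fun_add ((h1 t ht).const_mul k))).congr_deriv (by ring)
  have hlim : Tendsto (fun t => exp (-k * t) * (y1 t + k * y t)) atTop (𝓝 0) := by
    have h0 : Tendsto (fun t => exp (-k * t) * (K + k * K)) atTop (𝓝 (0 * (K + k * K))) :=
      (tendsto_exp_atBot.comp (tendsto_id.const_mul_atTop_of_neg (neg_lt_zero.2 hk))).mul_const _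
    rw [zero_mul] at h0
    refine squeeze_zero_norm' ?_ h0
    filter_upwards [eventually_ge_atTop T] with t ht
    rw [Real.norm_eq_abs, abs_mul, abs_of_pos (exp_pos _)]
    refine mul_le_mul_of_nonneg_left ?_ (exp_pos _).le
    refine (abs_add_le _ _).trans (add_le_add (hb t ht).2 ?_)
    rw [abs_mul, abs_of_pos hk]
    exact mul_le_mul_of_nonneg_left (hb t ht).1 hk.le
  have hz : exp (-k * T) * (y1 T + k * y T) = 0 := by
    refine tendsto_nhds_unique (tendsto_const_nhds.congr' ?_) hlim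
    filter_upwards [eventually_ge_atTop T] with t ht
    exact (hA t ht).symm
  have hz' : ∀ t ≥ T, y1 t + k * y t = 0 := fun t ht => by
    have := hA t ht
    rw [hz] at this
    exact (mul_eq_zero.1 this).resolve_left (exp_pos _).ne'
  refine ⟨by linarith [hz' T le_rfl], ?_⟩
  refine const_right (u := fun t => exp (k * t) * y t) fun t ht => ?_
  have e : HasDerivAt (fun s => exp (k * s)) (exp (k * t) * (k * 1)) t :=
    ((hasDerivAt_id t).const_mul k).exp
  exact (e.fun_mul (h1 t ht)).congr_deriv (by linear_combination exp (k * t) * hz' t ht)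

theorem ode_left {y y1 : ℝ → ℝ} {k T K : ℝ} (hk : 0 < k)
    (h1 : ∀ t ≤ T, HasDerivAt y (y1 t) t) (h2 : ∀ t ≤ T, HasDerivAt y1 (k ^ 2 * y t) t)
    (hb : ∀ t ≤ T, |y t| ≤ K ∧ |y1 t| ≤ K) :
    y1 T = k * y T ∧ ∀ t ≤ T, exp (k * -t) * y t = exp (k * -T) * y T := by
  have H := ode_right (y := fun s => y (-s)) (y1 := fun s => -y1 (-s)) (k := k) (T := -T)
    (K := K) hk
    (fun t ht => ((h1 (-t) (by linarith)).comp t (hasDerivAt_neg t)).congr_deriv (by ring))
    (fun t ht =>
      ((h2 (-t) (by linarith)).comp t (hasDerivAt_neg t)).fun_neg.congr_deriv (by ring))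
    (fun t ht => ⟨(hb (-t) (by linarith)).1, by rw [abs_neg]; exact (hb (-t) (by linarith)).2⟩)
  simp only [neg_neg] at H
  refine ⟨by linarith [H.1], fun t ht => ?_⟩
  have := H.2 (-t) (by linarith)
  simpa only [neg_neg] using this

/-- Comparison of the glued solution with the Green integral of the shifted mode. -/
theorem lower (hG : SGreen) {V φ : ℝ → ℝ} {T j k K0 : ℝ} (hk : 0 < k) (hj : 0 ≤ j)
    (h2 : Two V T j φ) (hf : Continuous fun τ => (k ^ 2 - 4 + V τ) * φ τ)
    (hK : ∀ τ, |(k ^ 2 - 4 + V τ) * φ τ| ≤ K0) (t : ℝ) :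
    ∫ τ, G k (t - τ) * ((k ^ 2 - 4 + V τ) * φ τ) ≤ φ t := by
  obtain ⟨w1, hw0, hw1, hb0, hb1⟩ := hG k K0 _ hk hf hK
  obtain ⟨L, L1, R, R1, K, eL, eR, dL, dL1, dR, dR1, hjump, bL, -, bR⟩ := h2
  set g : ℝ → ℝ := fun s => ∫ τ, G k (s - τ) * ((k ^ 2 - 4 + V τ) * φ τ) with hg
  have hgb : ∀ s, |g s| ≤ K0 / k ^ 2 := hb0
  have hR := ode_right (y := fun s => R s - g s) (y1 := fun s => R1 s - w1 s) (k := k) (T := T)
    (K := K + (|K0 / k ^ 2| + |K0 / k|)) hk (fun s _ => (dR s).sub (hw0 s))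
    (fun s hs => ((dR1 s).sub (hw1 s)).congr_deriv (by rw [eR s hs]; ring))
    (fun s hs => ⟨by
        have := abs_sub (R s) (g s)
        linarith [(bR s hs).1, hgb s, le_abs_self (K0 / k ^ 2), abs_nonneg (K0 / k)], by
        have := abs_sub (R1 s) (w1 s)
        linarith [(bR s hs).2, hb1 s, le_abs_self (K0 / k), abs_nonneg (K0 / k ^ 2)]⟩)
  have hKe : ∀ s ≤ T, K * exp (2 * s) ≤ |K| * exp (2 * T) := fun s hs =>
    mul_le_mul (le_abs_self K) (exp_le_exp.2 (by linarith)) (exp_pos _).le (abs_nonneg K)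
  have hL := ode_left (y := fun s => L s - g s) (y1 := fun s => L1 s - w1 s) (k := k) (T := T)
    (K := |K| * exp (2 * T) + (|K0 / k ^ 2| + |K0 / k|)) hk (fun s _ => (dL s).sub (hw0 s))
    (fun s hs => ((dL1 s).sub (hw1 s)).congr_deriv (by rw [eL s hs]; ring))
    (fun s hs => ⟨by
        have := abs_sub (L s) (g s)
        linarith [(bL s hs).1, hKe s hs, hgb s, le_abs_self (K0 / k ^ 2), abs_nonneg (K0 / k)], by
        have := abs_sub (L1 s) (w1 s)
        linarith [(bL s hs).2, hKe s hs, hb1 s, le_abs_self (K0 / k), abs_nonneg (K0 / k ^ 2)]⟩)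
  have eLT := eL T le_rfl
  have eRT := eR T le_rfl
  have hT : 0 ≤ φ T - g T := by
    have a1 := hR.1
    have a2 := hL.1
    rw [← eRT] at a1
    rw [← eLT] at a2
    have a3 : 0 ≤ k * (φ T - g T) := by linarith
    exact nonneg_of_mul_nonneg_right a3 hk |>.trans_eq rfl
  show g t ≤ φ t
  rcases le_total t T with ht | ht
  · have a := hL.2 t ht
    rw [← eLT, ← eL t ht] at a
    have a2 : 0 ≤ exp (k * -t) * (φ t - g t) := by
      rw [a]; exact mul_nonneg (exp_pos _).le hT
    linarith [nonneg_of_mul_nonneg_right a2 (exp_pos _)]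
  · have a := hR.2 t ht
    rw [← eRT, ← eR t ht] at a
    have a2 : 0 ≤ exp (k * t) * (φ t - g t) := by
      rw [a]; exact mul_nonneg (exp_pos _).le hT
    linarith [nonneg_of_mul_nonneg_right a2 (exp_pos _)]

/-- Decay of the Green integral of a decaying potential. -/
theorem decay {V : ℝ → ℝ} {C δ k M : ℝ} (hk : 0 < k) (hP : Pot V C δ) (hM : ∀ t, |V t| ≤ M) :
    ∃ C' ε : ℝ, 0 ≤ C' ∧ 0 < ε ∧ ∀ t, ∫ τ, G k (t - τ) * V τ ≤ C' * exp (-ε * |t|) := by
  obtain ⟨hδ, hV, hb⟩ := hP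
  have hk2 : 0 < k / 2 := half_pos hk
  refine ⟨|C| * (1 / (k / 2) ^ 2), min (k / 2) δ, by positivity, lt_min hk2 hδ, fun t => ?_⟩
  have key : ∀ τ, G k (t - τ) * V τ ≤
      G (k / 2) (t - τ) * (|C| * exp (-min (k / 2) δ * |t|)) := fun τ => by
    have h1 : V τ ≤ |C| * exp (-δ * |τ|) :=
      (le_abs_self _).trans ((hb τ).trans (mul_le_mul (le_abs_self C) (om_le δ τ)
        (om_pos δ τ).le (abs_nonneg C)))
    have h2 : exp (-k * |t - τ|) * exp (-δ * |τ|) ≤
        exp (-(k / 2) * |t - τ|) * exp (-min (k / 2) δ * |t|) := by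
      rw [← exp_add, ← exp_add]
      refine exp_le_exp.2 ?_
      have a1 : |t| ≤ |t - τ| + |τ| := by
        have := abs_add_le (t - τ) τ
        rwa [sub_add_cancel] at this
      have a2 := mul_le_mul_of_nonneg_right (min_le_left (k / 2) δ) (abs_nonneg (t - τ))
      have a3 := mul_le_mul_of_nonneg_right (min_le_right (k / 2) δ) (abs_nonneg τ)
      have a4 := mul_le_mul_of_nonneg_left a1 (lt_min hk2 hδ).le
      nlinarith
    have h3 : 0 ≤ exp (-(k / 2) * |t - τ|) * exp (-min (k / 2) δ * |t|) := by positivity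
    calc G k (t - τ) * V τ ≤ G k (t - τ) * (|C| * exp (-δ * |τ|)) :=
          mul_le_mul_of_nonneg_left h1 (G_pos hk _).le
      _ = |C| / (2 * k) * (exp (-k * |t - τ|) * exp (-δ * |τ|)) := by unfold G; ring
      _ ≤ |C| / (2 * (k / 2)) * (exp (-(k / 2) * |t - τ|) * exp (-min (k / 2) δ * |t|)) :=
          mul_le_mul (div_le_div_of_nonneg_left (abs_nonneg C) (by linarith) (by linarith)) h2
            (by positivity) (by positivity)
      _ = _ := by unfold G; ring
  calc ∫ τ, G k (t - τ) * V τ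
      ≤ ∫ τ, G (k / 2) (t - τ) * (|C| * exp (-min (k / 2) δ * |t|)) :=
        integral_mono (G_mul_int hk hV hM t) ((G_int hk2 t).mul_const _) key
    _ = _ := by rw [integral_mul_const, G_integral hk2]; ring

end SupA

open SupA in
theorem sup : SGreen → SGl → SHalf → SDecay → SSup := by
  intro hG hGl _ _ V C δ T j M φ hP hGlu hM hφ hj
  have hM0 : 0 ≤ M := (abs_nonneg _).trans (hM 0)
  have hV : Continuous V := hP.2.1
  have hk : 0 < kap M 2 := kap_pos hM0 (by norm_num)
  have hk2 : kap M 2 ^ 2 = 16 + M := by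
    rw [kap_sq hM0]; norm_num
  set k := kap M 2 with hkdef
  have hφc : Continuous φ := φ.continuous
  have hφb : ∀ t, φ t ≤ ‖φ‖ := fun t => (le_abs_self _).trans (φ.norm_coe_le_norm t)
  have hVl : ∀ t, -M ≤ V t := fun t => (abs_le.1 (hM t)).1
  have hVu : ∀ t, V t ≤ M := fun t => (abs_le.1 (hM t)).2
  have hf : Continuous fun τ => (k ^ 2 - 4 + V τ) * φ τ := by fun_prop
  have hf0 : ∀ τ, 0 ≤ (k ^ 2 - 4 + V τ) * φ τ := fun τ =>
    mul_nonneg (by linarith [hVl τ]) (hφ τ)
  have hK : ∀ τ, |(k ^ 2 - 4 + V τ) * φ τ| ≤ (12 + 2 * M) * ‖φ‖ := fun τ => by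
    rw [abs_of_nonneg (hf0 τ)]
    exact mul_le_mul (by linarith [hVu τ]) (hφb τ) (hφ τ) (by linarith)
  have hlow := lower hG hk hj (hGl V C δ T j φ hP hGlu) hf hK
  have hex : ∃ x, φ x ≠ 0 := by
    by_contra hcon
    push Not at hcon
    have a1 := hGlu.hj
    have a2 := hGlu.eq T
    simp only [hcon, mul_zero, integral_zero, sub_zero, zero_add] at a1 a2
    rw [a1, one_mul] at a2
    exact (eT_pos T T).ne a2
  obtain ⟨x, hx⟩ := hex
  have hpos : ∀ t, 0 < φ t := fun t => by
    refine lt_of_lt_of_le ?_ (hlow t)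
    refine integral_pos_of_integrable_nonneg_nonzero (x := x) (by fun_prop)
      (G_mul_int hk hf hK t) (fun τ => mul_nonneg (G_pos hk _).le (hf0 τ)) ?_
    exact mul_ne_zero (G_pos hk _).ne' (mul_ne_zero (by linarith [hVl x]) hx)
  refine ⟨hpos, ?_⟩
  obtain ⟨C', ε, hC', hε, hdec⟩ := decay hk hP hM
  set θ : ℝ := 2 * M / (2 * M + 12) with hθ
  have hθ0 : 0 ≤ θ := by positivity
  have hθ1 : θ < 1 := by rw [hθ, div_lt_one (by linarith)]; linarith
  have hθe : θ * (2 * M + 12) = 2 * M := by rw [hθ]; field_simp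
  set η : ℝ := (1 - θ) / 2 with hη
  have hη0 : 0 < η := by rw [hη]; linarith
  obtain ⟨B, hB0, hB⟩ : ∃ B : ℝ, 0 ≤ B ∧ ∀ s ≥ B, C' * exp (-ε * s) ≤ η := by
    have h0 : Tendsto (fun s => C' * exp (-ε * s)) atTop (𝓝 (C' * 0)) :=
      (tendsto_exp_atBot.comp (tendsto_id.const_mul_atTop_of_neg (neg_lt_zero.2 hε))).const_mul _
    rw [mul_zero] at h0
    obtain ⟨B, hB⟩ := eventually_atTop.1 (h0.eventually (ge_mem_nhds hη0))
    exact ⟨max B 0, le_max_right _ _, fun s hs => hB s ((le_max_left _ _).trans hs)⟩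
  obtain ⟨x0, -, hx0⟩ := (isCompact_Icc (a := -B) (b := B)).exists_isMinOn
    ⟨0, by constructor <;> linarith⟩ hφc.continuousOn
  set d : ℝ := η * φ x0 / (C' + 1) with hd
  have hd0 : 0 < d := div_pos (mul_pos hη0 (hpos x0)) (by linarith)
  have hde : d * (C' + 1) = η * φ x0 := by rw [hd]; field_simp
  refine ⟨fun t => φ t + d, d, ‖φ‖ + d, θ + η, by fun_prop, hd0, by linarith,
    by rw [hη]; linarith, fun t => ⟨by linarith [hφ t], by linarith [hφb t]⟩, fun t => ?_⟩
  have i1 := G_mul_int hk hf hK t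
  have i2 := G_mul_int hk hV hM t
  have i3 := G_int hk t
  have step : ∫ τ, G k (t - τ) * ((V τ + M) * (φ τ + d)) ≤
      ∫ τ, θ * (G k (t - τ) * ((k ^ 2 - 4 + V τ) * φ τ)) +
        (d * (G k (t - τ) * V τ) + d * M * G k (t - τ)) := by
    refine integral_mono (G_mul_int (K := 2 * M * (‖φ‖ + d)) hk (by fun_prop) (fun τ => ?_) t)
      ((i1.const_mul _).add ((i2.const_mul _).add (i3.const_mul _))) fun τ => ?_
    · rw [abs_of_nonneg (mul_nonneg (by linarith [hVl τ]) (by linarith [hφ τ]))]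
      exact mul_le_mul (by linarith [hVu τ]) (by linarith [hφb τ]) (by linarith [hφ τ])
        (by linarith)
    · have a1 : V τ + M ≤ θ * (k ^ 2 - 4 + V τ) := by
        rw [hk2]
        have : 0 ≤ (1 - θ) * (M - V τ) := mul_nonneg (by linarith) (by linarith [hVu τ])
        nlinarith
      have a2 := mul_le_mul_of_nonneg_right a1 (mul_nonneg (G_pos hk (t - τ)).le (hφ τ))
      simp only
      nlinarith
  have i4 : Integrable fun τ => d * (G k (t - τ) * V τ) + d * M * G k (t - τ) :=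
    (i2.const_mul _).add (i3.const_mul _)
  rw [integral_add (i1.const_mul _) i4,
    integral_add (i2.const_mul _) (i3.const_mul _), integral_const_mul, integral_const_mul,
    integral_const_mul, G_integral hk, hk2] at step
  have b1 := mul_le_mul_of_nonneg_left (hlow t) hθ0
  rw [hk2] at b1
  have b2 := mul_le_mul_of_nonneg_left (hdec t) hd0.le
  have b3 : M * (1 / (16 + M)) ≤ θ := by
    rw [hθ, mul_one_div, div_le_div_iff₀ (by linarith) (by linarith)]
    nlinarith
  have b4 := mul_le_mul_of_nonneg_left b3 hd0.le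
  have b5 : d * (C' * exp (-ε * |t|)) ≤ η * (φ t + d) := by
    rcases le_total B |t| with h | h
    · have := mul_le_mul_of_nonneg_left (hB _ h) hd0.le
      nlinarith [mul_nonneg hη0.le (hφ t)]
    · have c1 : φ x0 ≤ φ t := hx0 (abs_le.1 h)
      have c2 : exp (-ε * |t|) ≤ 1 := exp_le_one_iff.2 (by nlinarith [abs_nonneg t])
      have c3 := mul_le_mul_of_nonneg_left c2 (mul_nonneg hd0.le hC')
      have c4 := mul_le_mul_of_nonneg_left c1 hη0.le
      nlinarith [mul_pos hη0 hd0]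
  refine step.trans ?_
  simp only
  nlinarith

end Pool.Agent.MP_ad2fa1_an.H64
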