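import Pool.Agent.MP_ad2fa1_an.H64.Spec

/-!
Transfer of a solution with a logarithmic singularity from the complex plane to the Euclidean plane.
-/

set_option autoImplicit false

noncomputable section

namespace Pool.Agent.MP_ad2fa1_an.H64

open Real Set Filter Topology MeasureTheory Laplacian
open scoped ContDiff
open Pool.Agent.MP_6b3e96_gt.H77 (lap Test)
open Pool.Agent.MP_6b3e96_gt.H98 (D green remov int_mul test_lap)
open Pool.Agent.MP_ad2fa1_an.H33 (IsSol zeta E2 e0 e1 zeta_e0 zeta_e1 fundamental locInt_log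
  lap_cont lap_supp)

namespace TransA

theorem fd_zeta (ψ : ℂ → ℝ) (x v : E2) :
    fderiv ℝ (fun y => ψ (zeta y)) x v = D (zeta v) ψ (zeta x) := by
  have h := zeta.toContinuousLinearEquiv.comp_right_fderiv (f := ψ) (x := x)
  exact congrArg (fun T : E2 →L[ℝ] ℝ => T v) h

theorem lap_zeta {ψ : ℂ → ℝ} (h : ContDiff ℝ 2 ψ) (x : E2) :
    Δ (fun y => ψ (zeta y)) x = lap ψ (zeta x) := by
  have h1 : ContDiff ℝ 1 (fderiv ℝ fun y : E2 => ψ (zeta y)) :=
    (h.comp zeta.contDiff).fderiv_right (m := 1) (by norm_num)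
  have key : ∀ v : E2, iteratedFDeriv ℝ 2 (fun y => ψ (zeta y)) x ![v, v] =
      D (zeta v) (D (zeta v) ψ) (zeta x) := fun v => by
    rw [iteratedFDeriv_two_apply, ← fd_zeta]
    simp only [← fd_zeta]
    rw [fderiv_clm_apply (h1.differentiable (by norm_num) x) (differentiableAt_const v)]
    simp
  rw [H33.lap_eq, key, key, zeta_e0, zeta_e1]
  rfl

theorem supp_zeta {ψ : ℂ → ℝ} (h : HasCompactSupport ψ) :
    HasCompactSupport fun y : E2 => ψ (zeta y) := h.comp_homeomorph zeta.toHomeomorph

theorem fund {ψ : ℂ → ℝ} (h : ContDiff ℝ 2 ψ) (hc : HasCompactSupport ψ) :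
    ∫ z, 2 * log ‖z‖ * lap ψ z = 4 * π * ψ 0 := by
  have h1 := fundamental (h.comp zeta.contDiff) (supp_zeta hc)
  rw [← integral_comp zeta]
  simp only [LinearIsometryEquiv.norm_map, ← lap_zeta h]
  simpa [Function.comp_def] using h1

end TransA

open TransA

theorem trans' : STrans := by
  intro N c u B hN hB hu hs hl
  have hO : IsOpen ({0}ᶜ : Set ℂ) := isOpen_compl_singleton
  let E : ℂ → ℝ := fun z => ‖z‖ ^ (2 * N) * exp (B z)
  have cE : Continuous E :=
    (continuous_norm.rpow_const fun _ => Or.inr (by positivity)).mul hB.rexp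
  have hE : ∀ z ≠ 0, exp (u z) = E z := fun z hz => by
    simp only [E]
    rw [hu z hz, exp_add, rpow_def_of_pos (norm_pos_iff.2 hz), mul_comm (log _)]
  let f : ℂ → ℝ := fun z => -(c * (E z * (1 - E z)))
  have cf : Continuous f := by fun_prop
  have neC : ∀ᵐ z : ℂ, z ≠ 0 := by
    filter_upwards [compl_mem_ae_iff.2 (measure_singleton (0 : ℂ))] with x hx using hx
  have ne2 : ∀ᵐ x : E2, zeta x ≠ 0 := by
    filter_upwards [compl_mem_ae_iff.2 (measure_singleton (0 : E2))] with x hx
    exact fun h => hx (zeta.map_eq_zero_iff.1 h)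
  have cL : ContinuousOn (fun z : ℂ => 2 * log ‖z‖) {0}ᶜ :=
    continuousOn_const.mul (continuous_norm.continuousOn.log fun z hz => norm_ne_zero_iff.2 hz)
  have weak : ∀ ψ, Test univ ψ → ∫ z, B z * lap ψ z = ∫ z, f z * ψ z := fun ψ hψ => by
    refine remov isOpen_univ hB.continuousOn cf.continuousOn (p := 0) (fun θ hθ => ?_) hψ
    rw [← compl_eq_univ_sdiff] at hθ
    have g1 := green _ u θ hO (contDiffOn_infty.1 hs 2) hθ
    have g2 := fund (contDiff_infty.1 hθ.1 2) hθ.2.1
    rw [image_eq_zero_of_notMem_tsupport fun h => hθ.2.2 h rfl, mul_zero] at g2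
    have g3 : ∫ z, B z * lap θ z = ∫ z, (u z * lap θ z - N * (2 * log ‖z‖ * lap θ z)) := by
      refine integral_congr_ae ?_
      filter_upwards [neC] with z hz
      rw [hu z hz]; ring
    rw [g3, integral_sub (int_mul hO hs.continuousOn (test_lap hθ))
      ((int_mul hO cL (test_lap hθ)).const_mul N), integral_const_mul, g2, mul_zero, sub_zero, g1]
    refine integral_congr_ae ?_
    filter_upwards [neC] with z hz
    rw [hl z hz, hE z hz]
  have cz : Continuous zeta := zeta.continuous
  have hloc : LocallyIntegrable fun x : E2 => N * (2 * log ‖x‖) :=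
    fun x => (locInt_log x).imp fun s h => ⟨h.1, (h.2.const_mul 2).const_mul N⟩
  refine ⟨?_, hs.comp zeta.contDiff.contDiffOn fun x hx h => hx (zeta.map_eq_zero_iff.1 h), ?_, ?_⟩
  · refine (hloc.add (hB.comp cz).locallyIntegrable).congr ?_
    filter_upwards [ne2] with x hx
    rw [hu _ hx]
    simp only [Pi.add_apply, Function.comp_apply, LinearIsometryEquiv.norm_map]
    ring
  · refine (cf.comp cz).neg.locallyIntegrable.congr ?_
    filter_upwards [ne2] with x hx
    simp only [hE _ hx, f, Function.comp_apply, Pi.neg_apply, neg_neg]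
  · intro φ hφ hc
    obtain ⟨ψ, rfl⟩ : ∃ ψ : ℂ → ℝ, φ = fun x => ψ (zeta x) :=
      ⟨fun z => φ (zeta.symm z), by simp⟩
    have hψ : Test univ ψ := ⟨by simpa [Function.comp_def] using hφ.comp zeta.symm.contDiff,
      by simpa [Function.comp_def] using hc.comp_homeomorph zeta.symm.toHomeomorph, subset_univ _⟩
    have hφ2 := contDiff_infty.1 hφ 2
    have hψ2 := contDiff_infty.1 hψ.1 2
    have i1 : Integrable fun x : E2 => N * (2 * log ‖x‖ * Δ (fun y => ψ (zeta y)) x) := by
      simpa only [smul_eq_mul, mul_assoc] using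
        hloc.integrable_smul_right_of_hasCompactSupport (lap_cont hφ2) (lap_supp hc)
    have e1 : ∫ x, u (zeta x) * Δ (fun y => ψ (zeta y)) x =
        ∫ x, (N * (2 * log ‖x‖ * Δ (fun y => ψ (zeta y)) x) +
          B (zeta x) * Δ (fun y => ψ (zeta y)) x) := by
      refine integral_congr_ae ?_
      filter_upwards [ne2] with x hx
      rw [hu _ hx, LinearIsometryEquiv.norm_map]; ring
    have e2 : ∫ x, c * (exp (u (zeta x)) * (1 - exp (u (zeta x)))) * ψ (zeta x) =
        -∫ z, f z * ψ z := by
      rw [← integral_neg, ← integral_comp zeta]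
      refine integral_congr_ae ?_
      filter_upwards [ne2] with x hx
      simp only [hE _ hx, f]; ring
    have e3 : ∫ x, B (zeta x) * Δ (fun y => ψ (zeta y)) x = ∫ z, f z * ψ z := by
      rw [← weak ψ hψ, ← integral_comp zeta]
      simp only [lap_zeta hψ2]
    rw [e1, e2, integral_add i1 (H33.int_mul (hB.comp' cz) (lap_cont hφ2) (lap_supp hc)),
      integral_const_mul, fundamental hφ2 hc, e3]
    ring

theorem trans : SPull → STrans := fun _ => trans'

end Pool.Agent.MP_ad2fa1_an.H64
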