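import Pool.Agent.MP_ad2fa1_an.H64.Spec

/-! Invertibility of the two Volterra type operators. -/

set_option autoImplicit false

noncomputable section

namespace Pool.Agent.MP_ad2fa1_an.H64

open Real Set Filter Topology MeasureTheory BoundedContinuousFunction Function

namespace U01A

theorem weight (m : ℝ → ℝ) (c : ℝ) (hc : 0 < c) (hm : Continuous m) (h0 : ∀ t, 0 ≤ m t)
    (hi : Integrable m) : ∃ (E : ℝ → ℝ) (a D : ℝ), 0 < a ∧ (∀ t, a ≤ E t ∧ E t ≤ D) ∧
      Integrable (fun τ => m τ * E τ) ∧ ∀ t, ∫ τ in Iic t, m τ * E τ ≤ E t / c := by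
  have hd : ∀ t, HasDerivAt (fun s => ∫ τ in (0 : ℝ)..s, m τ) (m t) t :=
    fun t => (hm.integral_hasStrictDerivAt 0 t).hasDerivAt
  have hb : ∀ t, |∫ τ in (0 : ℝ)..t, m τ| ≤ ∫ τ, m τ := by
    intro t
    have h1 := intervalIntegral.norm_integral_le_integral_norm_uIoc (f := m) (μ := volume)
      (a := 0) (b := t)
    refine h1.trans ?_
    have : (fun x => ‖m x‖) = m := funext fun x => Real.norm_of_nonneg (h0 x)
    rw [this]
    exact setIntegral_le_integral hi (.of_forall h0)
  have hE : ∀ t, HasDerivAt (fun s => exp (c * ∫ τ in (0 : ℝ)..s, m τ) / c)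
      (m t * exp (c * ∫ τ in (0 : ℝ)..t, m τ)) t := by
    intro t
    have := (((hd t).const_mul c).exp).div_const c
    have e : exp (c * ∫ τ in (0 : ℝ)..t, m τ) * (c * m t) / c =
        m t * exp (c * ∫ τ in (0 : ℝ)..t, m τ) := by
      field_simp
    rwa [e] at this
  have hcE : Continuous fun s => exp (c * ∫ τ in (0 : ℝ)..s, m τ) := by
    have : Continuous fun s => ∫ τ in (0 : ℝ)..s, m τ :=
      continuous_iff_continuousAt.2 fun t => (hd t).continuousAt
    fun_prop
  have hbd : ∀ t, exp (-(c * ∫ τ, m τ)) ≤ exp (c * ∫ τ in (0 : ℝ)..t, m τ) ∧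
      exp (c * ∫ τ in (0 : ℝ)..t, m τ) ≤ exp (c * ∫ τ, m τ) := by
    intro t
    have := abs_le.1 (hb t)
    constructor <;> rw [exp_le_exp] <;> nlinarith [this.1, this.2]
  have hI : Integrable fun τ => m τ * exp (c * ∫ σ in (0 : ℝ)..τ, m σ) :=
    hi.mul_bdd (c := exp (c * ∫ τ, m τ)) hcE.aestronglyMeasurable (.of_forall fun t => by
      rw [Real.norm_of_nonneg (exp_pos _).le]
      exact (hbd t).2)
  refine ⟨fun s => exp (c * ∫ τ in (0 : ℝ)..s, m τ), _, _, exp_pos _, hbd, hI, fun t => ?_⟩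
  have l1 : Tendsto (fun s => ∫ τ in s..(0 : ℝ), m τ) atBot (𝓝 (∫ τ in Iic (0 : ℝ), m τ)) :=
    intervalIntegral_tendsto_integral_Iic 0 hi.integrableOn tendsto_id
  have l2 : Tendsto (fun s => ∫ τ in (0 : ℝ)..s, m τ) atBot (𝓝 (-∫ τ in Iic (0 : ℝ), m τ)) := by
    refine l1.neg.congr fun s => ?_
    rw [intervalIntegral.integral_symm s 0]
  have l3 : Tendsto (fun s => exp (c * ∫ τ in (0 : ℝ)..s, m τ) / c) atBot
      (𝓝 (exp (c * -∫ τ in Iic (0 : ℝ), m τ) / c)) :=
    ((continuous_exp.tendsto _).comp (l2.const_mul c)).div_const c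
  rw [integral_Iic_of_hasDerivAt_of_tendsto' (fun x _ => hE x) hI.integrableOn l3]
  have : 0 < exp (c * -∫ τ in Iic (0 : ℝ), m τ) / c := by positivity
  linarith

theorem C_nonneg {V : ℝ → ℝ} {C δ : ℝ} (h : Pot V C δ) : 0 ≤ C := by
  have h1 := (abs_nonneg _).trans (h.2.2 0)
  exact nonneg_of_mul_nonneg_left h1 (om_pos δ 0)

theorem int0 {V : ℝ → ℝ} {C δ : ℝ} (h : Pot V C δ) : Integrable fun τ => rho τ ^ 2 * |V τ| := by
  have hδ := h.1
  have hV := h.2.1
  have hC := C_nonneg h
  refine ((int_exp_abs (half_pos hδ)).const_mul ((1 + 4 / δ) ^ 2 * C)).mono'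
    (Continuous.aestronglyMeasurable (by fun_prop)) (.of_forall fun t => ?_)
  have r0 := rho_pos t
  have a1 : rho t ≤ (1 + 4 / δ) * exp (δ / 4 * |t|) := by
    have e1 := add_one_le_exp (δ / 4 * |t|)
    have e2 : (1 + 4 / δ) * (δ / 4 * |t| + 1) = 1 + |t| + (δ / 4 * |t| + 4 / δ) := by
      field_simp
      ring
    have e3 : 0 ≤ δ / 4 * |t| + 4 / δ := by positivity
    have e4 : (1 + 4 / δ) * (δ / 4 * |t| + 1) ≤ (1 + 4 / δ) * exp (δ / 4 * |t|) :=
      mul_le_mul_of_nonneg_left e1 (by positivity)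
    unfold rho
    linarith
  have a2 : |V t| ≤ C * exp (-δ * |t|) :=
    (h.2.2 t).trans (mul_le_mul_of_nonneg_left (om_le δ t) hC)
  rw [Real.norm_of_nonneg (by positivity)]
  calc rho t ^ 2 * |V t| ≤ ((1 + 4 / δ) * exp (δ / 4 * |t|)) ^ 2 * (C * exp (-δ * |t|)) := by
        gcongr
    _ = (1 + 4 / δ) ^ 2 * C * (exp (δ / 4 * |t|) * exp (δ / 4 * |t|) * exp (-δ * |t|)) := by ring
    _ = (1 + 4 / δ) ^ 2 * C * exp (-(δ / 2) * |t|) := by
        rw [← exp_add, ← exp_add]
        congr 2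
        ring

theorem int1 {V : ℝ → ℝ} {C δ : ℝ} (h : Pot V C δ) (T : ℝ) :
    Integrable fun τ => exp (2 * (T - τ)) / 4 * |V τ| := by
  have hV := h.2.1
  have hC := C_nonneg h
  refine ((int_exp_abs h.1).const_mul (exp (2 * T) / 4 * C)).mono'
    (Continuous.aestronglyMeasurable (by fun_prop)) (.of_forall fun t => ?_)
  have a2 : |V t| ≤ C * (exp (-δ * |t|) * exp (2 * t)) :=
    (h.2.2 t).trans (mul_le_mul_of_nonneg_left (om_le' δ t) hC)
  rw [Real.norm_of_nonneg (by positivity)]
  calc exp (2 * (T - t)) / 4 * |V t|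
      ≤ exp (2 * (T - t)) / 4 * (C * (exp (-δ * |t|) * exp (2 * t))) := by gcongr
    _ = exp (2 * (T - t)) * exp (2 * t) / 4 * C * exp (-δ * |t|) := by ring
    _ = exp (2 * T) / 4 * C * exp (-δ * |t|) := by
        rw [← exp_add]
        congr 4
        ring

theorem K1_eq (T t τ : ℝ) :
    K1 T t τ = exp (-2 * |t - τ|) / 4 - exp (-2 * |t - T| + -2 * (τ - T)) / 4 := by
  unfold K1 G eT
  rw [exp_add]
  ring

theorem K1_low {T t τ : ℝ} (h : τ ≤ T) : |K1 T t τ| ≤ exp (2 * (T - τ)) / 4 := by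
  rw [K1_eq]
  have a : exp (-2 * |t - τ|) ≤ exp (2 * (T - τ)) :=
    exp_le_exp.2 (by linarith [abs_nonneg (t - τ)])
  have b : exp (-2 * |t - T| + -2 * (τ - T)) ≤ exp (2 * (T - τ)) :=
    exp_le_exp.2 (by linarith [abs_nonneg (t - T)])
  have a0 := exp_pos (-2 * |t - τ|)
  have b0 := exp_pos (-2 * |t - T| + -2 * (τ - T))
  rw [abs_le]
  constructor <;> linarith

theorem K1_zero {T t τ : ℝ} (h : t ≤ T) (h' : t ≤ τ) : K1 T t τ = 0 := by
  rw [K1_eq, abs_of_nonpos (sub_nonpos.2 h), abs_of_nonpos (sub_nonpos.2 h'), sub_eq_zero]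
  congr 2
  ring

theorem K1_high {T t τ : ℝ} (h : T ≤ t) (h' : T ≤ τ) : |K1 T t τ| ≤ G 2 (t - τ) := by
  have e : G 2 (t - τ) = exp (-2 * |t - τ|) / 4 := by
    unfold G
    norm_num
  rw [K1_eq, e, abs_of_nonneg (sub_nonneg.2 h)]
  have b : exp (-2 * (t - T) + -2 * (τ - T)) ≤ exp (-2 * |t - τ|) := by
    refine exp_le_exp.2 ?_
    have : |t - τ| ≤ t - T + (τ - T) := abs_le.2 ⟨by linarith, by linarith⟩
    linarith
  have b0 := exp_pos (-2 * (t - T) + -2 * (τ - T))
  rw [abs_le]
  constructor <;> linarith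

end U01A

open U01A

theorem u0 : SUnit → SU0 := by
  intro hU V C δ T0 hP hT
  have hV := hP.2.1
  obtain ⟨E, a, D, ha, hE, hI, hint⟩ := weight (fun τ => rho τ ^ 2 * |V τ|) 2 two_pos
    (by fun_prop) (fun t => by positivity) (int0 hP)
  refine hU ℝ T0 E a D (1 / 2) ha (by norm_num) (by norm_num) hE fun x s hs hx t => ?_
  have r0 := rho_pos t
  have hg : Integrable
      ((Iic t).indicator fun τ => rho t * s * (rho τ ^ 2 * |V τ| * E τ)) :=
    (hI.const_mul _).indicator measurableSet_Iic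
  have h1 := norm_integral_le_of_norm_le
    (f := fun τ => max (t - τ) 0 * (V τ * (rho τ * x τ))) hg (.of_forall fun τ => by
      by_cases h : τ ≤ t
      · rw [indicator_of_mem (mem_Iic.2 h)]
        have r1 := rho_pos τ
        have m1 : max (t - τ) 0 ≤ rho t * rho τ := by
          unfold rho
          have := le_abs_self t
          have := neg_abs_le τ
          have := mul_nonneg (abs_nonneg t) (abs_nonneg τ)
          refine max_le (by nlinarith) (by positivity)
        have x1 := hx τ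
        simp only [norm_mul, Real.norm_eq_abs, abs_of_pos r1,
          abs_of_nonneg (le_max_right (t - τ) 0)] at x1 ⊢
        calc max (t - τ) 0 * (|V τ| * (rho τ * |x τ|))
            ≤ rho t * rho τ * (|V τ| * (rho τ * (s * E τ))) := by gcongr
          _ = _ := by ring
      · rw [indicator_of_notMem (fun h' => h (mem_Iic.1 h')),
          max_eq_right (by linarith [not_le.1 h])]
        simp)
  rw [integral_indicator measurableSet_Iic, integral_const_mul] at h1
  rw [hT, norm_neg, norm_mul, Real.norm_of_nonneg (inv_pos.2 r0).le]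
  have h2 := mul_le_mul_of_nonneg_left (hint t) (mul_nonneg r0.le hs)
  calc (rho t)⁻¹ * ‖∫ τ, max (t - τ) 0 * (V τ * (rho τ * x τ))‖
      ≤ (rho t)⁻¹ * (rho t * s * (E t / 2)) :=
        mul_le_mul_of_nonneg_left (h1.trans h2) (inv_pos.2 r0).le
    _ = 1 / 2 * s * E t := by field_simp

theorem u1 : SUnit → SU1 := by
  intro hU V C δ T T1 hP h1 hT
  have hV := hP.2.1
  obtain ⟨E, a, D, ha, hE, hI, hint⟩ := weight (fun τ => exp (2 * (T - τ)) / 4 * |V τ|) 4
    (by norm_num) (by fun_prop) (fun t => by positivity) (int1 hP T)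
  refine hU ℝ T1 (fun t => E (min t T)) a D (1 / 2) ha (by norm_num) (by norm_num)
    (fun t => hE _) fun x s hs hx t => ?_
  have E0 : ∀ t, 0 ≤ E t := fun t => ha.le.trans (hE t).1
  have g1 : Integrable
      ((Iic (min t T)).indicator fun τ => s * (exp (2 * (T - τ)) / 4 * |V τ| * E τ)) :=
    (hI.const_mul _).indicator measurableSet_Iic
  have g2 : Integrable fun τ => G 2 (t - τ) * (s * E (min t T)) := (G_int two_pos t).mul_const _
  have b := norm_integral_le_of_norm_le (f := fun τ => K1 T t τ * (V τ * x τ)) (g1.add g2)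
    (.of_forall fun τ => by
      have x1 := hx τ
      have p2 : 0 ≤ G 2 (t - τ) * (s * E (min t T)) :=
        mul_nonneg (G_pos two_pos _).le (mul_nonneg hs (E0 _))
      simp only [norm_mul, Real.norm_eq_abs, Pi.add_apply] at x1 ⊢
      by_cases h : τ ≤ min t T
      · rw [indicator_of_mem (mem_Iic.2 h)]
        have hτ : τ ≤ T := h.trans (min_le_right _ _)
        rw [min_eq_left hτ] at x1
        have k := K1_low (t := t) hτ
        have : |K1 T t τ| * (|V τ| * |x τ|) ≤ exp (2 * (T - τ)) / 4 * (|V τ| * (s * E τ)) := by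
          gcongr
        linarith
      · rw [indicator_of_notMem (fun h' => h (mem_Iic.1 h')), zero_add]
        have h' := not_le.1 h
        rcases le_total t T with ht | ht
        · rw [min_eq_left ht] at h'
          rw [K1_zero ht h'.le]
          simpa using p2
        · rw [min_eq_right ht] at h' ⊢
          rw [min_eq_right h'.le] at x1
          have k := K1_high ht h'.le
          have v := h1 τ h'.le
          have gp := (G_pos two_pos (t - τ)).le
          calc |K1 T t τ| * (|V τ| * |x τ|) ≤ G 2 (t - τ) * (1 * (s * E T)) := by gcongr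
            _ = _ := by ring)
  simp only [Pi.add_apply] at b
  rw [integral_add g1 g2, integral_indicator measurableSet_Iic, integral_const_mul,
    integral_mul_const, G_integral two_pos] at b
  rw [hT]
  have h2 := mul_le_mul_of_nonneg_left (hint (min t T)) hs
  linarith

end Pool.Agent.MP_ad2fa1_an.H64
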