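import Pool.Agent.MP_ad2fa1_an.H64.Alg
import Pool.Agent.MP_ad2fa1_an.H64.Cyl
import Pool.Agent.MP_ad2fa1_an.H64.F0
import Pool.Agent.MP_ad2fa1_an.H64.F1
import Pool.Agent.MP_ad2fa1_an.H64.Fin
import Pool.Agent.MP_ad2fa1_an.H64.Fix
import Pool.Agent.MP_ad2fa1_an.H64.Gl
import Pool.Agent.MP_ad2fa1_an.H64.Green
import Pool.Agent.MP_ad2fa1_an.H64.Half
import Pool.Agent.MP_ad2fa1_an.H64.Hyp
import Pool.Agent.MP_ad2fa1_an.H64.Kop
import Pool.Agent.MP_ad2fa1_an.H64.NlB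
import Pool.Agent.MP_ad2fa1_an.H64.Ops
import Pool.Agent.MP_ad2fa1_an.H64.Post
import Pool.Agent.MP_ad2fa1_an.H64.Pull
import Pool.Agent.MP_ad2fa1_an.H64.Rad1
import Pool.Agent.MP_ad2fa1_an.H64.Rad2
import Pool.Agent.MP_ad2fa1_an.H64.Rad3
import Pool.Agent.MP_ad2fa1_an.H64.Rem
import Pool.Agent.MP_ad2fa1_an.H64.Small
import Pool.Agent.MP_ad2fa1_an.H64.Sup
import Pool.Agent.MP_ad2fa1_an.H64.Trans
import Pool.Agent.MP_ad2fa1_an.H64.U01

set_option autoImplicit false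

namespace Pool.Agent.MP_ad2fa1_an.H64

theorem main (N c : ℝ) (hN : 1 < N) (hc : 0 < c) : Final N c := by
  obtain ⟨A, _, _, _, ⟨W⟩⟩ := alg
  obtain ⟨l, q, C, δ, Y, Z, w, hl, hS, hP⟩ := fix rad1 rad2 rad3 green volt decay (gl green) mp
    (sup green (gl green) half decay) f0 (f1 half) unit bc (u0 unit) (u1 unit) nlB sel (rem bc)
    (ops kop) A W (N + 1) (by linarith)
  obtain ⟨v, hv⟩ := post cyl A W (N + 1) l q C δ Y Z w (by linarith) hS hP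
  exact fin pull (trans pull) hyp N c l v (by linarith) hc hl hv

end Pool.Agent.MP_ad2fa1_an.H64
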