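import Pool.Agent.MP_ad2fa1_an.H64.Spec

set_option autoImplicit false

noncomputable section

namespace Pool.Agent.MP_ad2fa1_an.H64

open Real Set Filter Topology

namespace NlB

theorem fixp {X : Type} [NormedAddCommGroup X] [CompleteSpace X] {ρ : ℝ} (hρ : 0 ≤ ρ)
    (F : X → X) (h1 : ∀ x, ‖x‖ ≤ ρ → ‖F x‖ ≤ ρ)
    (h2 : ∀ x y, ‖x‖ ≤ ρ → ‖y‖ ≤ ρ → ‖F x - F y‖ ≤ 1 / 2 * ‖x - y‖) :
    ∃ x, ‖x‖ ≤ ρ ∧ F x = x := by
  have hm : MapsTo F (Metric.closedBall 0 ρ) (Metric.closedBall 0 ρ) := fun x hx =>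
    mem_closedBall_zero_iff.2 (h1 x (mem_closedBall_zero_iff.1 hx))
  have hc : ContractingWith (1 / 2) (hm.restrict F _ _) := by
    refine ⟨by norm_num, LipschitzWith.of_dist_le_mul fun x y => ?_⟩
    have := h2 x y (mem_closedBall_zero_iff.1 x.2) (mem_closedBall_zero_iff.1 y.2)
    simpa [Subtype.dist_eq, dist_eq_norm] using this
  obtain ⟨y, hy, hf, -⟩ := ContractingWith.exists_fixedPoint' Metric.isClosed_closedBall.isComplete
    hm hc (Metric.mem_closedBall_self hρ) (edist_ne_top _ _)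
  exact ⟨y, mem_closedBall_zero_iff.1 hy, hf⟩

theorem cont {X Y : Type} [NormedAddCommGroup X] [NormedAddCommGroup Y] {s : Set ℝ} {ρ D : ℝ}
    (F : ℝ → X → Y) (x : ℝ → X) (hx : ∀ l ∈ s, ‖x l‖ ≤ ρ) (hc : ContinuousOn x s)
    (h2 : ∀ l ∈ s, ∀ x y, ‖x‖ ≤ ρ → ‖y‖ ≤ ρ → ‖F l x - F l y‖ ≤ D * ‖x - y‖)
    (h3 : ∀ x, ‖x‖ ≤ ρ → ContinuousOn (fun l => F l x) s) :
    ContinuousOn (fun l => F l (x l)) s := by
  intro l0 h0
  have a1 : Tendsto (fun l => F l (x l) - F l (x l0)) (𝓝[s] l0) (𝓝 0) := by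
    have := (tendsto_iff_norm_sub_tendsto_zero.1 (hc l0 h0)).const_mul D
    rw [mul_zero] at this
    refine squeeze_zero_norm' ?_ this
    filter_upwards [self_mem_nhdsWithin] with l hl using h2 l hl _ _ (hx l hl) (hx l0 h0)
  have := a1.add (h3 _ (hx l0 h0) l0 h0)
  simpa [ContinuousWithinAt] using this

theorem contfix {X : Type} [NormedAddCommGroup X] {s : Set ℝ} {ρ : ℝ}
    (F : ℝ → X → X) (x : ℝ → X) (hx : ∀ l ∈ s, ‖x l‖ ≤ ρ ∧ F l (x l) = x l)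
    (h2 : ∀ l ∈ s, ∀ x y, ‖x‖ ≤ ρ → ‖y‖ ≤ ρ → ‖F l x - F l y‖ ≤ 1 / 2 * ‖x - y‖)
    (h3 : ∀ x, ‖x‖ ≤ ρ → ContinuousOn (fun l => F l x) s) : ContinuousOn x s := by
  intro l0 h0
  have := (tendsto_iff_norm_sub_tendsto_zero.1 (h3 _ (hx l0 h0).1 l0 h0)).const_mul 2
  rw [mul_zero] at this
  refine tendsto_iff_norm_sub_tendsto_zero.2 (squeeze_zero' (.of_forall fun _ => norm_nonneg _)
    ?_ this)
  filter_upwards [self_mem_nhdsWithin] with l hl
  have a := h2 l hl _ _ (hx l hl).1 (hx l0 h0).1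
  have b := norm_sub_le_norm_sub_add_norm_sub (F l (x l)) (F l (x l0)) (F l0 (x l0))
  rw [(hx l hl).2] at a b
  rw [(hx l0 h0).2] at b ⊢
  linarith

end NlB

theorem nlB : SNl := by
  intro X W _ _ _ _ _ l1 l2 r0 C T L K m R e φ h12 hr0 hT hL hU hφ hR0 hR hRc j1 j2 r hr
  set S : ℝ → X →L[ℝ] X := fun l => Ring.inverse (1 - T l) with hS
  have hSc : ContinuousOn S (Icc l1 l2) := fun l hl => by
    obtain ⟨u, hu⟩ := hU l hl
    have := NormedRing.inverse_continuousAt u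
    rw [hu] at this
    exact ContinuousAt.comp_continuousWithinAt (f := fun l => 1 - T l) this
      (continuousWithinAt_const.sub (hT l hl))
  have hS1 : ∀ l ∈ Icc l1 l2, ∀ y, S l y = y + T l (S l y) := fun l hl y => by
    have := congrArg (fun A : X →L[ℝ] X => A y) (Ring.mul_inverse_cancel _ (hU l hl))
    simp only [ContinuousLinearMap.mul_apply, ContinuousLinearMap.sub_apply,
      ContinuousLinearMap.one_apply] at this
    exact sub_eq_iff_eq_add.1 this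
  have hS2 : ∀ l ∈ Icc l1 l2, S l e = φ l := fun l hl => by
    have := congrArg (fun A : X →L[ℝ] X => A (φ l)) (Ring.inverse_mul_cancel _ (hU l hl))
    simp only [ContinuousLinearMap.mul_apply, ContinuousLinearMap.sub_apply,
      ContinuousLinearMap.one_apply] at this
    rw [← this, sub_eq_of_eq_add (hφ l hl)]
  obtain ⟨B0, hB0⟩ := isCompact_Icc.exists_bound_of_continuousOn hSc
  obtain ⟨B1, hB1⟩ := isCompact_Icc.exists_bound_of_continuousOn hL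
  have i1 : l1 ∈ Icc l1 l2 := left_mem_Icc.2 h12
  have i2 : l2 ∈ Icc l1 l2 := right_mem_Icc.2 h12
  have B0p : 0 ≤ B0 := (norm_nonneg _).trans (hB0 l1 i1)
  have B1p : 0 ≤ B1 := (norm_nonneg _).trans (hB1 l1 i1)
  obtain ⟨c, hc⟩ : ∃ c, c = 2 * (B0 * ‖e‖ + 1) := ⟨_, rfl⟩
  have cp : 0 < c := by rw [hc]; positivity
  obtain ⟨D, hD⟩ : ∃ D, D = B0 * ‖K‖ * |C| := ⟨_, rfl⟩
  have Dp : 0 ≤ D := by rw [hD]; positivity
  obtain ⟨E, hE⟩ : ∃ E, E = (B1 * D + ‖m‖ * |C|) * c := ⟨_, rfl⟩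
  obtain ⟨ρ, ρp, a1, a2, a3, a4, a5⟩ : ∃ ρ > 0, ρ < r ∧ ρ < r0 ∧ D * ρ < 1 / 4 ∧
      E * ρ < L l1 (φ l1) - 1 ∧ E * ρ < 1 - L l2 (φ l2) := by
    have t : ∀ a b : ℝ, 0 < b → ∀ᶠ ρ in 𝓝[>] (0 : ℝ), a * ρ < b := fun a b hb =>
      nhdsWithin_le_nhds ((by fun_prop : Continuous fun ρ : ℝ => a * ρ).continuousAt.eventually_lt
        continuousAt_const (by simpa using hb))
    obtain ⟨ρ, h0, h1, h2, h3, h4, h5⟩ := (eventually_mem_nhdsWithin.and ((t 1 r hr).and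
      ((t 1 r0 hr0).and ((t D (1 / 4) (by norm_num)).and ((t E (L l1 (φ l1) - 1)
      (by linarith)).and (t E _ j2)))))).exists
    exact ⟨ρ, h0, by linarith, by linarith, h3, h4, h5⟩
  obtain ⟨ε, hε⟩ : ∃ ε, ε = ρ / c := ⟨_, rfl⟩
  have εp : 0 < ε := by rw [hε]; positivity
  have hρ : ρ = ε * c := by rw [hε]; field_simp
  have lip : ∀ l ∈ Icc l1 l2, ∀ x y, ‖x‖ ≤ ρ → ‖y‖ ≤ ρ →
      ‖R l x - R l y‖ ≤ |C| * (2 * ρ) * ‖x - y‖ := fun l hl x y hx hy =>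
    (hR l hl x y (hx.trans a2.le) (hy.trans a2.le)).trans (by
      gcongr
      · exact le_abs_self C
      · linarith)
  have sq : ∀ l ∈ Icc l1 l2, ∀ x, ‖x‖ ≤ ρ → ‖R l x‖ ≤ |C| * (ρ * ρ) := fun l hl x hx => by
    have := hR l hl x 0 (hx.trans a2.le) (by simpa using hr0.le)
    rw [hR0 l hl, sub_zero, sub_zero, norm_zero, add_zero, mul_assoc] at this
    refine this.trans ?_
    gcongr
    exact le_abs_self C
  have SK : ∀ l ∈ Icc l1 l2, ∀ w, ‖S l (K w)‖ ≤ B0 * ‖K‖ * ‖w‖ := fun l hl w =>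
    ((S l).le_of_opNorm_le (hB0 l hl) _).trans (by
      rw [mul_assoc]; gcongr; exact K.le_opNorm w)
  have SKq : ∀ l ∈ Icc l1 l2, ∀ x, ‖x‖ ≤ ρ → ‖S l (K (R l x))‖ ≤ D * (ρ * ρ) :=
    fun l hl x hx => (SK l hl _).trans (by
      rw [hD, mul_assoc _ |C|]; gcongr; exact sq l hl x hx)
  set F : ℝ → X → X := fun l x => ε • S l e + S l (K (R l x)) with hF
  have F2 : ∀ l ∈ Icc l1 l2, ∀ x y, ‖x‖ ≤ ρ → ‖y‖ ≤ ρ → ‖F l x - F l y‖ ≤ 1 / 2 * ‖x - y‖ :=
    fun l hl x y hx hy => by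
      simp only [hF, add_sub_add_left_eq_sub, ← map_sub]
      refine (SK l hl _).trans ((mul_le_mul_of_nonneg_left (lip l hl x y hx hy)
        (by positivity)).trans ?_)
      have : B0 * ‖K‖ * (|C| * (2 * ρ) * ‖x - y‖) = 2 * (D * ρ) * ‖x - y‖ := by rw [hD]; ring
      rw [this]
      gcongr
      linarith
  have F1 : ∀ l ∈ Icc l1 l2, ∃ x, ‖x‖ ≤ ρ ∧ F l x = x := fun l hl =>
    NlB.fixp ρp.le _ (fun x hx => by
      have b1 := SKq l hl x hx
      have b2 := (S l).le_of_opNorm_le (hB0 l hl) e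
      have b3 := norm_add_le (ε • S l e) (S l (K (R l x)))
      rw [norm_smul, Real.norm_of_nonneg εp.le] at b3
      have b4 := mul_le_mul_of_nonneg_left b2 εp.le
      have b5 : ε * (B0 * ‖e‖) + ε = ρ / 2 := by rw [hρ, hc]; ring
      simp only [hF]
      nlinarith) (F2 l hl)
  choose! x hx using F1
  have hRc' : ∀ x, ‖x‖ ≤ ρ → ContinuousOn (fun l => R l x) (Icc l1 l2) := fun x h =>
    hRc x (h.trans a2.le)
  have xc : ContinuousOn x (Icc l1 l2) := NlB.contfix F x hx F2 fun y hy =>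
    ((hSc.clm_apply continuousOn_const).const_smul ε).add
      (hSc.clm_apply (K.continuous.comp_continuousOn (hRc' y hy)))
  have gc : ContinuousOn (fun l => ε - (L l (x l) + m (R l (x l)))) (Icc l1 l2) :=
    continuousOn_const.sub ((hL.clm_apply xc).add (m.continuous.comp_continuousOn
      (NlB.cont R x (fun l hl => (hx l hl).1) xc lip hRc')))
  have est : ∀ l ∈ Icc l1 l2, |ε - (L l (x l) + m (R l (x l))) - ε * (1 - L l (φ l))| ≤
      ε * (E * ρ) := fun l hl => by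
    have b0 : L l (x l) = ε * L l (φ l) + L l (S l (K (R l (x l)))) := by
      conv_lhs => rw [← (hx l hl).2]
      simp only [hF, map_add, map_smul, hS2 l hl, smul_eq_mul]
    have b1 := ((L l).le_of_opNorm_le (hB1 l hl) _).trans
      (mul_le_mul_of_nonneg_left (SKq l hl _ (hx l hl).1) B1p)
    have b2 := (m.le_opNorm _).trans
      (mul_le_mul_of_nonneg_left (sq l hl _ (hx l hl).1) (norm_nonneg m))
    have b3 : ε * (E * ρ) = B1 * (D * (ρ * ρ)) + ‖m‖ * (|C| * (ρ * ρ)) := by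
      rw [hE, hρ]; ring
    rw [Real.norm_eq_abs, abs_le] at b1 b2
    rw [b0, b3, abs_le]
    constructor <;> linarith [b1.1, b1.2, b2.1, b2.2]
  obtain ⟨l, hl, h0⟩ := intermediate_value_Icc h12 gc (a := l1) (b := l2)
    (show (0 : ℝ) ∈ Icc _ _ from ⟨by
      have := (abs_le.1 (est l1 i1)).2
      nlinarith, by
      have := (abs_le.1 (est l2 i2)).1
      nlinarith⟩)
  refine ⟨ε, εp, l, hl, x l, (hx l hl).1.trans a1.le, (hx l hl).1.trans a2.le, ?_,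
    sub_eq_zero.1 h0⟩
  have b := (hx l hl).2
  have b' := congrArg (T l) b
  simp only [hF, map_add, map_smul] at b b'
  rw [← b', ← b]
  conv_lhs => rw [hS1 l hl e, hS1 l hl (K _)]
  rw [b, smul_add]
  abel

end Pool.Agent.MP_ad2fa1_an.H64
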