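import Pool.Agent.MP_ad2fa1_an.H33.Defs
import Pool.Agent.MP_ad2fa1_an.H33.Fund
import Pool.Agent.MP_6b3e96_gt.H98.Reg

/-!
Definitions and statements of the steps: non-radial solutions of the Chern-Simons equation.
-/

set_option autoImplicit false
set_option linter.unusedVariables false

noncomputable section

namespace Pool.Agent.MP_ad2fa1_an.H64

open Real Set Filter Topology MeasureTheory BoundedContinuousFunction Function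
open scoped ContDiff
open Pool.Agent.MP_6b3e96_gt.H77 (lap Test)
open Pool.Agent.MP_ad2fa1_an.H33 (IsSol Hyp zeta)

/-- Weight of the radial mode. -/
def rho (t : ℝ) : ℝ := 1 + |t|
/-- Decay weight. -/
def om (δ t : ℝ) : ℝ := exp (-δ * |t| + 2 * min t 0)
/-- Green kernel of `-d² + κ²`. -/
def G (κ t : ℝ) : ℝ := exp (-κ * |t|) / (2 * κ)
/-- The peak at `T`. -/
def eT (T t : ℝ) : ℝ := exp (-2 * |t - T|)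
/-- The bordered kernel of the critical mode. -/
def K1 (T t τ : ℝ) : ℝ := G 2 (t - τ) - eT T t * (exp (-2 * (τ - T)) / 4)
/-- Decay rate of the shifted mode `n`. -/
def kap (M : ℝ) (n : ℤ) : ℝ := √(4 * (n : ℝ) ^ 2 + M)
/-- First coefficient. -/
def PP (Y : ℝ → ℝ) (t : ℝ) : ℝ := exp (Y t)
/-- Second coefficient. -/
def QQ (l : ℝ) (Y : ℝ → ℝ) (t : ℝ) : ℝ := l * exp (2 * Y t - 2 * t)
/-- Potential of the linearised equation. -/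
def VV (l : ℝ) (Y : ℝ → ℝ) (t : ℝ) : ℝ := PP Y t - 2 * QQ l Y t

/-! ### The radial family -/

/-- Solution of the truncated radial equation. -/
structure Rad (a l : ℝ) (Y Z : ℝ → ℝ) : Prop where
  dY : ∀ t, HasDerivAt Y (Z t) t
  dZ : ∀ t, HasDerivAt Z (-(exp (Y t) * max (1 - l * exp (Y t - 2 * t)) 0)) t
  up : ∀ t, Y t ≤ 2 * a * t
  low : ∀ t, 2 * a * t - exp (2 * a * t) ≤ Y t
  zl : ∀ t, |Z t - 2 * a| ≤ exp (2 * a * t)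

/-- A negative decaying radial solution. -/
structure Sol (a l q C δ : ℝ) (Y Z : ℝ → ℝ) : Prop extends Rad a l Y Z where
  l0 : 0 ≤ l
  q1 : q < 1
  d0 : 0 < δ
  neg : ∀ t, l * exp (Y t - 2 * t) ≤ q
  dec : ∀ t, exp (Y t) ≤ C * om δ t

/-- The maximum of the radial solution is close to zero. -/
def Top (l : ℝ) (Y Z : ℝ → ℝ) (τ2 : ℝ) : Prop := ∃ τ1 tm, τ1 < tm ∧ tm < τ2 ∧ Z tm = 2 ∧
  (∀ t ∈ Icc τ1 τ2, VV l Y t ≤ 0) ∧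
  PP Y tm - QQ l Y tm < 3 * ((Y tm - 2 * tm) - (Y τ1 - 2 * τ1)) ∧
  exp (τ2 - tm) * (PP Y tm - QQ l Y tm) < 3 * ((Y tm - 2 * tm) - (Y τ2 - 2 * τ2))

def SRad1 : Prop := ∀ a : ℝ, 1 ≤ a → ∃ Y Z : ℝ → ℝ → ℝ, Continuous (uncurry Y) ∧
  Continuous (uncurry Z) ∧ ∀ l, 0 ≤ l → Rad a l (Y l) (Z l)

def SRad2 : Prop := ∀ (a : ℝ) (Y Z : ℝ → ℝ → ℝ), 2 ≤ a → Continuous (uncurry Y) →
  Continuous (uncurry Z) → (∀ l, 0 ≤ l → Rad a l (Y l) (Z l)) →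
  ∃ τ0, ∀ η > 0, ∃ Λ q C δ, 0 < Λ ∧ Λ ≤ 3 ∧ (∀ l ∈ Icc 0 Λ, Sol a l q C δ (Y l) (Z l)) ∧
    1 / 2 < Λ * exp (Y Λ τ0 - 2 * τ0) ∧ ∃ t, 1 - η < Λ * exp (Y Λ t - 2 * t)

def SRad3 : Prop := ∀ a τ0 : ℝ, 2 ≤ a → ∃ η > 0, ∀ (l q C δ : ℝ) (Y Z : ℝ → ℝ),
  Sol a l q C δ Y Z → l ≤ 3 → 1 / 2 < l * exp (Y τ0 - 2 * τ0) →
  (∃ t, 1 - η < l * exp (Y t - 2 * t)) → ∃ τ2, Top l Y Z τ2

/-! ### Scalar linear theory -/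

def SGreen : Prop := ∀ (κ K : ℝ) (f : ℝ → ℝ), 0 < κ → Continuous f → (∀ t, |f t| ≤ K) →
  ∃ w1 : ℝ → ℝ, (∀ t, HasDerivAt (fun s => ∫ τ, G κ (s - τ) * f τ) (w1 t) t) ∧
    (∀ t, HasDerivAt w1 (κ ^ 2 * (∫ τ, G κ (t - τ) * f τ) - f t) t) ∧
    (∀ t, |∫ τ, G κ (t - τ) * f τ| ≤ K / κ ^ 2) ∧ ∀ t, |w1 t| ≤ K / κ

def SVolt : Prop := ∀ (δ K : ℝ) (f : ℝ → ℝ), 0 < δ → Continuous f → (∀ t, |f t| ≤ K * om δ t) →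
  ∃ w1 : ℝ → ℝ, (∀ t, HasDerivAt (fun s => ∫ τ, max (s - τ) 0 * f τ) (w1 t) t) ∧
    (∀ t, HasDerivAt w1 (f t) t) ∧ Tendsto (fun s => ∫ τ, max (s - τ) 0 * f τ) atBot (𝓝 0)

def SDecay : Prop := ∀ (κ M K : ℝ) (h g : ℝ → ℝ), 0 < κ → 0 ≤ M → M < κ ^ 2 → Continuous h →
  Continuous g → (∀ t, 0 ≤ h t ∧ h t ≤ K) → (∀ t, 0 ≤ g t ∧ g t ≤ K) → Tendsto g atBot (𝓝 0) →
  (∀ t, h t ≤ ∫ τ, G κ (t - τ) * (g τ + M * h τ)) → Tendsto h atBot (𝓝 0)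

/-- A decaying potential. -/
def Pot (V : ℝ → ℝ) (C δ : ℝ) : Prop := 0 < δ ∧ Continuous V ∧ ∀ t, |V t| ≤ C * om δ t

/-- The bounded solution of the critical mode with a point source of size `4 j` at `T`. -/
structure Glued (V : ℝ → ℝ) (T j : ℝ) (φ : ℝ →ᵇ ℝ) : Prop where
  hj : j = 1 - ∫ τ, exp (-2 * (τ - T)) / 4 * (V τ * φ τ)
  eq : ∀ t, φ t = (∫ τ, G 2 (t - τ) * (V τ * φ τ)) + j * eT T t

/-- Differential form of `Glued`. -/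
def Two (V : ℝ → ℝ) (T j : ℝ) (φ : ℝ → ℝ) : Prop := ∃ (L L1 R R1 : ℝ → ℝ) (K : ℝ),
  (∀ t ≤ T, φ t = L t) ∧ (∀ t ≥ T, φ t = R t) ∧
  (∀ t, HasDerivAt L (L1 t) t) ∧ (∀ t, HasDerivAt L1 (4 * L t - V t * φ t) t) ∧
  (∀ t, HasDerivAt R (R1 t) t) ∧ (∀ t, HasDerivAt R1 (4 * R t - V t * φ t) t) ∧
  L1 T - R1 T = 4 * j ∧ (∀ t ≤ T, |L t| ≤ K * exp (2 * t) ∧ |L1 t| ≤ K * exp (2 * t)) ∧
  (∀ᶠ t in atBot, 0 < L t) ∧ ∀ t ≥ T, |R t| ≤ K ∧ |R1 t| ≤ K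

def SGl : Prop := ∀ (V : ℝ → ℝ) (C δ T j : ℝ) (φ : ℝ →ᵇ ℝ), Pot V C δ → Glued V T j φ →
  Two V T j φ

/-- Maximum principle on a half-line. -/
def SHalf : Prop := ∀ (R R1 q : ℝ → ℝ) (T K : ℝ), (∀ t ≥ T, HasDerivAt R (R1 t) t) →
  (∀ t ≥ T, HasDerivAt R1 (q t * R t) t) → (∀ t ≥ T, 0 ≤ q t) → (∀ t ≥ T, -K ≤ R t) →
  0 ≤ R T → ∀ t ≥ T, 0 ≤ R t

def SMp : Prop := ∀ (V φ : ℝ → ℝ) (T j : ℝ), 0 ≤ T → Two V T j φ → (∀ t, T ≤ |t| → V t ≤ 1) →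
  (∀ t ∈ Icc (-T) T, 0 ≤ φ t) → ∀ t, 0 ≤ φ t

def SSup : Prop := ∀ (V : ℝ → ℝ) (C δ T j M : ℝ) (φ : ℝ →ᵇ ℝ), Pot V C δ → Glued V T j φ →
  (∀ t, |V t| ≤ M) → (∀ t, 0 ≤ φ t) → 0 ≤ j → (∀ t, 0 < φ t) ∧
  ∃ (Ψ : ℝ → ℝ) (c D θ : ℝ), Continuous Ψ ∧ 0 < c ∧ 0 ≤ θ ∧ θ < 1 ∧ (∀ t, c ≤ Ψ t ∧ Ψ t ≤ D) ∧
    ∀ t, ∫ τ, G (kap M 2) (t - τ) * ((V τ + M) * Ψ τ) ≤ θ * Ψ t

def SF0 : Prop := ∀ (a q C δ T j : ℝ) (Y Z φ : ℝ → ℝ), 2 < a → Sol a 0 q C δ Y Z →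
  Two (VV 0 Y) T j φ → (∀ t, 0 < φ t) → j < 0

def SF1 : Prop := ∀ (a l q C δ T j τ2 : ℝ) (Y Z φ : ℝ → ℝ), 2 ≤ a → Sol a l q C δ Y Z →
  Top l Y Z τ2 → τ2 ≤ T → (∀ t ≥ T, VV l Y t ≤ 1) → Two (VV l Y) T j φ →
  (∀ t, 0 ≤ φ t) ∧ 0 < j

/-! ### Operators on bounded functions -/

def SUnit : Prop := ∀ (E : Type) [NormedAddCommGroup E] [NormedSpace ℝ E] [CompleteSpace E]
  (T : (ℝ →ᵇ E) →L[ℝ] ℝ →ᵇ E) (Ψ : ℝ → ℝ) (c D θ : ℝ), 0 < c → 0 ≤ θ → θ < 1 →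
  (∀ t, c ≤ Ψ t ∧ Ψ t ≤ D) →
  (∀ (x : ℝ →ᵇ E) (s : ℝ), 0 ≤ s → (∀ τ, ‖x τ‖ ≤ s * Ψ τ) → ∀ t, ‖T x t‖ ≤ θ * s * Ψ t) →
  IsUnit (1 - T)

def SKop : Prop := ∀ (E F : Type) [NormedAddCommGroup E] [NormedSpace ℝ E] [NormedAddCommGroup F]
  [NormedSpace ℝ F] [CompleteSpace F] (k : ℝ → ℝ → E →L[ℝ] F), Continuous (uncurry k) →
  (∀ B : ℝ, ∃ D : ℝ → ℝ, Integrable D ∧ ∀ t, |t| ≤ B → ∀ τ, ‖k t τ‖ ≤ D τ) →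
  (∃ C : ℝ, ∀ t, ∫ τ, ‖k t τ‖ ≤ C) →
  ∃ K : (ℝ →ᵇ E) →L[ℝ] ℝ →ᵇ F, ∀ x t, K x t = ∫ τ, k t τ (x τ)

def SBc : Prop := ∀ (E : Type) [NormedAddCommGroup E] (F : ℝ → ℝ → E) (h : ℝ → ℝ) (a b : ℝ),
  Continuous (uncurry F) → Tendsto h (cocompact ℝ) (𝓝 0) →
  (∀ l ∈ Icc a b, ∀ τ, ‖F l τ‖ ≤ h τ) →
  ∃ v : ℝ → ℝ →ᵇ E, ContinuousOn v (Icc a b) ∧ ∀ l ∈ Icc a b, ∀ τ, v l τ = F l τ

def SU0 : Prop := ∀ (V : ℝ → ℝ) (C δ : ℝ) (T0 : (ℝ →ᵇ ℝ) →L[ℝ] ℝ →ᵇ ℝ), Pot V C δ →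
  (∀ x t, T0 x t = -((rho t)⁻¹ * ∫ τ, max (t - τ) 0 * (V τ * (rho τ * x τ)))) → IsUnit (1 - T0)

def SU1 : Prop := ∀ (V : ℝ → ℝ) (C δ T : ℝ) (T1 : (ℝ →ᵇ ℝ) →L[ℝ] ℝ →ᵇ ℝ), Pot V C δ →
  (∀ τ ≥ T, |V τ| ≤ 1) → (∀ x t, T1 x t = ∫ τ, K1 T t τ * (V τ * x τ)) → IsUnit (1 - T1)

/-- Bifurcation by the contraction principle and the intermediate value theorem. -/
def SNl : Prop := ∀ (X W : Type) [NormedAddCommGroup X] [NormedSpace ℝ X] [CompleteSpace X]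
  [NormedAddCommGroup W] [NormedSpace ℝ W] (l1 l2 r0 C : ℝ) (T : ℝ → X →L[ℝ] X)
  (L : ℝ → X →L[ℝ] ℝ) (K : W →L[ℝ] X) (m : W →L[ℝ] ℝ) (R : ℝ → X → W) (e : X) (φ : ℝ → X),
  l1 ≤ l2 → 0 < r0 → ContinuousOn T (Icc l1 l2) → ContinuousOn L (Icc l1 l2) →
  (∀ l ∈ Icc l1 l2, IsUnit (1 - T l)) → (∀ l ∈ Icc l1 l2, φ l = e + T l (φ l)) →
  (∀ l ∈ Icc l1 l2, R l 0 = 0) →
  (∀ l ∈ Icc l1 l2, ∀ x y, ‖x‖ ≤ r0 → ‖y‖ ≤ r0 → ‖R l x - R l y‖ ≤ C * (‖x‖ + ‖y‖) * ‖x - y‖) →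
  (∀ x, ‖x‖ ≤ r0 → ContinuousOn (fun l => R l x) (Icc l1 l2)) →
  1 - L l1 (φ l1) < 0 → 0 < 1 - L l2 (φ l2) →
  ∀ r > 0, ∃ ε > 0, ∃ l ∈ Icc l1 l2, ∃ x : X, ‖x‖ ≤ r ∧ ‖x‖ ≤ r0 ∧
    x = ε • e + T l x + K (R l x) ∧ ε = L l x + m (R l x)

/-- Choice of the parameter interval. -/
def SSel : Prop := ∀ (Λ T : ℝ) (φ : ℝ → ℝ →ᵇ ℝ) (j : ℝ → ℝ) (U : Set ℝ), 0 < Λ →
  ContinuousOn φ (Icc 0 Λ) → ContinuousOn j (Icc 0 Λ) →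
  (∀ l ∈ Icc 0 Λ, l ∈ U → ∀ᶠ l' in 𝓝[Icc 0 Λ] l, l' ∈ U) →
  (∀ l ∈ Icc 0 Λ, (∀ t, 0 ≤ φ l t) → 0 ≤ j l → l ∈ U ∧ ∀ t, 0 < φ l t) →
  (∀ l ∈ Icc 0 Λ, (∀ t ∈ Icc (-T) T, 0 ≤ φ l t) → ∀ t, 0 ≤ φ l t) →
  (∀ t, 0 ≤ φ Λ t) → 0 ≤ j Λ → ((∀ t, 0 ≤ φ 0 t) → j 0 < 0) →
  ∃ l1 ∈ Icc 0 Λ, j l1 < 0 ∧ Icc l1 Λ ⊆ U

/-- The nonlinear remainder. -/
def SRem : Prop := ∀ (A : Type) [NormedCommRing A] [NormedAlgebra ℝ A] [CompleteSpace A]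
  (P Q : ℝ → ℝ → ℝ) (a b C δ : ℝ), 0 < δ → Continuous (uncurry P) → Continuous (uncurry Q) →
  (∀ l ∈ Icc a b, ∀ τ, |P l τ| ≤ C * om δ τ ∧ |Q l τ| ≤ C * om δ τ) →
  ∃ (R : ℝ → (ℝ →ᵇ A) → ℝ →ᵇ A) (r0 C' : ℝ), 0 < r0 ∧ (∀ l ∈ Icc a b, R l 0 = 0) ∧
    (∀ l ∈ Icc a b, ∀ x y, ‖x‖ ≤ r0 → ‖y‖ ≤ r0 →
      ‖R l x - R l y‖ ≤ C' * (‖x‖ + ‖y‖) * ‖x - y‖) ∧
    (∀ x, ‖x‖ ≤ r0 → ContinuousOn (fun l => R l x) (Icc a b)) ∧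
    ∀ l ∈ Icc a b, ∀ x, ‖x‖ ≤ r0 → ∀ τ, om (δ / 2) τ • R l x τ =
      P l τ • (NormedSpace.exp (rho τ • x τ) - 1 - rho τ • x τ) -
      Q l τ • (NormedSpace.exp ((2 * rho τ) • x τ) - 1 - (2 * rho τ) • x τ)

/-! ### The Wiener algebra -/

/-- Interface of the algebra of absolutely convergent Fourier series with real coefficients. -/
structure Wien (A : Type) [NormedCommRing A] [NormedAlgebra ℝ A] where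
  /-- coefficients -/
  c : ℤ → A →L[ℝ] ℝ
  /-- basis -/
  d : ℤ → A
  /-- multipliers -/
  mu : (ℤ →ᵇ ℝ) →L[ℝ] A →L[ℝ] A
  /-- symmetric part of the high modes -/
  pr : A →L[ℝ] A
  /-- evaluation -/
  ev : ℝ → A →ₐ[ℝ] ℂ
  sum_le : ∀ (a : A) (s : Finset ℤ), ∑ n ∈ s, |c n a| ≤ ‖a‖
  ext : ∀ a b : A, (∀ n, c n a = c n b) → a = b
  c_d : ∀ n m, c n (d m) = if n = m then 1 else 0
  norm_d : ∀ m, ‖d m‖ ≤ 1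
  one_eq : (1 : A) = d 0
  c_mu : ∀ m n a, c n (mu m a) = m n * c n a
  norm_mu : ∀ m, ‖mu m‖ ≤ ‖m‖
  c_pr : ∀ n a, c n (pr a) = if 2 ≤ |n| then (c n a + c (-n) a) / 2 else 0
  norm_pr : ∀ a, ‖pr a‖ ≤ ‖a‖
  ev_sum : ∀ (θ : ℝ) (a : A),
    HasSum (fun n : ℤ => (c n a : ℂ) * Complex.exp (n * θ * Complex.I)) (ev θ a)
  norm_ev : ∀ θ a, ‖ev θ a‖ ≤ ‖a‖
  ev_cont : Continuous fun p : ℝ × A => ev p.1 p.2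
  ev_inj : ∀ a b : A, (∀ θ, ev θ a = ev θ b) → a = b

def SAlg : Prop := ∃ (A : Type) (_ : NormedCommRing A) (_ : NormedAlgebra ℝ A)
  (_ : CompleteSpace A), Nonempty (Wien A)

def SOps : Prop := ∀ (A : Type) [NormedCommRing A] [NormedAlgebra ℝ A] [CompleteSpace A]
  (W : Wien A) (δ T M : ℝ), 0 < δ → 0 ≤ M →
  ∃ (k0 k1 : (ℝ →ᵇ ℝ) →L[ℝ] ℝ →ᵇ ℝ) (m1 : (ℝ →ᵇ ℝ) →L[ℝ] ℝ) (kh : (ℝ →ᵇ A) →L[ℝ] ℝ →ᵇ A),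
    (∀ y t, k0 y t = -((rho t)⁻¹ * ∫ τ, max (t - τ) 0 * (om δ τ * y τ))) ∧
    (∀ y t, k1 y t = ∫ τ, K1 T t τ * (om δ τ * y τ)) ∧
    (∀ y, m1 y = ∫ τ, exp (-2 * (τ - T)) / 4 * (om δ τ * y τ)) ∧
    (∀ y t n, W.c n (kh y t) =
      if 2 ≤ |n| then ∫ τ, G (kap M n) (t - τ) * W.c n (y τ) else 0) ∧
    ∀ y t, ‖kh y t‖ ≤ ∫ τ, G (kap M 2) (t - τ) * ‖y τ‖

/-- The system of mode equations. -/
def Modes {A : Type} [NormedCommRing A] [NormedAlgebra ℝ A] (W : Wien A) (w f : ℝ → A) : Prop :=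
  Continuous w ∧ Continuous f ∧ ∀ n : ℤ, ∃ w1 : ℝ → ℝ,
    (∀ t, HasDerivAt (fun s => W.c n (w s)) (w1 t) t) ∧
    ∀ t, HasDerivAt w1 (4 * (n : ℝ) ^ 2 * W.c n (w t) - W.c n (f t)) t

def SCyl : Prop := ∀ (A : Type) [NormedCommRing A] [NormedAlgebra ℝ A] (W : Wien A)
  (w f : ℝ → A), Modes W w f → ∀ ψ, Test univ ψ →
  ∫ z : ℂ, (W.ev (2 * z.im) (w z.re)).re * lap ψ z =
    ∫ z : ℂ, -(W.ev (2 * z.im) (f z.re)).re * ψ z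

/-- A non-radial solution on the cylinder. -/
def Cyl (a l : ℝ) (v : ℂ → ℝ) : Prop := ContDiff ℝ ∞ v ∧
  (∀ z, lap v z = -(exp (v z) - l * exp (2 * v z - 2 * z.re))) ∧
  (∀ z, v (z + 2 * π * Complex.I) = v z) ∧
  (∀ η > 0, ∃ T, ∀ z : ℂ, z.re ≤ T → |v z - 2 * a * z.re| ≤ η) ∧
  (∀ z, v z - 2 * z.re + log l < 0) ∧ ∃ z z' : ℂ, z.re = z'.re ∧ v z ≠ v z'

/-- A non-radial solution of the mode equations. -/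
def Pert {A : Type} [NormedCommRing A] [NormedAlgebra ℝ A] (W : Wien A) (l : ℝ) (Y : ℝ → ℝ)
    (w : ℝ → A) : Prop :=
  Modes W w (fun t => PP Y t • (NormedSpace.exp (w t) - 1) -
    QQ l Y t • (NormedSpace.exp ((2 : ℝ) • w t) - 1)) ∧
  (∀ n t, W.c (-n) (w t) = W.c n (w t)) ∧ Tendsto w atBot (𝓝 0) ∧
  (∀ t, Y t - 2 * t + log l + ‖w t‖ < 0) ∧ ∃ t, W.c 1 (w t) ≠ 0

def SPost : Prop := ∀ (A : Type) [NormedCommRing A] [NormedAlgebra ℝ A] [CompleteSpace A]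
  (W : Wien A) (a l q C δ : ℝ) (Y Z : ℝ → ℝ) (w : ℝ → A), 1 ≤ a → Sol a l q C δ Y Z →
  Pert W l Y w → ∃ v, Cyl a l v

def SFix : Prop := ∀ (A : Type) [NormedCommRing A] [NormedAlgebra ℝ A] [CompleteSpace A]
  (W : Wien A) (a : ℝ), 2 < a → ∃ (l q C δ : ℝ) (Y Z : ℝ → ℝ) (w : ℝ → A), 0 < l ∧
    Sol a l q C δ Y Z ∧ Pert W l Y w

/-! ### Back to the plane -/

def SPull : Prop := ∀ U : ℂ → ℝ, ContDiff ℝ ∞ U → (∀ z, U (z + 2 * π * Complex.I) = U z) →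
  ContDiffOn ℝ ∞ (fun z => U (Complex.log z)) {0}ᶜ ∧
  ∀ z ≠ 0, lap (fun z => U (Complex.log z)) z = lap U (Complex.log z) / ‖z‖ ^ 2

def STrans : Prop := ∀ (N c : ℝ) (u B : ℂ → ℝ), 0 ≤ N → Continuous B →
  (∀ z ≠ 0, u z = 2 * N * log ‖z‖ + B z) → ContDiffOn ℝ ∞ u {0}ᶜ →
  (∀ z ≠ 0, lap u z = -(c * (exp (u z) * (1 - exp (u z))))) →
  IsSol N (fun _ => c) (fun s => s * (1 - s)) fun x => u (zeta x)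

def SHyp : Prop := ∀ c : ℝ, 0 < c → ∃ q : ℝ → ℝ, (∀ s, 0 < s → s ≤ 1 → q s = s * (1 - s)) ∧
  Hyp (fun t => exp (2 * t) * c) fun s => q (exp s)

/-- The final statement. -/
def Final (N c : ℝ) : Prop := ∃ u : EuclideanSpace ℝ (Fin 2) → ℝ,
  IsSol N (fun _ => c) (fun s => s * (1 - s)) u ∧ (∀ x, x ≠ 0 → u x < 0) ∧
  (∃ x y, x ≠ 0 ∧ ‖x‖ = ‖y‖ ∧ u x ≠ u y) ∧
  ∃ q : ℝ → ℝ, (∀ s, 0 < s → s ≤ 1 → q s = s * (1 - s)) ∧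
    Hyp (fun t => exp (2 * t) * c) (fun s => q (exp s)) ∧ IsSol N (fun _ => c) q u

def SFin : Prop := ∀ (N c l : ℝ) (v : ℂ → ℝ), 0 ≤ N → 0 < c → 0 < l → Cyl (N + 1) l v → Final N c

/-! ### Small kit -/

theorem rho_pos (t : ℝ) : 0 < rho t := by unfold rho; positivity

theorem one_le_rho (t : ℝ) : 1 ≤ rho t := le_add_of_nonneg_right (abs_nonneg t)

@[fun_prop] theorem rho_cont : Continuous rho := by unfold rho; fun_prop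

theorem om_pos (δ t : ℝ) : 0 < om δ t := exp_pos _

@[fun_prop] theorem om_cont (δ : ℝ) : Continuous (om δ) := by unfold om; fun_prop

theorem om_le (δ t : ℝ) : om δ t ≤ exp (-δ * |t|) :=
  exp_le_exp.2 (by linarith [min_le_right t 0])

theorem om_le' (δ t : ℝ) : om δ t ≤ exp (-δ * |t|) * exp (2 * t) := by
  rw [← exp_add]; exact exp_le_exp.2 (by linarith [min_le_left t 0])

theorem om_le_one {δ : ℝ} (h : 0 ≤ δ) (t : ℝ) : om δ t ≤ 1 :=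
  (om_le δ t).trans (exp_le_one_iff.2 (by nlinarith [abs_nonneg t]))

theorem om_half (δ t : ℝ) : om δ t = exp (-(δ / 2) * |t|) * om (δ / 2) t := by
  unfold om; rw [← exp_add]; congr 1; ring

theorem G_pos {κ : ℝ} (h : 0 < κ) (t : ℝ) : 0 < G κ t := by unfold G; positivity

@[fun_prop] theorem G_cont (κ : ℝ) : Continuous (G κ) := by unfold G; fun_prop

theorem eT_pos (T t : ℝ) : 0 < eT T t := exp_pos _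

@[fun_prop] theorem eT_cont (T : ℝ) : Continuous (eT T) := by unfold eT; fun_prop

theorem eT_le (T t : ℝ) : eT T t ≤ 1 := exp_le_one_iff.2 (by nlinarith [abs_nonneg (t - T)])

theorem int_exp_abs {δ : ℝ} (h : 0 < δ) : Integrable fun t : ℝ => exp (-δ * |t|) := by
  have h1 := exp_neg_integrableOn_Ioi 0 h
  rw [← integrableOn_univ, ← Iic_union_Ioi (a := (0 : ℝ))]
  refine IntegrableOn.union ?_ (h1.congr_fun (fun t ht => by rw [abs_of_pos ht]) measurableSet_Ioi)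
  exact (integrableOn_exp_mul_Iic h 0).congr_fun
    (fun t ht => by rw [abs_of_nonpos ht]; ring_nf) measurableSet_Iic

theorem G_int {κ : ℝ} (h : 0 < κ) (t : ℝ) : Integrable fun τ => G κ (t - τ) :=
  ((int_exp_abs h).div_const (2 * κ)).comp_sub_left t

theorem G_integral {κ : ℝ} (h : 0 < κ) (t : ℝ) : ∫ τ, G κ (t - τ) = 1 / κ ^ 2 := by
  rw [integral_sub_left_eq_self (G κ) volume t]
  unfold G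
  rw [integral_div, integral_comp_abs (f := fun x => exp (-κ * x)),
    integral_exp_mul_Ioi (neg_lt_zero.2 h)]
  simp only [mul_zero, exp_zero]
  field_simp

theorem G_mul_int {κ K : ℝ} (h : 0 < κ) {f : ℝ → ℝ} (hf : Continuous f) (hK : ∀ t, |f t| ≤ K)
    (t : ℝ) : Integrable fun τ => G κ (t - τ) * f τ :=
  (G_int h t).mul_bdd hf.aestronglyMeasurable (.of_forall hK)

theorem kap_pos {M : ℝ} (hM : 0 ≤ M) {n : ℤ} (h : n ≠ 0) : 0 < kap M n :=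
  sqrt_pos.2 (by have : (n : ℝ) ≠ 0 := by exact_mod_cast h
                 positivity)

theorem kap_sq {M : ℝ} (hM : 0 ≤ M) (n : ℤ) : kap M n ^ 2 = 4 * (n : ℝ) ^ 2 + M :=
  sq_sqrt (by positivity)

theorem Rad.cont {a l : ℝ} {Y Z : ℝ → ℝ} (h : Rad a l Y Z) : Continuous Y ∧ Continuous Z :=
  ⟨continuous_iff_continuousAt.2 fun t => (h.dY t).continuousAt,
    continuous_iff_continuousAt.2 fun t => (h.dZ t).continuousAt⟩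

theorem QQ_eq (l : ℝ) (Y : ℝ → ℝ) (t : ℝ) : QQ l Y t = PP Y t * (l * exp (Y t - 2 * t)) := by
  unfold QQ PP; rw [mul_left_comm, ← exp_add]; congr 2; ring

theorem Sol.dZ' {a l q C δ : ℝ} {Y Z : ℝ → ℝ} (h : Sol a l q C δ Y Z) (t : ℝ) :
    HasDerivAt Z (-(PP Y t - QQ l Y t)) t := by
  have := h.dZ t
  rw [max_eq_left (by linarith [h.neg t, h.q1])] at this
  rw [QQ_eq]
  convert this using 2
  unfold PP; ring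

theorem Sol.bounds {a l q C δ : ℝ} {Y Z : ℝ → ℝ} (h : Sol a l q C δ Y Z) (t : ℝ) :
    0 ≤ QQ l Y t ∧ QQ l Y t < PP Y t ∧ PP Y t ≤ C * om δ t ∧ |VV l Y t| ≤ C * om δ t := by
  have h0 : 0 < PP Y t := exp_pos _
  have h1 : 0 ≤ QQ l Y t := mul_nonneg h.l0 (exp_pos _).le
  have h2 : QQ l Y t < PP Y t := by
    rw [QQ_eq]; exact mul_lt_of_lt_one_right h0 ((h.neg t).trans_lt h.q1)
  have h3 : PP Y t ≤ C * om δ t := h.dec t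
  exact ⟨h1, h2, h3, abs_le.2 ⟨by unfold VV; linarith, by unfold VV; linarith⟩⟩

theorem Sol.pot {a l q C δ : ℝ} {Y Z : ℝ → ℝ} (h : Sol a l q C δ Y Z) : Pot (VV l Y) C δ := by
  have := h.toRad.cont.1
  exact ⟨h.d0, by unfold VV PP QQ; fun_prop, fun t => (h.bounds t).2.2.2⟩

end Pool.Agent.MP_ad2fa1_an.H64
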